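import Mathlib
import Pool.Agent.Work.MP_73869e_nt.TH.A5
import Pool.Agent.Work.MP_2dba45_nt.Crt

set_option autoImplicit false

/-!
The theorem on clusters for abstract forms `F i n` (`i : Fin K`) and an abstract preliminary sieve
`Bd p n` (the integer `n` is bad for the prime `p`).
-/

namespace Pool.Agent.Work.MP_2dba45_nt.TG

open Finset Pool.Agent.Work.MP_2dba45_nt.BilDef Pool.Agent.Work.MP_2dba45_nt.Sv
  Pool.Agent.Work.MP_73869e_nt.SK Pool.Agent.Work.MP_73869e_nt.TH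

/-- at most two prime factors, all at least `N ^ (9 / 40)` -/
def GoodV (N v : ℕ) : Prop :=
  ArithmeticFunction.cardFactors v ≤ 2 ∧ ∀ p : ℕ, p.Prime → p ∣ v → pw N zExp ≤ p

/-- exceptional values -/
def BadV (N v : ℕ) : Prop :=
  (∃ p : ℕ, p.Prime ∧ p ^ 2 ∣ v) ∧ ∀ p : ℕ, p.Prime → p ∣ v → pw N zExp ≤ p

open Classical in
/-- number of bad residue classes modulo `p` -/
noncomputable def rhB (Bd : ℕ → ℕ → Prop) (p : ℕ) : ℕ := #((range p).filter (fun x => Bd p x))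

/-- its density -/
noncomputable def grB (Bd : ℕ → ℕ → Prop) (p : ℕ) : ℝ := (rhB Bd p : ℝ) / p

/-- the outcome of the integer `n` -/
def oF {K : ℕ} (P : Finset ℕ) (F : Fin K → ℕ → ℕ) (n : ℕ) : Finset (ℕ × Fin K) :=
  (P ×ˢ (univ : Finset (Fin K))).filter (fun a => a.1 ∣ F a.2 n)

/-- no bad prime below `z₀` -/
def RoB (Bd : ℕ → ℕ → Prop) (z₀ n : ℕ) : Prop := ∀ p : ℕ, p.Prime → p < z₀ → ¬ Bd p n

/-- the remainder for `n ≡ c (mod r)`, `D ∣ f n` -/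
noncomputable def RemF (W : ℕ → ℝ) (N : ℕ) (f : ℕ → ℕ) (D r c : ℕ) : ℝ :=
  ∑ n ∈ (Ioc N (2 * N)).filter (fun n => n ≡ c [MOD r] ∧ D ∣ f n), W n
    - (#(Rt D) : ℝ) / ((D : ℝ) * r) * ∑ n ∈ Ioc N (2 * N), W n

/-- admissible system of forms and preliminary sieve -/
structure Adm {K : ℕ} (z₀ : ℕ) (F : Fin K → ℕ → ℕ) (Bd : ℕ → ℕ → Prop) : Prop where
  per : ∀ i n r, F i (n % r) ≡ F i n [MOD r]
  loc : ∀ i p, p.Prime → z₀ ≤ p → #((range p).filter (fun x => p ∣ F i x)) = Nu.nu 1 p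
  exc : ∀ i j n p, p.Prime → z₀ ≤ p → p ∣ F i n → p ∣ F j n → i = j
  bper : ∀ p n, Bd p n ↔ Bd p (n % p)
  bF : ∀ p n i, p.Prime → p ∣ F i n → Bd p n

end Pool.Agent.Work.MP_2dba45_nt.TG
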