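import Mathlib
import Pool.Agent.Work.MP_2dba45_nt.TG.Def

set_option autoImplicit false

/-!
Local densities of the preliminary sieve.
-/

namespace Pool.Agent.Work.MP_2dba45_nt.TG

open Finset Pool.Agent.Work.MP_2dba45_nt.BilDef Pool.Agent.Work.MP_2dba45_nt.Sv
  Pool.Agent.Work.MP_73869e_nt.SK Pool.Agent.Work.MP_73869e_nt.TH

theorem grB_nonneg (Bd : ℕ → ℕ → Prop) (p : ℕ) : 0 ≤ grB Bd p := by
  unfold grB
  positivity

theorem grB_le (κ : ℕ) (Bd : ℕ → ℕ → Prop) (hκ : ∀ p : ℕ, p.Prime → rhB Bd p ≤ κ) (p : ℕ)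
    (hp : p.Prime) : grB Bd p ≤ κ / p := by
  unfold grB
  have h1 : (rhB Bd p : ℝ) ≤ κ := by exact_mod_cast hκ p hp
  have hp0 : (0 : ℝ) < p := by exact_mod_cast hp.pos
  gcongr

theorem grB_half (Bd : ℕ → ℕ → Prop) (hh : ∀ p : ℕ, p.Prime → 2 * rhB Bd p ≤ p) (p : ℕ)
    (hp : p.Prime) : grB Bd p ≤ 1 / 2 := by
  unfold grB
  have hp0 : (0 : ℝ) < p := by exact_mod_cast hp.pos
  have h1 : (2 : ℝ) * rhB Bd p ≤ p := by exact_mod_cast hh p hp
  rw [div_le_iff₀ hp0]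
  linarith

theorem grB_block (κ : ℕ) : ∃ L₀ : ℝ, 0 ≤ L₀ ∧ ∀ Bd : ℕ → ℕ → Prop,
    (∀ p : ℕ, p.Prime → rhB Bd p ≤ κ) → ∀ (z : ℕ) (y : ℝ), 1 ≤ y →
    ∑ p ∈ (Pool.Agent.Work.MP_2dba45_nt.VV.PP z).filter
      (fun p : ℕ => y ≤ (p : ℝ) ∧ (p : ℝ) < y ^ 2), grB Bd p ≤ L₀ := by
  obtain ⟨L, hL0, hL⟩ := Pool.Agent.Work.MP_73869e_nt.SK.block_one
  refine ⟨κ * L, by positivity, fun Bd hκ z y hy => ?_⟩
  have h := hL z y hy
  calc _ ≤ ∑ p ∈ (Pool.Agent.Work.MP_2dba45_nt.VV.PP z).filter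
        (fun p : ℕ => y ≤ (p : ℝ) ∧ (p : ℝ) < y ^ 2), κ * (1 / (p : ℝ)) := by
        refine Finset.sum_le_sum fun p hp => ?_
        rw [Finset.mem_filter, Pool.Agent.Work.MP_2dba45_nt.VV.mem_PP] at hp
        refine (grB_le κ Bd hκ p hp.1.2).trans (le_of_eq ?_)
        ring
    _ ≤ κ * L := by
        rw [← Finset.mul_sum]
        exact mul_le_mul_of_nonneg_left h (by positivity)

open Pool.Agent.Work.MP_2dba45_nt.Nu Pool.Agent.Work.MP_2dba45_nt.VV
  Pool.Agent.Work.MP_2dba45_nt.Psum in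
theorem sum_one_PP : ∃ C : ℝ, 0 ≤ C ∧ ∀ z : ℕ, 2 ≤ z →
    ∑ p ∈ PP z, 1 / (p : ℝ) ≤ Real.log (Real.log z) + C := by
  obtain ⟨C, hC0, hC⟩ := psum_one
  set L := Real.log (Real.log 2) with hL
  refine ⟨|1 + C - L|, abs_nonneg _, fun z hz => ?_⟩
  have hsub : PP z ⊆ insert 2 ((Ioc 2 z).filter Nat.Prime) := by
    intro p hp
    rw [mem_PP] at hp
    rw [Finset.mem_insert, Finset.mem_filter, Finset.mem_Ioc]
    have := hp.2.two_le
    rcases Nat.eq_or_lt_of_le this with h | h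
    · exact Or.inl h.symm
    · exact Or.inr ⟨⟨h, by omega⟩, hp.2⟩
  have h1 := (abs_le.1 (hC 2 z (le_refl _) hz)).2
  calc ∑ p ∈ PP z, 1 / (p : ℝ) ≤ ∑ p ∈ insert 2 ((Ioc 2 z).filter Nat.Prime),
        1 / (p : ℝ) :=
        Finset.sum_le_sum_of_subset_of_nonneg hsub (fun p _ _ => by positivity)
    _ = 1 / ((2 : ℕ) : ℝ) + ∑ p ∈ (Ioc 2 z).filter Nat.Prime, 1 / (p : ℝ) := by
        rw [Finset.sum_insert (by simp)]
    _ ≤ _ := by
        have h2 : 1 / ((2 : ℕ) : ℝ) ≤ 1 := by norm_num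
        push_cast at h1
        have h3 := le_abs_self (1 + C - L)
        linarith

open Pool.Agent.Work.MP_2dba45_nt.Nu Pool.Agent.Work.MP_2dba45_nt.VV
  Pool.Agent.Work.MP_2dba45_nt.Psum in
theorem V_geB (κ : ℕ) : ∃ c : ℝ, 0 < c ∧ ∀ (Bd : ℕ → ℕ → Prop) (z : ℕ),
    (∀ p : ℕ, p.Prime → rhB Bd p ≤ κ) → (∀ p : ℕ, p.Prime → 2 * rhB Bd p ≤ p) → 2 ≤ z →
    c / (Real.log z) ^ κ ≤ ∏ p ∈ Pool.Agent.Work.MP_2dba45_nt.VV.PP z, (1 - grB Bd p) := by
  obtain ⟨C, hC0, hC⟩ := sum_one_PP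
  refine ⟨Real.exp (-(κ * C + 4 * κ ^ 2)), Real.exp_pos _, fun Bd z hκ hh hz => ?_⟩
  have hl2 : 0 < Real.log 2 := Real.log_pos (by norm_num)
  have hlz : Real.log 2 ≤ Real.log z := Real.log_le_log (by norm_num) (by exact_mod_cast hz)
  have hlz0 : 0 < Real.log z := by linarith
  have hprod := prod_ge (PP z) (fun n hn => (mem_PP.1 hn).2.one_lt.le) (fun p => grB Bd p)
    (fun p _ => grB_nonneg Bd p) (fun p hp => grB_half Bd hh p (mem_PP.1 hp).2) κ (by positivity)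
    (fun p hp => grB_le κ Bd hκ p (mem_PP.1 hp).2)
  refine le_trans ?_ hprod
  have hsum : ∑ p ∈ PP z, grB Bd p ≤ κ * (Real.log (Real.log z) + C) := by
    calc ∑ p ∈ PP z, grB Bd p ≤ ∑ p ∈ PP z, κ * (1 / (p : ℝ)) := by
          refine Finset.sum_le_sum fun p hp => ?_
          refine (grB_le κ Bd hκ p (mem_PP.1 hp).2).trans (le_of_eq ?_)
          ring
      _ ≤ _ := by
          rw [← Finset.mul_sum]
          exact mul_le_mul_of_nonneg_left (hC z hz) (by positivity)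
  have e1 : Real.exp (-(κ * C + 4 * κ ^ 2)) / (Real.log z) ^ κ =
      Real.exp (-(κ * C + 4 * κ ^ 2) - κ * Real.log (Real.log z)) := by
    have h1 : (Real.log z) ^ κ = Real.exp (κ * Real.log (Real.log z)) := by
      rw [Real.exp_nat_mul, Real.exp_log hlz0]
    rw [h1, Real.exp_sub]
  rw [e1]
  apply Real.exp_le_exp.2
  nlinarith

/-- the remainder for a single modulus -/
theorem rem_one (W : ℕ → ℝ) (N G : ℕ) (f : ℕ → ℕ) (r c : ℕ) (E : ℝ) (M Q : ℝ) (hM : 1 ≤ M)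
    (hQ : 1 ≤ Q)
    (h : ∀ b : ℕ → ℝ, (∀ q, |b q| ≤ 1) →
      ∑ m ∈ (Icc 1 ⌊M⌋₊).filter (fun m => m.Coprime (G * r)),
        |∑ q ∈ (Icc 1 ⌊Q⌋₊).filter (fun q => Squarefree q ∧ q.Coprime (2 * m * (G * r))),
          b q * RemF W N f (m * q) r c| ≤ E) :
    |RemF W N f 1 r c| ≤ E := by
  classical
  have h1 := h (fun q => if q = 1 then 1 else 0) (fun q => by split_ifs <;> simp)
  refine le_trans ?_ h1
  have hM1 : 1 ≤ ⌊M⌋₊ := Nat.le_floor (by exact_mod_cast hM)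
  have hQ1 : 1 ≤ ⌊Q⌋₊ := Nat.le_floor (by exact_mod_cast hQ)
  have hmem : 1 ∈ (Icc 1 ⌊M⌋₊).filter (fun m => m.Coprime (G * r)) := by
    rw [mem_filter, mem_Icc]
    exact ⟨⟨le_rfl, hM1⟩, Nat.coprime_one_left _⟩
  refine le_trans (le_of_eq ?_) (single_le_sum (f := fun m =>
    |∑ q ∈ (Icc 1 ⌊Q⌋₊).filter (fun q => Squarefree q ∧ q.Coprime (2 * m * (G * r))),
          (if q = 1 then (1 : ℝ) else 0) * RemF W N f (m * q) r c|)
    (fun m _ => abs_nonneg _) hmem)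
  congr 1
  rw [sum_eq_single 1]
  · rw [if_pos rfl, one_mul, mul_one]
  · intro q _ hq
    rw [if_neg hq, zero_mul]
  · intro hq
    exfalso
    apply hq
    rw [mem_filter, mem_Icc]
    exact ⟨⟨le_rfl, hQ1⟩, squarefree_one, Nat.coprime_one_left _⟩

/-- the weighted sieve inequality for values -/
theorem wt_ineqV : ∃ N₀ : ℕ, ∀ N : ℕ, N₀ ≤ N → ∀ (k : ℕ) (δ : ℝ) (v : ℕ), 1 ≤ k → 0 < δ →
    δ ≤ 1 / 10 → 0 < v → (v : ℝ) ≤ 5 * (N : ℝ) ^ 2 →
    (∀ p : ℕ, p.Prime → p ∣ v → pw N δ ≤ p) →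
    WW (PQ (pw N δ) N) (cost (1200 * k) N) (pw N zExp) (pw N yExp) (1298 * k) (wt k) lamb
        (fun T => if T ⊆ (PQ (pw N δ) N).filter (fun p => p ∣ v) then 1 else 0) ≤
      (open Classical in if GoodV N v then 1 else 0) +
        (open Classical in if BadV N v then 1 else 0) := by
  classical
  have htend : Filter.Tendsto (fun N : ℕ => Real.log (N : ℝ)) Filter.atTop Filter.atTop :=
    Real.tendsto_log_atTop.comp tendsto_natCast_atTop_atTop
  obtain ⟨N₁, hN₁⟩ := Filter.eventually_atTop.1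
    (htend.eventually_ge_atTop (1200 * Real.log 5))
  refine ⟨max N₁ 2, fun N hN k δ v hk hδ hδ1 hv0 hv hR => ?_⟩
  have hN2 : 2 ≤ N := (le_max_right _ _).trans hN
  have hlog := hN₁ N ((le_max_left _ _).trans hN)
  set P := PQ (pw N δ) N with hP
  set B := P.filter (fun p => p ∣ v) with hB
  set z := pw N zExp with hz
  set y := pw N yExp with hy
  have hzN : z ≤ N := wt_pw_le N hN2 _ (by unfold zExp; norm_num)
  have hyN : y ≤ N := wt_pw_le N hN2 _ (by unfold yExp; norm_num)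
  have hPmem : ∀ p, p ∈ P ↔ (pw N δ ≤ p ∧ p < N) ∧ p.Prime := by
    intro p
    rw [hP]
    unfold PQ
    rw [Finset.mem_filter, Finset.mem_Ico]
  have hlam : (0 : ℝ) ≤ lamb := by unfold lamb; norm_num
  have h1 := wt_WW_le P (cost (1200 * k) N) z y (1298 * k) (wt k) lamb hlam B
    (fun p hp hpy => wt_weight_nonneg N k p hN2 hk ((hPmem p).1 hp).2.pos hpy)
  refine h1.trans ?_
  have hR1 : (0 : ℝ) ≤ (if GoodV N v then (1 : ℝ) else 0) := by
    split_ifs <;> norm_num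
  have hR2 : (0 : ℝ) ≤ (if BadV N v then (1 : ℝ) else 0) := by
    split_ifs <;> norm_num
  by_cases hI : ∀ p ∈ P, p < z → p ∉ B
  · rw [if_pos hI, one_mul]
    have hsumnn : 0 ≤ ∑ p ∈ P.filter (fun p => z ≤ p ∧ p < y),
        (if p ∈ B then wt k (cost (1200 * k) N p) else 0) := by
      refine Finset.sum_nonneg fun p hp => ?_
      rw [Finset.mem_filter] at hp
      split_ifs
      · exact wt_weight_nonneg N k p hN2 hk ((hPmem p).1 hp.1).2.pos hp.2.2
      · exact le_rfl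
    have hfac : ∀ p : ℕ, p.Prime → p ∣ v → z ≤ p := by
      intro p hp hdvd
      by_contra hlt
      push Not at hlt
      have hpR := hR p hp hdvd
      have hpP : p ∈ P := (hPmem p).2 ⟨⟨hpR, by omega⟩, hp⟩
      exact hI p hpP hlt (by rw [hB, Finset.mem_filter]; exact ⟨hpP, hdvd⟩)
    by_cases hc : ArithmeticFunction.cardFactors v ≤ 2
    · have hG : GoodV N v := ⟨hc, hfac⟩
      rw [if_pos hG]
      nlinarith [mul_nonneg hlam hsumnn]
    by_cases hbad : BadV N v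
    · rw [if_pos hbad]
      nlinarith [mul_nonneg hlam hsumnn]
    have hG : ¬ GoodV N v := fun h => hc h.1
    rw [if_neg hG, if_neg hbad]
    have hsq : Squarefree v := by
      rw [Nat.squarefree_iff_prime_squarefree]
      intro p hp hpp
      apply hbad
      exact ⟨⟨p, hp, by rw [sq]; exact hpp⟩, hfac⟩
    have hcard : 3 ≤ #v.primeFactors := by
      have h4 : ArithmeticFunction.cardDistinctFactors v
          = ArithmeticFunction.cardFactors v :=
        (ArithmeticFunction.cardDistinctFactors_eq_cardFactors_iff_squarefree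
          (by omega)).2 hsq
      have h5 : ArithmeticFunction.cardDistinctFactors v
          = #v.primeFactors := rfl
      omega
    have hcore := wt_core N hN2 hlog k v hk (by omega) hv hfac hsq hcard
    have hsumeq : ∑ p ∈ v.primeFactors.filter (fun p => p < pw N yExp),
        wt k (cost (1200 * k) N p)
        ≤ ∑ p ∈ P.filter (fun p => z ≤ p ∧ p < y),
          (if p ∈ B then wt k (cost (1200 * k) N p) else 0) := by
      rw [← Finset.sum_filter]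
      refine Finset.sum_le_sum_of_subset_of_nonneg ?_ ?_
      · intro p hp
        rw [Finset.mem_filter, Nat.mem_primeFactors] at hp
        obtain ⟨⟨hp1, hp2, _⟩, hp3⟩ := hp
        have hpR := hR p hp1 hp2
        have hpP : p ∈ P := (hPmem p).2 ⟨⟨hpR, lt_of_lt_of_le hp3 hyN⟩, hp1⟩
        rw [Finset.mem_filter, Finset.mem_filter]
        exact ⟨⟨hpP, hfac p hp1 hp2, hp3⟩, by rw [hB, Finset.mem_filter]; exact ⟨hpP, hp2⟩⟩
      · intro p hp _
        rw [Finset.mem_filter, Finset.mem_filter] at hp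
        exact wt_weight_nonneg N k p hN2 hk ((hPmem p).1 hp.1.1).2.pos hp.1.2.2
    have hfin : lamb * (1196 / 1199) = 1 := by unfold lamb; norm_num
    have h8 := mul_le_mul_of_nonneg_left (hcore.trans hsumeq) hlam
    linarith
  · rw [if_neg hI, zero_mul]
    linarith

end Pool.Agent.Work.MP_2dba45_nt.TG
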