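import Mathlib
import Pool.Agent.Work.MP_2dba45_nt.TG.G13
import Pool.Agent.Work.MP_2dba45_nt.Sv.BHc

set_option autoImplicit false

/-!
The Brun-Hooley sieve with arbitrary densities at the primes below a constant `w`.
-/

namespace Pool.Agent.Work.MP_2dba45_nt.TG

open Finset Pool.Agent.Work.MP_2dba45_nt.BilDef Pool.Agent.Work.MP_2dba45_nt.Sv
  Pool.Agent.Work.MP_73869e_nt.SK Pool.Agent.Work.MP_73869e_nt.TH

theorem sum_pow_split (B : Finset ℕ) (w : ℕ) (f : Finset ℕ → Finset ℕ → ℝ) :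
    ∑ d ∈ B.powerset, f (d.filter (fun p => p < w)) (d.filter (fun p => ¬ p < w)) =
      ∑ d₁ ∈ (B.filter (fun p => p < w)).powerset,
        ∑ d₂ ∈ (B.filter (fun p => ¬ p < w)).powerset, f d₁ d₂ := by
  rw [← sum_product']
  apply sum_nbij' (fun d => (d.filter (fun p => p < w), d.filter (fun p => ¬ p < w)))
    (fun x => x.1 ∪ x.2)
  · intro d hd
    rw [mem_powerset] at hd
    rw [mem_product, mem_powerset, mem_powerset]
    exact ⟨filter_subset_filter _ hd, filter_subset_filter _ hd⟩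
  · intro x hx
    rw [mem_product, mem_powerset, mem_powerset] at hx
    rw [mem_powerset]
    exact union_subset (hx.1.trans (filter_subset _ _)) (hx.2.trans (filter_subset _ _))
  · intro d _
    exact filter_union_filter_not_eq _ d
  · rintro ⟨x, y⟩ hx
    rw [mem_product, mem_powerset, mem_powerset] at hx
    simp only at hx
    have h1 : ∀ p ∈ x, p < w := fun p hp => (mem_filter.1 (hx.1 hp)).2
    have h2 : ∀ p ∈ y, ¬ p < w := fun p hp => (mem_filter.1 (hx.2 hp)).2
    refine Prod.ext ?_ ?_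
    · simp only
      ext p
      rw [mem_filter, mem_union]
      constructor
      · rintro ⟨h | h, h3⟩
        · exact h
        · exact absurd h3 (h2 p h)
      · intro h
        exact ⟨Or.inl h, h1 p h⟩
    · simp only
      ext p
      rw [mem_filter, mem_union]
      constructor
      · rintro ⟨h | h, h3⟩
        · exact absurd (h1 p h) h3
        · exact h
      · intro h
        exact ⟨Or.inr h, h2 p h⟩
  · intro d _
    rfl

theorem sum_sign (S : Finset ℕ) : ∑ d ∈ S.powerset, (-1 : ℝ) ^ #d = if S = ∅ then 1 else 0 := by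
  have h := Finset.sum_powerset_neg_one_pow_card (x := S)
  have h2 : ((∑ d ∈ S.powerset, (-1 : ℤ) ^ #d : ℤ) : ℝ) = ((if S = ∅ then 1 else 0 : ℤ) : ℝ) := by
    rw [h]
  push_cast at h2
  exact h2

theorem sum_sign_prod (S : Finset ℕ) (g : ℕ → ℝ) :
    ∑ d ∈ S.powerset, (-1 : ℝ) ^ #d * ∏ p ∈ d, g p = ∏ p ∈ S, (1 - g p) := by
  have h := Finset.prod_add (fun p => - g p) (fun _ => (1 : ℝ)) S
  have h1 : ∏ p ∈ S, (1 - g p) = ∏ p ∈ S, (-g p + 1) := prod_congr rfl fun p _ => by ring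
  rw [h1, h]
  refine sum_congr rfl fun d _ => ?_
  rw [prod_const_one, mul_one]
  have h2 : ∏ p ∈ d, -g p = ∏ p ∈ d, ((-1) * g p) := prod_congr rfl fun p _ => by ring
  rw [h2, prod_mul_distrib, prod_const]

theorem bh_small (w : ℕ) (L₀ : ℝ) (hL₀ : 0 ≤ L₀) : ∃ b₀ : ℕ, ∀ b : ℕ, b₀ ≤ b →
    ∀ (z : ℕ) (P : Finset ℕ) (g : ℕ → ℝ), 2 ≤ z → (∀ p ∈ P, 2 ≤ p ∧ p < z) →
      (∀ p ∈ P, 0 ≤ g p ∧ g p ≤ 1) → (∀ p ∈ P, w ≤ p → g p ≤ 1 / 2) →
      (∀ y : ℝ, 1 ≤ y → ∑ p ∈ P.filter (fun p : ℕ => y ≤ (p : ℝ) ∧ (p : ℝ) < y ^ 2), g p ≤ L₀) →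
      ∃ lp dp : Finset ℕ → ℝ, (∀ d, |lp d| ≤ 1) ∧ (∀ d, |dp d| ≤ z) ∧
        (∀ d, lp d ≠ 0 ∨ dp d ≠ 0 → d ⊆ P ∧
          ((∏ p ∈ d, p : ℕ) : ℝ) ≤ (w : ℝ) ^ w * (z : ℝ) ^ (4 * b + 10)) ∧
        (∀ B ⊆ P, (if B = ∅ then (1 : ℝ) else 0) ≤ ∑ d ∈ B.powerset, lp d ∧
          ∑ d ∈ B.powerset, lp d - (if B = ∅ then (1 : ℝ) else 0) ≤ ∑ d ∈ B.powerset, dp d) ∧
        ∏ p ∈ P, (1 - g p) ≤ ∑ d ∈ P.powerset, lp d * ∏ p ∈ d, g p ∧
        ∑ d ∈ P.powerset, dp d * ∏ p ∈ d, g p ≤ Real.exp (-b) * ∏ p ∈ P, (1 - g p) := by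
  obtain ⟨b₀, hb₀⟩ := brun_hooley L₀ hL₀
  refine ⟨b₀, fun b hb z P g hz hP hg hg2 hy => ?_⟩
  set Ps := P.filter (fun p => p < w) with hPs
  set Pl := P.filter (fun p => ¬ p < w) with hPl
  obtain ⟨lp, dp, hlp, hdp, hsupp, hsub, hmain, herr⟩ := hb₀ b hb z Pl g hz
    (fun p hp => hP p (mem_filter.1 hp).1)
    (fun p hp => ⟨(hg p (mem_filter.1 hp).1).1, hg2 p (mem_filter.1 hp).1
      (by have := (mem_filter.1 hp).2; omega)⟩)
    (fun y hy1 => by
      refine le_trans ?_ (hy y hy1)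
      apply sum_le_sum_of_subset_of_nonneg
      · exact filter_subset_filter _ (filter_subset _ _)
      · intro p hp _
        exact (hg p (mem_filter.1 hp).1).1)
  -- the coefficients
  set ext : (Finset ℕ → ℝ) → Finset ℕ → ℝ := fun μ d =>
    if d ⊆ P then (-1 : ℝ) ^ #(d.filter (fun p => p < w)) * μ (d.filter (fun p => ¬ p < w)) else 0
    with hext
  have hsum : ∀ (μ : Finset ℕ → ℝ), ∀ B ⊆ P, ∑ d ∈ B.powerset, ext μ d =
      (if B.filter (fun p => p < w) = ∅ then (1 : ℝ) else 0) *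
        ∑ d ∈ (B.filter (fun p => ¬ p < w)).powerset, μ d := by
    intro μ B hB
    have h1 : ∑ d ∈ B.powerset, ext μ d = ∑ d ∈ B.powerset,
        (fun d₁ d₂ => (-1 : ℝ) ^ #d₁ * μ d₂) (d.filter (fun p => p < w))
          (d.filter (fun p => ¬ p < w)) := by
      refine sum_congr rfl fun d hd => ?_
      rw [hext]
      simp only
      rw [if_pos ((mem_powerset.1 hd).trans hB)]
    rw [h1, sum_pow_split B w (fun d₁ d₂ => (-1 : ℝ) ^ #d₁ * μ d₂), ← sum_sign, sum_mul_sum]
  have hsumg : ∀ (μ : Finset ℕ → ℝ), ∑ d ∈ P.powerset, ext μ d * ∏ p ∈ d, g p =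
      (∏ p ∈ Ps, (1 - g p)) * ∑ d ∈ Pl.powerset, μ d * ∏ p ∈ d, g p := by
    intro μ
    have h1 : ∑ d ∈ P.powerset, ext μ d * ∏ p ∈ d, g p = ∑ d ∈ P.powerset,
        (fun d₁ d₂ => ((-1 : ℝ) ^ #d₁ * ∏ p ∈ d₁, g p) * (μ d₂ * ∏ p ∈ d₂, g p))
          (d.filter (fun p => p < w)) (d.filter (fun p => ¬ p < w)) := by
      refine sum_congr rfl fun d hd => ?_
      rw [hext]
      simp only
      rw [if_pos (mem_powerset.1 hd), ← prod_filter_mul_prod_filter_not d (fun p => p < w) g]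
      ring
    rw [h1, sum_pow_split P w (fun d₁ d₂ => ((-1 : ℝ) ^ #d₁ * ∏ p ∈ d₁, g p) * (μ d₂ * ∏ p ∈ d₂, g p)),
      ← sum_sign_prod, sum_mul_sum]
  have hprod : ∏ p ∈ P, (1 - g p) = (∏ p ∈ Ps, (1 - g p)) * ∏ p ∈ Pl, (1 - g p) :=
    (prod_filter_mul_prod_filter_not P (fun p => p < w) _).symm
  have hs0 : 0 ≤ ∏ p ∈ Ps, (1 - g p) :=
    prod_nonneg fun p hp => by linarith [(hg p (mem_filter.1 hp).1).2]
  have habs : ∀ (μ : Finset ℕ → ℝ) (d : Finset ℕ), |ext μ d| ≤ |μ (d.filter (fun p => ¬ p < w))| := by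
    intro μ d
    rw [hext]
    simp only
    split_ifs
    · rw [abs_mul, abs_pow, abs_neg, abs_one, one_pow, one_mul]
    · rw [abs_zero]
      exact abs_nonneg _
  refine ⟨ext lp, ext dp, fun d => (habs lp d).trans (hlp _), fun d => (habs dp d).trans (hdp _),
    ?_, ?_, ?_, ?_⟩
  · intro d hd
    have h1 : d ⊆ P ∧ (lp (d.filter (fun p => ¬ p < w)) ≠ 0 ∨
        dp (d.filter (fun p => ¬ p < w)) ≠ 0) := by
      rw [hext] at hd
      simp only at hd
      by_cases h : d ⊆ P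
      · rw [if_pos h, if_pos h] at hd
        refine ⟨h, ?_⟩
        rcases hd with hd | hd
        · exact Or.inl (right_ne_zero_of_mul hd)
        · exact Or.inr (right_ne_zero_of_mul hd)
      · rw [if_neg h, if_neg h] at hd
        simp at hd
    refine ⟨h1.1, ?_⟩
    rw [← prod_filter_mul_prod_filter_not d (fun p => p < w) (fun p => p)]
    push_cast
    have h2 := (hsupp _ h1.2).2
    push_cast at h2
    apply mul_le_mul _ h2 (by positivity) (by positivity)
    have h3 : #(d.filter (fun p => p < w)) ≤ w := by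
      have : d.filter (fun p => p < w) ⊆ range w := by
        intro p hp
        exact mem_range.2 (mem_filter.1 hp).2
      have h4 := card_le_card this
      rwa [card_range] at h4
    have h5 : ∏ p ∈ d.filter (fun p => p < w), p ≤ w ^ w := by
      rcases Nat.eq_zero_or_pos w with hw | hw
      · have : d.filter (fun p => p < w) = ∅ := by
          rw [filter_eq_empty_iff]
          intro p _
          omega
        rw [this, prod_empty]
        exact Nat.one_le_iff_ne_zero.2 (by rw [hw]; norm_num)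
      · calc ∏ p ∈ d.filter (fun p => p < w), p ≤ ∏ _p ∈ d.filter (fun p => p < w), w :=
              prod_le_prod' fun p hp => (mem_filter.1 hp).2.le
          _ = w ^ #(d.filter (fun p => p < w)) := prod_const _
          _ ≤ w ^ w := Nat.pow_le_pow_right hw h3
    have h6 : ((∏ p ∈ d.filter (fun p => p < w), p : ℕ) : ℝ) ≤ ((w ^ w : ℕ) : ℝ) := Nat.cast_le.2 h5
    push_cast at h6
    exact h6
  · intro B hB
    rw [hsum lp B hB, hsum dp B hB]
    have hBl : B.filter (fun p => ¬ p < w) ⊆ Pl := filter_subset_filter _ hB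
    obtain ⟨h1, h2⟩ := hsub _ hBl
    by_cases hs : B.filter (fun p => p < w) = ∅
    · rw [if_pos hs, one_mul, one_mul]
      have h3 : B = ∅ ↔ B.filter (fun p => ¬ p < w) = ∅ := by
        constructor
        · intro h
          rw [h, filter_empty]
        · intro h
          rw [← filter_union_filter_not_eq (fun p => p < w) B, hs, h, empty_union]
      by_cases hB0 : B = ∅
      · rw [if_pos hB0]
        rw [if_pos (h3.1 hB0)] at h1 h2
        exact ⟨h1, h2⟩
      · rw [if_neg hB0]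
        rw [if_neg (fun h => hB0 (h3.2 h))] at h1 h2
        exact ⟨h1, h2⟩
    · rw [if_neg hs, zero_mul, zero_mul]
      have hB0 : B ≠ ∅ := by
        rintro rfl
        exact hs (filter_empty _)
      rw [if_neg hB0]
      norm_num
  · rw [hsumg, hprod]
    exact mul_le_mul_of_nonneg_left hmain hs0
  · rw [hsumg, hprod]
    calc (∏ p ∈ Ps, (1 - g p)) * ∑ d ∈ Pl.powerset, dp d * ∏ p ∈ d, g p
        ≤ (∏ p ∈ Ps, (1 - g p)) * (Real.exp (-b) * ∏ p ∈ Pl, (1 - g p)) :=
          mul_le_mul_of_nonneg_left herr hs0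
      _ = _ := by ring

open Pool.Agent.Work.MP_2dba45_nt.VV Pool.Agent.Work.MP_2dba45_nt.Psum in
/-- lower bound for the density of the preliminary sieve -/
theorem V_geW (κ w : ℕ) : ∃ c : ℝ, 0 < c ∧ ∀ (Bd : ℕ → ℕ → Prop) (z : ℕ),
    (∀ p : ℕ, p.Prime → rhB Bd p ≤ κ) → (∀ p : ℕ, p.Prime → p < w → rhB Bd p < p) →
    (∀ p : ℕ, p.Prime → w ≤ p → 2 * rhB Bd p ≤ p) → 2 ≤ z →
    c / (Real.log z) ^ κ ≤ ∏ p ∈ Pool.Agent.Work.MP_2dba45_nt.VV.PP z, (1 - grB Bd p) := by
  obtain ⟨C, hC0, hC⟩ := sum_one_PP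
  refine ⟨(1 / (w : ℝ) ^ w) * Real.exp (-(κ * C + 4 * κ ^ 2)), ?_, fun Bd z hκ hsm hh hz => ?_⟩
  · have : (0 : ℝ) < (w : ℝ) ^ w := by
      rcases Nat.eq_zero_or_pos w with hw | hw
      · rw [hw]; norm_num
      · positivity
    positivity
  have hl2 : 0 < Real.log 2 := Real.log_pos (by norm_num)
  have hlz : Real.log 2 ≤ Real.log z := Real.log_le_log (by norm_num) (by exact_mod_cast hz)
  have hlz0 : 0 < Real.log z := by linarith
  rw [← prod_filter_mul_prod_filter_not (PP z) (fun p => p < w)]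
  have hsmall : 1 / (w : ℝ) ^ w ≤ ∏ p ∈ (PP z).filter (fun p => p < w), (1 - grB Bd p) := by
    rcases Nat.eq_zero_or_pos w with hw | hw
    · have : (PP z).filter (fun p => p < w) = ∅ := by
        rw [filter_eq_empty_iff]
        intro p _
        omega
      rw [this, prod_empty, hw]
      norm_num
    have hw1 : (1 : ℝ) ≤ w := by exact_mod_cast hw
    have h1 : ∏ _p ∈ (PP z).filter (fun p => p < w), (1 / (w : ℝ)) ≤
        ∏ p ∈ (PP z).filter (fun p => p < w), (1 - grB Bd p) := by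
      apply prod_le_prod
      · intro p _
        positivity
      · intro p hp
        rw [mem_filter, mem_PP] at hp
        have h2 := hsm p hp.1.2 hp.2
        have hp0 : (0 : ℝ) < p := by exact_mod_cast hp.1.2.pos
        have h3 : (rhB Bd p : ℝ) + 1 ≤ p := by exact_mod_cast h2
        unfold grB
        have h4 : (rhB Bd p : ℝ) / p ≤ 1 - 1 / p := by
          rw [div_le_iff₀ hp0]
          have : (1 - 1 / (p : ℝ)) * p = p - 1 := by field_simp
          rw [this]
          linarith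
        have h5 : 1 / (w : ℝ) ≤ 1 / p := by
          apply one_div_le_one_div_of_le hp0
          exact_mod_cast hp.2.le
        linarith
    refine le_trans ?_ h1
    rw [prod_const, one_div_pow]
    apply one_div_le_one_div_of_le (by positivity)
    apply pow_le_pow_right₀ hw1
    have : (PP z).filter (fun p => p < w) ⊆ range w := by
      intro p hp
      exact mem_range.2 (mem_filter.1 hp).2
    have h4 := card_le_card this
    rwa [card_range] at h4
  have hlarge : Real.exp (-(κ * C + 4 * κ ^ 2)) / (Real.log z) ^ κ ≤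
      ∏ p ∈ (PP z).filter (fun p => ¬ p < w), (1 - grB Bd p) := by
    have hprod := prod_ge ((PP z).filter (fun p => ¬ p < w))
      (fun n hn => (mem_PP.1 (mem_filter.1 hn).1).2.one_lt.le) (fun p => grB Bd p)
      (fun p _ => grB_nonneg Bd p)
      (fun p hp => by
        rw [mem_filter, mem_PP] at hp
        unfold grB
        have hp0 : (0 : ℝ) < p := by exact_mod_cast hp.1.2.pos
        have h1 : (2 : ℝ) * rhB Bd p ≤ p := by
          exact_mod_cast hh p hp.1.2 (by omega)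
        rw [div_le_iff₀ hp0]
        linarith) κ (by positivity)
      (fun p hp => grB_le κ Bd hκ p (mem_PP.1 (mem_filter.1 hp).1).2)
    refine le_trans ?_ hprod
    have hsum : ∑ p ∈ (PP z).filter (fun p => ¬ p < w), grB Bd p ≤
        κ * (Real.log (Real.log z) + C) := by
      calc ∑ p ∈ (PP z).filter (fun p => ¬ p < w), grB Bd p ≤ ∑ p ∈ PP z, grB Bd p :=
            sum_le_sum_of_subset_of_nonneg (filter_subset _ _) fun p _ _ => grB_nonneg Bd p
        _ ≤ ∑ p ∈ PP z, κ * (1 / (p : ℝ)) := by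
            refine Finset.sum_le_sum fun p hp => ?_
            refine (grB_le κ Bd hκ p (mem_PP.1 hp).2).trans (le_of_eq ?_)
            ring
        _ ≤ _ := by
            rw [← Finset.mul_sum]
            exact mul_le_mul_of_nonneg_left (hC z hz) (by positivity)
    have e1 : Real.exp (-(κ * C + 4 * κ ^ 2)) / (Real.log z) ^ κ =
        Real.exp (-(κ * C + 4 * κ ^ 2) - κ * Real.log (Real.log z)) := by
      have h1 : (Real.log z) ^ κ = Real.exp (κ * Real.log (Real.log z)) := by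
        rw [Real.exp_nat_mul, Real.exp_log hlz0]
      rw [h1, Real.exp_sub]
    rw [e1]
    apply Real.exp_le_exp.2
    nlinarith
  calc (1 / (w : ℝ) ^ w) * Real.exp (-(κ * C + 4 * κ ^ 2)) / (Real.log z) ^ κ
      = (1 / (w : ℝ) ^ w) * (Real.exp (-(κ * C + 4 * κ ^ 2)) / (Real.log z) ^ κ) := by ring
    _ ≤ _ := mul_le_mul hsmall hlarge (by positivity)
        (prod_nonneg fun p hp => by
          rw [mem_filter, mem_PP] at hp
          have h2 := hsm p hp.1.2 hp.2
          have hp0 : (0 : ℝ) < p := by exact_mod_cast hp.1.2.pos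
          have h3 : (rhB Bd p : ℝ) ≤ p := by exact_mod_cast h2.le
          unfold grB
          rw [sub_nonneg, div_le_one hp0]
          exact h3)

end Pool.Agent.Work.MP_2dba45_nt.TG
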