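import Mathlib
import Pool.Agent.Work.MP_2dba45_nt.TG.Def

set_option autoImplicit false

/-!
Number of residue classes.
-/

namespace Pool.Agent.Work.MP_2dba45_nt.TG

open Finset Pool.Agent.Work.MP_2dba45_nt.BilDef Pool.Agent.Work.MP_2dba45_nt.Sv
  Pool.Agent.Work.MP_73869e_nt.SK Pool.Agent.Work.MP_73869e_nt.TH

theorem per_dvd {K : ℕ} {z₀ : ℕ} {F : Fin K → ℕ → ℕ} {Bd : ℕ → ℕ → Prop} (hA : Adm z₀ F Bd)
    (i : Fin K) (p r n : ℕ) (h : p ∣ r) : p ∣ F i (n % r) ↔ p ∣ F i n :=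
  ((hA.per i n r).of_dvd h).dvd_iff dvd_rfl

theorem per_bd {K : ℕ} {z₀ : ℕ} {F : Fin K → ℕ → ℕ} {Bd : ℕ → ℕ → Prop} (hA : Adm z₀ F Bd)
    (p r n : ℕ) (h : p ∣ r) : Bd p (n % r) ↔ Bd p n := by
  rw [hA.bper p (n % r), Nat.mod_mod_of_dvd n h, ← hA.bper]

open Classical in
theorem cls {K : ℕ} (z₀ : ℕ) (F : Fin K → ℕ → ℕ) (Bd : ℕ → ℕ → Prop) (hA : Adm z₀ F Bd)
    (d : Finset ℕ)
    (hd : ∀ p ∈ d, p.Prime ∧ p < z₀) (C : Finset (ℕ × Fin K)) (hC : Lab C)
    (hCp : ∀ a ∈ C, a.1.Prime ∧ z₀ ≤ a.1) :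
    #((range ((∏ p ∈ d, p) * pr C)).filter (fun c => (∀ p ∈ d, Bd p c) ∧
      ∀ a ∈ C, a.1 ∣ F a.2 c)) = (∏ p ∈ d, rhB Bd p) * ∏ a ∈ C, Nu.nu 1 a.1 := by
  have hinj : Set.InjOn Prod.fst (C : Set (ℕ × Fin K)) := fun a ha b hb h => hC a ha b hb h
  have hdis : Disjoint d (C.image Prod.fst) := by
    rw [Finset.disjoint_left]
    intro p hp hp2
    obtain ⟨a, ha, rfl⟩ := mem_image.1 hp2
    have h1 := (hd _ hp).2
    have h2 := (hCp a ha).2
    omega
  have hnd : ∀ a ∈ C, a.1 ∉ d := by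
    intro a ha h
    have h1 := (hd _ h).2
    have h2 := (hCp a ha).2
    omega
  obtain ⟨bad, hbd, hbC⟩ : ∃ bad : ℕ → ℕ → Prop,
      (∀ p ∈ d, ∀ t, bad p t ↔ Bd p t) ∧
      (∀ a ∈ C, ∀ t, bad a.1 t ↔ a.1 ∣ F a.2 t) := by
    refine ⟨fun p t => if p ∈ d then Bd p t else
      ∀ a ∈ C, a.1 = p → p ∣ F a.2 t, ?_, ?_⟩
    · intro p hp t
      beta_reduce
      rw [if_pos hp]
    · intro a ha t
      beta_reduce
      rw [if_neg (hnd a ha)]
      constructor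
      · intro h
        exact h a ha rfl
      · intro h b hb hba
        rw [hC b hb a ha hba]
        exact h
  have hTp : ∀ p ∈ d ∪ C.image Prod.fst, p.Prime := by
    intro p hp
    rcases mem_union.1 hp with h | h
    · exact (hd p h).1
    · obtain ⟨a, ha, rfl⟩ := mem_image.1 h
      exact (hCp a ha).1
  have hper : ∀ p ∈ d ∪ C.image Prod.fst, ∀ t, bad p t ↔ bad p (t % p) := by
    intro p hp t
    rcases mem_union.1 hp with h | h
    · rw [hbd p h, hbd p h]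
      exact hA.bper p t
    · obtain ⟨a, ha, rfl⟩ := mem_image.1 h
      rw [hbC a ha, hbC a ha]
      exact (per_dvd hA a.2 a.1 a.1 t dvd_rfl).symm
  have key := Crt.card_crt bad (d ∪ C.image Prod.fst) hTp hper
  rw [prod_union hdis, prod_union hdis, prod_image hinj, prod_image hinj] at key
  have e1 : ∏ p ∈ d, Crt.rho bad p = ∏ p ∈ d, rhB Bd p := by
    refine prod_congr rfl fun p hp => ?_
    unfold Crt.rho rhB
    congr 1
    ext x
    rw [mem_filter, mem_filter, hbd p hp]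
  have e2 : ∏ a ∈ C, Crt.rho bad a.1 = ∏ a ∈ C, Nu.nu 1 a.1 := by
    refine prod_congr rfl fun a ha => ?_
    have hp := hCp a ha
    rw [← hA.loc a.2 a.1 hp.1 hp.2]
    unfold Crt.rho
    congr 1
    ext x
    rw [mem_filter, mem_filter, hbC a ha]
  rw [e1, e2] at key
  rw [← key]
  unfold pr
  congr 1
  ext c
  rw [mem_filter, mem_filter]
  refine and_congr_right fun _ => ?_
  constructor
  · rintro ⟨h1, h2⟩ p hp
    rcases mem_union.1 hp with h | h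
    · rw [hbd p h]; exact h1 p h
    · obtain ⟨a, ha, rfl⟩ := mem_image.1 h
      rw [hbC a ha]; exact h2 a ha
  · intro h
    refine ⟨fun p hp => (hbd p hp c).1 (h p (mem_union_left _ hp)), fun a ha => ?_⟩
    exact (hbC a ha c).1 (h a.1 (mem_union_right _ (mem_image_of_mem _ ha)))

end Pool.Agent.Work.MP_2dba45_nt.TG
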