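import Mathlib
import Pool.Agent.Work.MP_2dba45_nt.TG.G15

set_option autoImplicit false

/-!
Assembly 1: the sum of `W Λ f ^ 2 Ω`.
-/

namespace Pool.Agent.Work.MP_2dba45_nt.TG

open Finset Pool.Agent.Work.MP_2dba45_nt.BilDef Pool.Agent.Work.MP_2dba45_nt.Sv
  Pool.Agent.Work.MP_73869e_nt.SK Pool.Agent.Work.MP_73869e_nt.TH

theorem oo_Lab {K : ℕ} (P : Finset ℕ) (z₀ : ℕ) (F : Fin K → ℕ → ℕ) (Bd : ℕ → ℕ → Prop) (n : ℕ)
    (hA : Adm z₀ F Bd) (hP : ∀ p ∈ P, p.Prime ∧ z₀ ≤ p) : Lab (oF P F n) := by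
  rintro ⟨p, i⟩ ha ⟨p', i'⟩ hb hpp
  simp only at hpp
  subst hpp
  unfold oF at ha hb
  rw [mem_filter, mem_product] at ha hb
  simp only [mem_univ, and_true] at ha hb
  have hp := hP p ha.1
  have := hA.exc i i' n p hp.1 hp.2 ha.2 hb.2
  rw [this]

theorem sub_oo {K : ℕ} (P : Finset ℕ) (F : Fin K → ℕ → ℕ) (n : ℕ) (B : Finset (ℕ × Fin K))
    (hB : ∀ a ∈ B, a.1 ∈ P) : B ⊆ oF P F n ↔ ∀ a ∈ B, a.1 ∣ F a.2 n := by
  unfold oF
  constructor
  · intro h a ha
    exact (mem_filter.1 (h ha)).2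
  · intro h a ha
    rw [mem_filter, mem_product]
    exact ⟨⟨hB a ha, mem_univ _⟩, h a ha⟩

open Classical in
theorem expand {K : ℕ} (N z₀ : ℕ) (F : Fin K → ℕ → ℕ) (Bd : ℕ → ℕ → Prop) (j : Fin K) (W : ℕ → ℝ) (PT P : Finset ℕ)
    (φ : Finset ℕ → ℝ) (lp : Finset ℕ → ℝ) (Y : Finset (ℕ × Fin K) → ℝ)
    (Bl D E R Y₀ S S' u₀ U : ℝ)
    (hW : ∀ n, 0 ≤ W n)
    (hA : Adm z₀ F Bd)
    (hPT : ∀ p ∈ PT, p.Prime ∧ z₀ ≤ p) (hP : ∀ p ∈ P, p.Prime ∧ z₀ ≤ p)
    (hdis : ∀ B, la g1 P Y B ≠ 0 → ∀ a ∈ B, a.1 ∈ PT → a.2 ≠ j)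
    (hBl : 0 ≤ Bl) (hD : 1 ≤ D) (hE0 : 0 ≤ E) (hR : 0 ≤ R) (hu₀ : 0 ≤ u₀)
    (hlp : ∀ d, |lp d| ≤ Bl) (hsupp : ∀ d, lp d ≠ 0 → ((∏ p ∈ d, p : ℕ) : ℝ) ≤ D)
    (hE : ∀ (Q : Finset ℕ) (r c : ℕ), Squarefree r →
      (∀ p : ℕ, p.Prime → p ∣ r → p < z₀ ∨ p ∈ Q) → (r : ℝ) ≤ D * R ^ 2 →
      |∑ T ∈ (PT \ Q).powerset, φ T * RemF W N (F j) (∏ p ∈ T, p) r c| ≤ E)
    (hU : ∀ Q : Finset ℕ, |∑ T ∈ (PT \ Q).powerset, φ T * GG T - U| ≤ #Q * u₀)
    (hY : ∀ A, |Y A| ≤ Y₀) (hYR : ∀ A, Y A ≠ 0 → (pr A : ℝ) ≤ R)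
    (hS : ∑ p ∈ P, g1 p ≤ S) (hS' : ∑ p ∈ P, 1 / (p : ℝ) ≤ S') :
    |∑ n ∈ Ioc N (2 * N), W n *
        ((∑ d ∈ (Pool.Agent.Work.MP_2dba45_nt.VV.PP z₀).powerset, lp d *
            (if ∀ p ∈ d, Bd p n then (1 : ℝ) else 0)) *
          (ff g1 P Y (oF P F n)) ^ 2 *
          (∑ T ∈ PT.powerset, φ T * (if ∀ p ∈ T, p ∣ F j n then (1 : ℝ) else 0))) -
      (∑ d ∈ (Pool.Agent.Work.MP_2dba45_nt.VV.PP z₀).powerset, lp d * ∏ p ∈ d, grB Bd p) *
        (∑ n ∈ Ioc N (2 * N), W n) * U * Ex g1 P (fun ω => (ff g1 P Y ω) ^ 2)| ≤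
      |∑ d ∈ (Pool.Agent.Work.MP_2dba45_nt.VV.PP z₀).powerset, lp d * ∏ p ∈ d, grB Bd p| *
        (∑ n ∈ Ioc N (2 * N), W n) * u₀ * ((Y₀ * Real.exp (K * S)) ^ 2 * Real.exp (6 * K * S)) +
      Bl * D * D * E * (Y₀ * Real.exp (K * S) * (R ^ 2 * Real.exp (K * S'))) ^ 2 := by
  set PZ := (Pool.Agent.Work.MP_2dba45_nt.VV.PP z₀).powerset with hPZ
  set X := ∑ n ∈ Ioc N (2 * N), W n with hX
  have hX0 : 0 ≤ X := sum_nonneg fun n _ => hW n
  set Λ : ℕ → ℝ := fun n => ∑ d ∈ PZ, lp d *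
            (if ∀ p ∈ d, Bd p n then (1 : ℝ) else 0) with hΛ
  set Ω : ℕ → ℝ := fun n => ∑ T ∈ PT.powerset, φ T *
            (if ∀ p ∈ T, p ∣ F j n then (1 : ℝ) else 0) with hΩ
  set S₀ := ∑ d ∈ PZ, lp d * ∏ p ∈ d, grB Bd p with hS₀
  set lam := la g1 P Y with hlam
  have hP1 : ∀ p ∈ P, 1 ≤ p := fun p hp => (hP p hp).1.one_le
  have hg1 : ∀ p ∈ P, 0 ≤ g1 p := fun p _ => by unfold g1; positivity
  have hmemP : ∀ B ∈ LS K P, ∀ a ∈ B, a.1 ∈ P := fun B hB => (mem_LS.1 hB).1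
  -- counting function
  set Cnt : Finset (ℕ × Fin K) → ℝ := fun C => ∑ n ∈ Ioc N (2 * N), W n * (Λ n *
    (if ∀ a ∈ C, a.1 ∣ F a.2 n then (1 : ℝ) else 0) * Ω n) with hCnt
  have e1 : ∑ n ∈ Ioc N (2 * N), W n * (Λ n * (ff g1 P Y (oF P F n)) ^ 2 * Ω n) =
      ∑ B ∈ LS K P, ∑ B' ∈ LS K P, lam B * lam B' * (if Lab (B ∪ B') then Cnt (B ∪ B') else 0) := by
    have e2 : ∀ n ∈ Ioc N (2 * N), W n * (Λ n * (ff g1 P Y (oF P F n)) ^ 2 * Ω n) =
        ∑ B ∈ LS K P, ∑ B' ∈ LS K P, lam B * lam B' * (if Lab (B ∪ B') then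
          W n * (Λ n * (if ∀ a ∈ B ∪ B', a.1 ∣ F a.2 n then (1 : ℝ) else 0) * Ω n)
            else 0) := by
      intro n _
      have h1 : (ff g1 P Y (oF P F n)) ^ 2 = ∑ B ∈ LS K P, ∑ B' ∈ LS K P, lam B * lam B' *
          (if Lab (B ∪ B') then
            (if ∀ a ∈ B ∪ B', a.1 ∣ F a.2 n then (1 : ℝ) else 0) else 0) := by
        rw [ff_exp, sq, sum_mul_sum]
        refine sum_congr rfl fun B hB => sum_congr rfl fun B' hB' => ?_
        have h2 := hmemP B hB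
        have h3 := hmemP B' hB'
        have h4 : ∀ a ∈ B ∪ B', a.1 ∈ P := by
          intro a ha
          rcases mem_union.1 ha with h | h
          · exact h2 a h
          · exact h3 a h
        have h5 := sub_oo P F n (B ∪ B') h4
        by_cases hsub : B ∪ B' ⊆ oF P F n
        · have h6 : B ⊆ oF P F n := subset_union_left.trans hsub
          have h7 : B' ⊆ oF P F n := subset_union_right.trans hsub
          have h8 : Lab (B ∪ B') := by
            intro a ha b hb hab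
            exact oo_Lab P z₀ F Bd n hA hP a (hsub ha) b (hsub hb) hab
          rw [if_pos h6, if_pos h7, if_pos h8, if_pos (h5.1 hsub)]
          ring
        · have h6 : ¬ (∀ a ∈ B ∪ B', a.1 ∣ F a.2 n) := fun h => hsub (h5.2 h)
          rw [if_neg h6]
          have h7 : ¬ (B ⊆ oF P F n ∧ B' ⊆ oF P F n) := fun h => hsub (union_subset h.1 h.2)
          by_cases h8 : B ⊆ oF P F n
          · have h9 : ¬ B' ⊆ oF P F n := fun h => h7 ⟨h8, h⟩
            rw [if_neg h9]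
            split_ifs <;> ring
          · rw [if_neg h8]
            split_ifs <;> ring
      rw [h1]
      have h2 : W n * (Λ n * (∑ B ∈ LS K P, ∑ B' ∈ LS K P, lam B * lam B' *
          (if Lab (B ∪ B') then
            (if ∀ a ∈ B ∪ B', a.1 ∣ F a.2 n then (1 : ℝ) else 0) else 0)) * Ω n) =
          (W n * Λ n * Ω n) * ∑ B ∈ LS K P, ∑ B' ∈ LS K P, lam B * lam B' *
          (if Lab (B ∪ B') then
            (if ∀ a ∈ B ∪ B', a.1 ∣ F a.2 n then (1 : ℝ) else 0) else 0) := by ring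
      rw [h2, mul_sum]
      refine sum_congr rfl fun B _ => ?_
      rw [mul_sum]
      refine sum_congr rfl fun B' _ => ?_
      split_ifs <;> ring
    rw [sum_congr rfl e2, sum_comm]
    refine sum_congr rfl fun B _ => ?_
    rw [sum_comm]
    refine sum_congr rfl fun B' _ => ?_
    rw [← mul_sum]
    congr 1
    by_cases h : Lab (B ∪ B')
    · simp only [if_pos h, hCnt]
    · simp only [if_neg h, sum_const_zero]
  have e3 : Ex g1 P (fun ω => (ff g1 P Y ω) ^ 2) = ∑ B ∈ LS K P, ∑ B' ∈ LS K P,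
      lam B * lam B' * (if Lab (B ∪ B') then ga g1 (B ∪ B') else 0) := Ex_sq g1 P Y
  rw [e1, e3]
  -- difference of the two expressions
  have e4 : ∑ B ∈ LS K P, ∑ B' ∈ LS K P, lam B * lam B' *
        (if Lab (B ∪ B') then Cnt (B ∪ B') else 0) -
      S₀ * X * U * ∑ B ∈ LS K P, ∑ B' ∈ LS K P,
        lam B * lam B' * (if Lab (B ∪ B') then ga g1 (B ∪ B') else 0) =
      ∑ B ∈ LS K P, ∑ B' ∈ LS K P, lam B * lam B' *
        (if Lab (B ∪ B') then (Cnt (B ∪ B') - S₀ * X * U * ga g1 (B ∪ B')) else 0) := by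
    rw [mul_sum, ← sum_sub_distrib]
    refine sum_congr rfl fun B _ => ?_
    rw [mul_sum, ← sum_sub_distrib]
    refine sum_congr rfl fun B' _ => ?_
    split_ifs <;> ring
  rw [e4]
  have hterm : ∀ B ∈ LS K P, ∀ B' ∈ LS K P, |lam B * lam B' *
        (if Lab (B ∪ B') then (Cnt (B ∪ B') - S₀ * X * U * ga g1 (B ∪ B')) else 0)| ≤
      (|S₀| * X * u₀) * (|lam B| * |lam B'| * (if Lab (B ∪ B') then ga g1 (B ∪ B') *
        #(B ∪ B') else 0)) + (Bl * D * D * E) * ((|lam B| * pr B) * (|lam B'| * pr B')) := by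
    intro B hB B' hB'
    have hnn1 : 0 ≤ |lam B| * |lam B'| := by positivity
    have hnn2 : 0 ≤ (Bl * D * D * E) * ((|lam B| * pr B) * (|lam B'| * pr B')) := by
      have : 0 ≤ D := by linarith
      positivity
    by_cases hL : Lab (B ∪ B')
    · rw [if_pos hL, if_pos hL, abs_mul, abs_mul]
      by_cases h0 : lam B = 0 ∨ lam B' = 0
      · rcases h0 with h | h
        · rw [h, abs_zero]; simp
        · rw [h, abs_zero]; simp
      push Not at h0
      have hC : ∀ a ∈ B ∪ B', a.1 ∈ P := by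
        intro a ha
        rcases mem_union.1 ha with h | h
        · exact hmemP B hB a h
        · exact hmemP B' hB' a h
      have hRB := la_supp g1 P hP1 R Y hYR B h0.1
      have hRB' := la_supp g1 P hP1 R Y hYR B' h0.2
      have hprle : (pr (B ∪ B') : ℝ) ≤ pr B * pr B' := by
        have h1 : pr (B ∪ B') ∣ pr B * pr B' := by
          unfold pr
          rw [← prod_union_inter]
          exact dvd_mul_right _ _
        have h2 : 0 < pr B * pr B' := by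
          unfold pr
          exact Nat.mul_pos (prod_pos fun a ha => hP1 _ (hmemP B hB a ha))
            (prod_pos fun a ha => hP1 _ (hmemP B' hB' a ha))
        exact_mod_cast Nat.le_of_dvd h2 h1
      have hprR : (pr (B ∪ B') : ℝ) ≤ R ^ 2 := by
        refine hprle.trans ?_
        rw [sq]
        exact mul_le_mul hRB hRB' (Nat.cast_nonneg _) hR
      have hcnt := cnt N z₀ F Bd j W PT φ lp (B ∪ B') Bl D E hA hPT hL
        (fun a ha => hP _ (hC a ha))
        (fun a ha hPa => by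
          rcases mem_union.1 ha with h | h
          · exact hdis B h0.1 a h hPa
          · exact hdis B' h0.2 a h hPa) hBl hD hE0 hlp hsupp
        (fun r c hr hpr hrD => hE _ r c hr hpr (hrD.trans
          (mul_le_mul_of_nonneg_left hprR (by linarith))))
      have hga0 : 0 ≤ ga g1 (B ∪ B') := by
        unfold ga
        exact prod_nonneg fun a ha => hg1 _ (hC a ha)
      set V₁ := ∑ T ∈ (PT \ (B ∪ B').image Prod.fst).powerset, φ T * GG T with hV₁
      have hUC : |V₁ - U| ≤ #(B ∪ B') * u₀ := by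
        refine (hU _).trans ?_
        apply mul_le_mul_of_nonneg_right _ hu₀
        exact_mod_cast card_image_le
      have hmain : |Cnt (B ∪ B') - S₀ * X * U * ga g1 (B ∪ B')| ≤
          (|S₀| * X * u₀) * (ga g1 (B ∪ B') * #(B ∪ B')) +
            Bl * D * D * E * (pr B * pr B') := by
        have h1 : Cnt (B ∪ B') - S₀ * X * U * ga g1 (B ∪ B') =
            (Cnt (B ∪ B') - S₀ * ga g1 (B ∪ B') * V₁ * X) +
              S₀ * X * ga g1 (B ∪ B') * (V₁ - U) := by ring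
        rw [h1]
        refine (abs_add_le _ _).trans ?_
        rw [add_comm]
        apply add_le_add
        · rw [abs_mul, abs_mul, abs_mul, abs_of_nonneg hX0, abs_of_nonneg hga0]
          calc |S₀| * X * ga g1 (B ∪ B') * |V₁ - U|
              ≤ |S₀| * X * ga g1 (B ∪ B') * (#(B ∪ B') * u₀) := by
                apply mul_le_mul_of_nonneg_left hUC
                positivity
            _ = _ := by ring
        · refine hcnt.trans ?_
          calc Bl * D * (D * pr (B ∪ B')) * E = Bl * D * D * E * pr (B ∪ B') := by ring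
            _ ≤ Bl * D * D * E * (pr B * pr B') := by
              apply mul_le_mul_of_nonneg_left hprle
              have : 0 ≤ D := by linarith
              positivity
      calc |lam B| * |lam B'| * |Cnt (B ∪ B') - S₀ * X * U * ga g1 (B ∪ B')|
          ≤ |lam B| * |lam B'| * ((|S₀| * X * u₀) * (ga g1 (B ∪ B') * #(B ∪ B')) +
            Bl * D * D * E * (pr B * pr B')) := mul_le_mul_of_nonneg_left hmain hnn1
        _ = _ := by ring
    · rw [if_neg hL, if_neg hL, mul_zero, abs_zero, mul_zero, mul_zero, zero_add]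
      exact hnn2
  refine (abs_sum_le_sum_abs _ _).trans ?_
  refine (sum_le_sum fun B hB => (abs_sum_le_sum_abs _ _).trans
    (sum_le_sum fun B' hB' => hterm B hB B' hB')).trans ?_
  simp only [sum_add_distrib, ← mul_sum]
  apply add_le_add
  · apply mul_le_mul_of_nonneg_left (la_pair g1 P hg1 S hS Y Y₀ hY)
    positivity
  · have h1 := la_sum g1 P hP1 hg1 S S' R hS hS' Y Y₀ hY hYR
    have h2 : 0 ≤ ∑ B ∈ LS K P, |la g1 P Y B| * pr B := sum_nonneg fun B _ => by positivity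
    have h3 : ∑ B ∈ LS K P, |lam B| * pr B * ∑ B' ∈ LS K P, |lam B'| * pr B' =
        (∑ B ∈ LS K P, |la g1 P Y B| * pr B) ^ 2 := by
      rw [sq, sum_mul]
    rw [h3]
    apply mul_le_mul_of_nonneg_left (pow_le_pow_left₀ h2 h1 2)
    have : 0 ≤ D := by linarith
    positivity

end Pool.Agent.Work.MP_2dba45_nt.TG
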