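import Mathlib
import Pool.Agent.Work.MP_2dba45_nt.TG.GA1

set_option autoImplicit false

/-!
Assembly 2: pointwise inequalities.
-/

namespace Pool.Agent.Work.MP_2dba45_nt.TG

open Finset Pool.Agent.Work.MP_2dba45_nt.BilDef Pool.Agent.Work.MP_2dba45_nt.Sv
  Pool.Agent.Work.MP_73869e_nt.SK Pool.Agent.Work.MP_73869e_nt.TH

theorem card_oo {K : ℕ} (N : ℕ) (δ : ℝ) (hδ : 0 < δ) (hN : 5 ≤ N) (P : Finset ℕ)
    (F : Fin K → ℕ → ℕ) (n : ℕ) (hF : ∀ i, 0 < F i n ∧ (F i n : ℝ) ≤ 5 * (N : ℝ) ^ 2)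
    (hP : ∀ p ∈ P, p.Prime ∧ (N : ℝ) ^ δ ≤ p) : (#(oF P F n) : ℝ) ≤ K * (3 / δ) := by
  have hN0 : (0 : ℝ) < N := by positivity
  have hN1 : (1 : ℝ) < N := by exact_mod_cast (by omega : 1 < N)
  have hN5 : (5 : ℝ) ≤ N := by exact_mod_cast hN
  set T : Fin K → Finset ℕ := fun i => P.filter (fun p => p ∣ F i n) with hT
  have hsub : oF P F n ⊆ (univ : Finset (Fin K)).biUnion (fun i => (T i).image (fun p => (p, i))) := by
    rintro ⟨p, i⟩ ha
    unfold oF at ha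
    rw [mem_filter, mem_product] at ha
    rw [mem_biUnion]
    refine ⟨i, mem_univ _, ?_⟩
    rw [mem_image]
    exact ⟨p, mem_filter.2 ⟨ha.1.1, ha.2⟩, rfl⟩
  have hTi : ∀ i, (#(T i) : ℝ) ≤ 3 / δ := by
    intro i
    have h1 : ∏ p ∈ T i, p ∣ F i n := by
      apply Finset.prod_primes_dvd
      · intro p hp
        exact (hP p (mem_filter.1 hp).1).1.prime
      · intro p hp
        exact (mem_filter.1 hp).2
    have h2 := Nat.le_of_dvd (hF i).1 h1
    have h3 : ((∏ p ∈ T i, p : ℕ) : ℝ) ≤ (N : ℝ) ^ 3 := by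
      have h4 : ((∏ p ∈ T i, p : ℕ) : ℝ) ≤ ((F i n : ℕ) : ℝ) := by exact_mod_cast h2
      refine h4.trans ((hF i).2.trans ?_)
      nlinarith [sq_nonneg (N : ℝ)]
    have h9 : ((N : ℝ) ^ δ) ^ #(T i) ≤ ((∏ p ∈ T i, p : ℕ) : ℝ) := by
      rw [← prod_const]
      push_cast
      apply prod_le_prod
      · intro p _
        positivity
      · intro p hp
        exact (hP p (mem_filter.1 hp).1).2
    have h10 : (N : ℝ) ^ (δ * #(T i)) ≤ (N : ℝ) ^ (3 : ℝ) := by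
      rw [Real.rpow_mul hN0.le, Real.rpow_natCast]
      refine (h9.trans h3).trans (le_of_eq ?_)
      rw [← Real.rpow_natCast]
      norm_num
    have h11 := (Real.rpow_le_rpow_left_iff hN1).1 h10
    rw [le_div_iff₀ hδ]
    linarith
  calc (#(oF P F n) : ℝ)
      ≤ ∑ i : Fin K, (#(T i) : ℝ) := by
        have h1 := card_le_card hsub
        have h2 := h1.trans card_biUnion_le
        have h3 : ∑ i : Fin K, #((T i).image (fun p => (p, i))) ≤ ∑ i : Fin K, #(T i) :=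
          sum_le_sum fun i _ => card_image_le
        exact_mod_cast h2.trans h3
    _ ≤ ∑ _i : Fin K, 3 / δ := sum_le_sum fun i _ => hTi i
    _ = K * (3 / δ) := by
        rw [sum_const, card_univ, Fintype.card_fin, nsmul_eq_mul]

open Classical in
/-- sums over subsets of the set of bad primes -/
theorem bad_sum (z₀ : ℕ) (Bd : ℕ → ℕ → Prop) (n : ℕ) (μ : Finset ℕ → ℝ) :
    ∑ d ∈ ((Pool.Agent.Work.MP_2dba45_nt.VV.PP z₀).filter
      (fun p => Bd p n)).powerset, μ d =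
    ∑ d ∈ (Pool.Agent.Work.MP_2dba45_nt.VV.PP z₀).powerset, μ d *
        (if ∀ p ∈ d, Bd p n then (1 : ℝ) else 0) := by
  simp_rw [mul_ite, mul_one, mul_zero]
  rw [← Finset.sum_filter]
  refine Finset.sum_congr ?_ fun _ _ => rfl
  ext d
  simp only [Finset.mem_powerset, Finset.mem_filter, Finset.subset_iff]
  constructor
  · intro h
    exact ⟨fun p hp => (h hp).1, fun p hp => (h hp).2⟩
  · intro h p hp
    exact ⟨h.1 hp, h.2 p hp⟩

open Classical in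
theorem Ro_iff (z₀ : ℕ) (Bd : ℕ → ℕ → Prop) (n : ℕ) :
    (Pool.Agent.Work.MP_2dba45_nt.VV.PP z₀).filter (fun p => Bd p n) = ∅ ↔ RoB Bd z₀ n := by
  rw [filter_eq_empty_iff]
  unfold RoB
  constructor
  · intro h p hp hz hd
    exact h (Pool.Agent.Work.MP_2dba45_nt.VV.mem_PP.2 ⟨hz, hp⟩) hd
  · intro h p hp hd
    rw [Pool.Agent.Work.MP_2dba45_nt.VV.mem_PP] at hp
    exact h p hp.2 hp.1 hd

open Classical in
/-- the pointwise inequality for the form `j` -/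
theorem ptw {K : ℕ} (N k z₀ R' : ℕ) (δ : ℝ) (F : Fin K → ℕ → ℕ) (Bd : ℕ → ℕ → Prop) (j : Fin K) (n : ℕ)
    (hA : Adm z₀ F Bd) (lp dp : Finset ℕ → ℝ) (Y : Finset (ℕ × Fin K) → ℝ) (B : ℝ)
    (hz₀ : z₀ = pw N δ) (hR' : R' ≤ pw N zExp) (hk : 1 ≤ k) (hN : 2 ≤ N)
    (hsub : ∀ B ⊆ Pool.Agent.Work.MP_2dba45_nt.VV.PP z₀,
      (if B = ∅ then (1 : ℝ) else 0) ≤ ∑ d ∈ B.powerset, lp d ∧
      ∑ d ∈ B.powerset, lp d - (if B = ∅ then (1 : ℝ) else 0) ≤ ∑ d ∈ B.powerset, dp d)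
    (hwt : (∀ p : ℕ, p.Prime → p ∣ F j n → pw N δ ≤ p) →
      WW (PQ (pw N δ) N) (cost (1200 * k) N) (pw N zExp) (pw N yExp) (1298 * k) (wt k) lamb
        (fun T => if T ⊆ (PQ (pw N δ) N).filter (fun p => p ∣ F j n) then 1 else 0) ≤
      (if GoodV N (F j n) then 1 else 0) + (if BadV N (F j n) then 1 else 0))
    (hB : |ff g1 (PQ z₀ R') (Zj g1 (PQ z₀ R') j Y) (oF (PQ z₀ R') F n)| ≤ B) :
    (∑ d ∈ (Pool.Agent.Work.MP_2dba45_nt.VV.PP z₀).powerset, lp d *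
            (if ∀ p ∈ d, Bd p n then (1 : ℝ) else 0)) *
        (ff g1 (PQ z₀ R') (Zj g1 (PQ z₀ R') j Y) (oF (PQ z₀ R') F n)) ^ 2 *
          (∑ T ∈ (PQ z₀ N).powerset, ph k N T *
            (if ∀ p ∈ T, p ∣ F j n then (1 : ℝ) else 0)) -
      (∑ d ∈ (Pool.Agent.Work.MP_2dba45_nt.VV.PP z₀).powerset, dp d *
            (if ∀ p ∈ d, Bd p n then (1 : ℝ) else 0)) *
        (ff g1 (PQ z₀ R') (Zj g1 (PQ z₀ R') j Y) (oF (PQ z₀ R') F n)) ^ 2 *
          (∑ T ∈ (PQ z₀ N).powerset, |ph k N T| *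
            (if ∀ p ∈ T, p ∣ F j n then (1 : ℝ) else 0)) ≤
      (if RoB Bd z₀ n ∧ GoodV N (F j n) then (ff g1 (PQ z₀ R') Y (oF (PQ z₀ R') F n)) ^ 2 else 0) +
        B ^ 2 * (if BadV N (F j n) then 1 else 0) := by
  rw [← bad_sum z₀ Bd n lp, ← bad_sum z₀ Bd n dp]
  set B2 := (Pool.Agent.Work.MP_2dba45_nt.VV.PP z₀).filter
    (fun p => Bd p n) with hB2
  obtain ⟨h1, h2⟩ := hsub B2 (filter_subset _ _)
  set Λ := ∑ d ∈ B2.powerset, lp d
  set Δ := ∑ d ∈ B2.powerset, dp d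
  set P := PQ z₀ R' with hP
  set fj := ff g1 P (Zj g1 P j Y) (oF P F n) with hfj
  set f := ff g1 P Y (oF P F n) with hf
  set Ωa := ∑ T ∈ (PQ z₀ N).powerset, |ph k N T| *
    (if ∀ p ∈ T, p ∣ F j n then (1 : ℝ) else 0) with hΩa
  set Ω := ∑ T ∈ (PQ z₀ N).powerset, ph k N T *
    (if ∀ p ∈ T, p ∣ F j n then (1 : ℝ) else 0) with hΩ
  have h3 : |Ω| ≤ Ωa := by
    refine (Finset.abs_sum_le_sum_abs _ _).trans (le_of_eq ?_)
    refine Finset.sum_congr rfl fun T _ => ?_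
    rw [abs_mul]
    congr 1
    split_ifs <;> simp
  have h4 : 0 ≤ Ωa := (abs_nonneg _).trans h3
  have h5 : Λ * Ω - Δ * Ωa ≤ (if B2 = ∅ then (1 : ℝ) else 0) * Ω := by
    have h6 : (Λ - (if B2 = ∅ then (1 : ℝ) else 0)) * Ω ≤
        (Λ - (if B2 = ∅ then (1 : ℝ) else 0)) * Ωa :=
      mul_le_mul_of_nonneg_left ((le_abs_self _).trans h3) (by linarith)
    have h7 : (Λ - (if B2 = ∅ then (1 : ℝ) else 0)) * Ωa ≤ Δ * Ωa :=
      mul_le_mul_of_nonneg_right h2 h4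
    nlinarith
  have hfj2 : 0 ≤ fj ^ 2 := sq_nonneg _
  have h8 : Λ * fj ^ 2 * Ω - Δ * fj ^ 2 * Ωa ≤ fj ^ 2 * ((if B2 = ∅ then (1 : ℝ) else 0) * Ω) := by
    have := mul_le_mul_of_nonneg_left h5 hfj2
    linarith
  refine h8.trans ?_
  have hRnn : 0 ≤ (if RoB Bd z₀ n ∧ GoodV N (F j n) then f ^ 2 else 0) := by
    split_ifs
    · positivity
    · exact le_rfl
  have hBnn : 0 ≤ B ^ 2 * (if BadV N (F j n) then (1 : ℝ) else 0) := by
    split_ifs <;> positivity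
  by_cases hemp : B2 = ∅
  · rw [if_pos hemp, one_mul]
    have hRo : RoB Bd z₀ n := (Ro_iff z₀ Bd n).1 hemp
    have hrough : ∀ p : ℕ, p.Prime → p ∣ F j n → pw N δ ≤ p := by
      rw [← hz₀]
      intro p hp hd
      by_contra hcon
      push Not at hcon
      exact hRo p hp hcon (hA.bF p n j hp hd)
    have hw := hwt hrough
    rw [← hz₀] at hw
    have e1 : WW (PQ z₀ N) (cost (1200 * k) N) (pw N zExp) (pw N yExp) (1298 * k) (wt k) lamb
        (fun T => if T ⊆ (PQ z₀ N).filter (fun p => p ∣ F j n) then 1 else 0) = Ω := by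
      rw [WW_ph k N z₀ hk hN, hΩ]
      refine sum_congr rfl fun T hT => ?_
      congr 1
      have hTP := mem_powerset.1 hT
      congr 1
      rw [eq_iff_iff]
      constructor
      · intro h p hp
        exact (mem_filter.1 (h hp)).2
      · intro h p hp
        exact mem_filter.2 ⟨hTP hp, h p hp⟩
    rw [e1] at hw
    have h9 : fj ^ 2 * Ω ≤ fj ^ 2 * ((if GoodV N (F j n) then (1 : ℝ) else 0) +
        (if BadV N (F j n) then 1 else 0)) := mul_le_mul_of_nonneg_left hw hfj2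
    refine h9.trans ?_
    rw [mul_add]
    apply add_le_add
    · by_cases hG : GoodV N (F j n)
      · rw [if_pos hG, mul_one, if_pos ⟨hRo, hG⟩]
        have hno : ∀ a ∈ oF P F n, a.2 ≠ j := by
          rintro ⟨p, i⟩ ha hij
          simp only at hij
          subst hij
          unfold oF at ha
          rw [mem_filter, mem_product, hP, PQ, mem_filter, mem_Ico] at ha
          have := hG.2 p ha.1.1.2 ha.2
          omega
        have : f = fj := ff_Zj g1 P j Y _ hno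
        rw [this]
      · rw [if_neg hG, mul_zero]
        exact hRnn
    · apply mul_le_mul_of_nonneg_right
      · rw [← sq_abs fj]
        exact pow_le_pow_left₀ (abs_nonneg _) hB 2
      · split_ifs <;> norm_num
  · rw [if_neg hemp, zero_mul, mul_zero]
    linarith

end Pool.Agent.Work.MP_2dba45_nt.TG
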