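import Mathlib
import Pool.Agent.Work.MP_2dba45_nt.TG.GA4

set_option autoImplicit false

/-!
Assembly 5: parameters.
-/

namespace Pool.Agent.Work.MP_2dba45_nt.TG

open Finset Pool.Agent.Work.MP_2dba45_nt.BilDef Pool.Agent.Work.MP_2dba45_nt.Sv
  Pool.Agent.Work.MP_73869e_nt.SK Pool.Agent.Work.MP_73869e_nt.TH

open Classical in
theorem form_total {K : ℕ} (N z₀ R' k m : ℕ) (δ : ℝ) (F : Fin K → ℕ → ℕ) (Bd : ℕ → ℕ → Prop) (j₀ : Fin K) (W : ℕ → ℝ)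
    (lp dp : Finset ℕ → ℝ) (Y : Finset (ℕ × Fin K) → ℝ)
    (D E E₀ R Y₀ Yj S S' u₀ V U1 U2 cδ Ca Cb Cb₀ Ej EE Bf nb : ℝ)
    (hz₀ : z₀ = pw N δ) (hR' : R' ≤ pw N zExp) (hk : 1 ≤ k) (hN : 2 ≤ N)
    (hW : ∀ n, 0 ≤ W n ∧ W n ≤ 1) (hA : Adm z₀ F Bd)
    (hlp : ∀ d, |lp d| ≤ 1) (hdp : ∀ d, |dp d| ≤ z₀) (hz₀D : (z₀ : ℝ) ≤ D) (hD : 1 ≤ D)
    (hsupp : ∀ d, lp d ≠ 0 ∨ dp d ≠ 0 → ((∏ p ∈ d, p : ℕ) : ℝ) ≤ D)
    (hsub : ∀ B ⊆ Pool.Agent.Work.MP_2dba45_nt.VV.PP z₀,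
      (if B = ∅ then (1 : ℝ) else 0) ≤ ∑ d ∈ B.powerset, lp d ∧
      ∑ d ∈ B.powerset, lp d - (if B = ∅ then (1 : ℝ) else 0) ≤ ∑ d ∈ B.powerset, dp d)
    (hE0 : 0 ≤ E) (hE00 : 0 ≤ E₀) (hR : 0 ≤ R) (hu₀ : 0 ≤ u₀)
    (hE : ∀ (j : Fin K) (Q : Finset ℕ) (r c : ℕ), Squarefree r →
      (∀ p : ℕ, p.Prime → p ∣ r → p < z₀ ∨ p ∈ Q) → (r : ℝ) ≤ D * R ^ 2 →
      |∑ T ∈ (PQ z₀ N \ Q).powerset, ph k N T * RemF W N (F j) (∏ p ∈ T, p) r c| ≤ E ∧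
      |∑ T ∈ (PQ z₀ N \ Q).powerset, |ph k N T| * RemF W N (F j) (∏ p ∈ T, p) r c| ≤ E)
    (hE' : ∀ r c : ℕ, Squarefree r → (r : ℝ) ≤ D * R ^ 2 → |RemF W N (F j₀) 1 r c| ≤ E₀)
    (hU1 : ∀ Q : Finset ℕ, |∑ T ∈ (PQ z₀ N \ Q).powerset, ph k N T * GG T - U1| ≤ #Q * u₀)
    (hU2 : ∀ Q : Finset ℕ, |∑ T ∈ (PQ z₀ N \ Q).powerset, |ph k N T| * GG T - U2| ≤ #Q * u₀)
    (hY0 : ∀ A, |Y A| ≤ Y₀) (hYR0 : ∀ A, Y A ≠ 0 → (pr A : ℝ) ≤ R)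
    (hY : ∀ j A, |Zj g1 (PQ z₀ R') j Y A| ≤ Yj)
    (hYR : ∀ j A, Zj g1 (PQ z₀ R') j Y A ≠ 0 → (pr A : ℝ) ≤ R)
    (hS : ∑ p ∈ PQ z₀ R', g1 p ≤ S) (hS' : ∑ p ∈ PQ z₀ R', 1 / (p : ℝ) ≤ S')
    (hV0 : 0 ≤ V)
    (hs1 : V ≤ ∑ d ∈ (Pool.Agent.Work.MP_2dba45_nt.VV.PP z₀).powerset, lp d * ∏ p ∈ d, grB Bd p)
    (hs1' : ∑ d ∈ (Pool.Agent.Work.MP_2dba45_nt.VV.PP z₀).powerset, lp d * ∏ p ∈ d, grB Bd p ≤ 2 * V)
    (hs2 : 0 ≤ ∑ d ∈ (Pool.Agent.Work.MP_2dba45_nt.VV.PP z₀).powerset, dp d * ∏ p ∈ d, grB Bd p)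
    (hs2' : ∑ d ∈ (Pool.Agent.Work.MP_2dba45_nt.VV.PP z₀).powerset, dp d * ∏ p ∈ d, grB Bd p ≤ V)
    (hcδ : 0 ≤ cδ)
    (hmm : V * cδ ≤
      (∑ d ∈ (Pool.Agent.Work.MP_2dba45_nt.VV.PP z₀).powerset, lp d * ∏ p ∈ d, grB Bd p) * U1 -
      (∑ d ∈ (Pool.Agent.Work.MP_2dba45_nt.VV.PP z₀).powerset, dp d * ∏ p ∈ d, grB Bd p) * U2)
    (hEj0 : 0 ≤ Ej)
    (hEj : ∀ j, Ej ≤ Ex g1 (PQ z₀ R')
      (fun ω => (ff g1 (PQ z₀ R') (Zj g1 (PQ z₀ R') j Y) ω) ^ 2))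
    (hEx : 0 ≤ Ex g1 (PQ z₀ R') (fun ω => (ff g1 (PQ z₀ R') Y ω) ^ 2))
    (hEE : Ex g1 (PQ z₀ R') (fun ω => (ff g1 (PQ z₀ R') Y ω) ^ 2) ≤ EE)
    (hwt : ∀ j, ∀ n ∈ Ioc N (2 * N),
      (∀ p : ℕ, p.Prime → p ∣ F j n → pw N δ ≤ p) →
      WW (PQ (pw N δ) N) (cost (1200 * k) N) (pw N zExp) (pw N yExp) (1298 * k) (wt k) lamb
        (fun T => if T ⊆ (PQ (pw N δ) N).filter (fun p => p ∣ F j n) then 1 else 0) ≤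
      (if GoodV N (F j n) then 1 else 0) + (if BadV N (F j n) then 1 else 0))
    (hBf : ∀ j, ∀ n ∈ Ioc N (2 * N),
      |ff g1 (PQ z₀ R') (Zj g1 (PQ z₀ R') j Y) (oF (PQ z₀ R') F n)| ≤ Bf)
    (hbad : ∀ j, (#((Ioc N (2 * N)).filter (fun n => BadV N (F j n))) : ℝ) ≤ nb)
    (hCa : Ca = (Yj * Real.exp (K * S)) ^ 2 * Real.exp (6 * K * S))
    (hCb : Cb = (Yj * Real.exp (K * S) * (R ^ 2 * Real.exp (K * S'))) ^ 2)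
    (hCb₀ : Cb₀ = (Y₀ * Real.exp (K * S) * (R ^ 2 * Real.exp (K * S'))) ^ 2) :
    (∑ n ∈ Ioc N (2 * N), W n) * V * (K * Ej * cδ - m * (2 * EE)) -
      (K * (3 * V * (∑ n ∈ Ioc N (2 * N), W n) * u₀ * Ca + 2 * D ^ 3 * E * Cb + Bf ^ 2 * nb) +
        m * (D ^ 3 * E₀ * Cb₀)) ≤
    ∑ n ∈ Ioc N (2 * N), W n *
      (if RoB Bd z₀ n then (ff g1 (PQ z₀ R') Y (oF (PQ z₀ R') F n)) ^ 2 else 0) *
      ((∑ j, if GoodV N (F j n) then (1 : ℝ) else 0) - m) := by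
  set X := ∑ n ∈ Ioc N (2 * N), W n with hX
  have hX0 : 0 ≤ X := sum_nonneg fun n _ => (hW n).1
  have hup := mass_up N z₀ R' F Bd j₀ W lp Y D E₀ R Y₀ S S' V Cb₀ (fun n => (hW n).1) hA hlp hD
    (fun d hd => hsupp d (Or.inl hd)) (fun B hB => (hsub B hB).1) hE00 hR hE' hY0 hYR0 hS hS' hs1'
    hEx hCb₀
  have hlow : ∀ j : Fin K, X * V * (Ej * cδ) -
      (3 * V * X * u₀ * Ca + 2 * D ^ 3 * E * Cb + Bf ^ 2 * nb) ≤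
      ∑ n ∈ Ioc N (2 * N), W n * (if RoB Bd z₀ n ∧ GoodV N (F j n) then
        (ff g1 (PQ z₀ R') Y (oF (PQ z₀ R') F n)) ^ 2 else 0) := by
    intro j
    have h1 := form_j N z₀ R' k F Bd j W lp dp Y D E R Yj S S' u₀ V U1 U2 cδ Ca Cb
      (fun n => (hW n).1) hA hlp hdp hz₀D hD hsupp hE0 hR hu₀ (hE j) hU1 hU2 (hY j) (hYR j)
      hS hS' hV0 hs1 hs1' hs2 hs2' hmm (hEj0.trans (hEj j)) hCa hCb
    rw [← hX] at h1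
    have h2 : X * V * (Ej * cδ) ≤ X * Ex g1 (PQ z₀ R')
        (fun ω => (ff g1 (PQ z₀ R') (Zj g1 (PQ z₀ R') j Y) ω) ^ 2) * (V * cδ) := by
      calc X * V * (Ej * cδ) = X * Ej * (V * cδ) := by ring
        _ ≤ _ := by
          apply mul_le_mul_of_nonneg_right _ (by positivity)
          exact mul_le_mul_of_nonneg_left (hEj j) hX0
    have h3 : ∑ n ∈ Ioc N (2 * N), W n *
        ((∑ d ∈ (Pool.Agent.Work.MP_2dba45_nt.VV.PP z₀).powerset, lp d *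
            (if ∀ p ∈ d, Bd p n then (1 : ℝ) else 0)) *
          (ff g1 (PQ z₀ R') (Zj g1 (PQ z₀ R') j Y) (oF (PQ z₀ R') F n)) ^ 2 *
          (∑ T ∈ (PQ z₀ N).powerset, ph k N T *
            (if ∀ p ∈ T, p ∣ F j n then (1 : ℝ) else 0)) -
      (∑ d ∈ (Pool.Agent.Work.MP_2dba45_nt.VV.PP z₀).powerset, dp d *
            (if ∀ p ∈ d, Bd p n then (1 : ℝ) else 0)) *
        (ff g1 (PQ z₀ R') (Zj g1 (PQ z₀ R') j Y) (oF (PQ z₀ R') F n)) ^ 2 *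
          (∑ T ∈ (PQ z₀ N).powerset, |ph k N T| *
            (if ∀ p ∈ T, p ∣ F j n then (1 : ℝ) else 0))) ≤
        ∑ n ∈ Ioc N (2 * N), (W n * (if RoB Bd z₀ n ∧ GoodV N (F j n) then
          (ff g1 (PQ z₀ R') Y (oF (PQ z₀ R') F n)) ^ 2 else 0) +
          Bf ^ 2 * (if BadV N (F j n) then 1 else 0)) := by
      refine sum_le_sum fun n hn => ?_
      have h4 := ptw N k z₀ R' δ F Bd j n hA lp dp Y Bf hz₀ hR' hk hN hsub (hwt j n hn) (hBf j n hn)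
      refine (mul_le_mul_of_nonneg_left h4 (hW n).1).trans ?_
      rw [mul_add]
      have h5 : 0 ≤ Bf ^ 2 * (if BadV N (F j n) then (1 : ℝ) else 0) := by
        split_ifs <;> positivity
      have h6 := mul_le_of_le_one_left h5 (hW n).2
      linarith
    rw [sum_add_distrib, ← mul_sum, sum_boole] at h3
    have h6 : Bf ^ 2 * (#((Ioc N (2 * N)).filter (fun n => BadV N (F j n))) : ℝ) ≤ Bf ^ 2 * nb :=
      mul_le_mul_of_nonneg_left (hbad j) (sq_nonneg _)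
    linarith
  have e1 : ∑ n ∈ Ioc N (2 * N), W n *
      (if RoB Bd z₀ n then (ff g1 (PQ z₀ R') Y (oF (PQ z₀ R') F n)) ^ 2 else 0) *
      ((∑ j, if GoodV N (F j n) then (1 : ℝ) else 0) - m) =
      ∑ j : Fin K, (∑ n ∈ Ioc N (2 * N), W n * (if RoB Bd z₀ n ∧ GoodV N (F j n) then
        (ff g1 (PQ z₀ R') Y (oF (PQ z₀ R') F n)) ^ 2 else 0)) -
      m * ∑ n ∈ Ioc N (2 * N), W n *
      (if RoB Bd z₀ n then (ff g1 (PQ z₀ R') Y (oF (PQ z₀ R') F n)) ^ 2 else 0) := by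
    rw [sum_comm, mul_sum, ← sum_sub_distrib]
    refine sum_congr rfl fun n _ => ?_
    rw [mul_sub, mul_sum]
    congr 1
    · refine sum_congr rfl fun j _ => ?_
      by_cases h1 : RoB Bd z₀ n
      · by_cases h2 : GoodV N (F j n)
        · rw [if_pos h1, if_pos h2, if_pos ⟨h1, h2⟩, mul_one]
        · rw [if_pos h1, if_neg h2, if_neg (fun h => h2 h.2), mul_zero, mul_zero]
      · rw [if_neg h1, mul_zero, zero_mul, if_neg (fun h : RoB Bd z₀ n ∧ _ => h1 h.1), mul_zero]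
    · ring
  rw [e1]
  have e2 := sum_le_sum fun (j : Fin K) (_ : j ∈ (univ : Finset (Fin K))) => hlow j
  rw [sum_const, card_univ, Fintype.card_fin, nsmul_eq_mul] at e2
  have e3 : 2 * V * X * Ex g1 (PQ z₀ R') (fun ω => (ff g1 (PQ z₀ R') Y ω) ^ 2) ≤
      2 * V * X * EE := mul_le_mul_of_nonneg_left hEE (by positivity)
  have e4 : (m : ℝ) * ∑ n ∈ Ioc N (2 * N), W n *
      (if RoB Bd z₀ n then (ff g1 (PQ z₀ R') Y (oF (PQ z₀ R') F n)) ^ 2 else 0) ≤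
      m * (2 * V * X * EE + D ^ 3 * E₀ * Cb₀) :=
    mul_le_mul_of_nonneg_left (hup.trans (by linarith)) (Nat.cast_nonneg m)
  have e5 : X * V * (K * Ej * cδ - m * (2 * EE)) -
      (K * (3 * V * X * u₀ * Ca + 2 * D ^ 3 * E * Cb + Bf ^ 2 * nb) + m * (D ^ 3 * E₀ * Cb₀)) =
      K * (X * V * (Ej * cδ) - (3 * V * X * u₀ * Ca + 2 * D ^ 3 * E * Cb + Bf ^ 2 * nb)) -
      m * (2 * V * X * EE + D ^ 3 * E₀ * Cb₀) := by ring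
  rw [e5]
  linarith

end Pool.Agent.Work.MP_2dba45_nt.TG
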