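import Mathlib
import Pool.Agent.Work.MP_2dba45_nt.TG.GA5
import Pool.Agent.Work.MP_2dba45_nt.TG.BHS

set_option autoImplicit false

/-!
Assembly: the main theorem for one tuple.
-/

namespace Pool.Agent.Work.MP_2dba45_nt.TG

open Finset Pool.Agent.Work.MP_2dba45_nt.BilDef Pool.Agent.Work.MP_2dba45_nt.Sv
  Pool.Agent.Work.MP_73869e_nt.SK Pool.Agent.Work.MP_73869e_nt.TH

open Classical in
theorem F_le {K : ℕ} (W f2 : ℕ → ℝ) (z₀ : ℕ) (F : Fin K → ℕ → ℕ) (Bd : ℕ → ℕ → Prop)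
    (N m n : ℕ) (B : ℝ)
    (hW : 0 ≤ W n ∧ W n ≤ 1) (hf0 : 0 ≤ f2 n) (hf : f2 n ≤ B) :
    W n * (if RoB Bd z₀ n then f2 n else 0) * ((∑ j, if GoodV N (F j n) then (1 : ℝ) else 0) - m) ≤
      (B * K) * (if RoB Bd z₀ n ∧ m + 1 ≤ #(univ.filter (fun j => GoodV N (F j n))) then 1 else 0) := by
  rw [sum_boole]
  have hcard : (#(univ.filter (fun j => GoodV N (F j n))) : ℝ) ≤ K := by
    have h1 := card_filter_le (univ : Finset (Fin K)) (fun j => GoodV N (F j n))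
    rw [card_univ, Fintype.card_fin] at h1
    exact_mod_cast h1
  have hB : 0 ≤ B := hf0.trans hf
  by_cases h1 : RoB Bd z₀ n
  · rw [if_pos h1]
    by_cases h2 : m + 1 ≤ #(univ.filter (fun j => GoodV N (F j n)))
    · rw [if_pos ⟨h1, h2⟩, mul_one]
      have h3 : (#(univ.filter (fun j => GoodV N (F j n))) : ℝ) - m ≤ K := by
        have : (0 : ℝ) ≤ m := Nat.cast_nonneg m
        linarith
      have h4 : 0 ≤ (#(univ.filter (fun j => GoodV N (F j n))) : ℝ) - m := by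
        have : ((m + 1 : ℕ) : ℝ) ≤ #(univ.filter (fun j => GoodV N (F j n))) := by exact_mod_cast h2
        push_cast at this
        linarith
      have h5 : W n * f2 n ≤ 1 * B := mul_le_mul hW.2 hf hf0 zero_le_one
      rw [one_mul] at h5
      exact mul_le_mul h5 h3 h4 hB
    · rw [if_neg (fun h => h2 h.2), mul_zero]
      push Not at h2
      have h3 : (#(univ.filter (fun j => GoodV N (F j n))) : ℝ) ≤ m := by
        exact_mod_cast (by omega : #(univ.filter (fun j => GoodV N (F j n))) ≤ m)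
      exact mul_nonpos_of_nonneg_of_nonpos (mul_nonneg hW.1 hf0) (by linarith)
  · rw [if_neg h1, if_neg (fun h => h1 h.1), mul_zero, zero_mul, mul_zero]

open Classical in
/-- The theorem on clusters: abstract version. -/
theorem tuple_abs (η : ℝ) (hη : 0 < η) : ∃ C : ℕ, 1 ≤ C ∧ ∀ m K : ℕ, K = 2 ^ (C * (m + 1)) →
    ∀ (δ₁ c₀ : ℝ) (κ w : ℕ), 0 < δ₁ → 0 < c₀ →
    ∃ δ c : ℝ, 0 < δ ∧ δ ≤ δ₁ ∧ 0 < c ∧ ∃ N₀ : ℕ, ∀ N : ℕ, N₀ ≤ N →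
      ∀ (F : Fin K → ℕ → ℕ) (Bd : ℕ → ℕ → Prop) (W : ℕ → ℝ) (G : Fin K → ℕ),
      Adm (pw N δ) F Bd → (∀ p : ℕ, p.Prime → rhB Bd p ≤ κ) →
      (∀ p : ℕ, p.Prime → p < w → rhB Bd p < p) → (∀ p : ℕ, p.Prime → w ≤ p → 2 * rhB Bd p ≤ p) →
      (∀ n, 0 ≤ W n ∧ W n ≤ 1) → c₀ * N ≤ ∑ n ∈ Ioc N (2 * N), W n →
      (∀ j, ∀ n ∈ Ioc N (2 * N), 0 < F j n ∧ (F j n : ℝ) ≤ 5 * (N : ℝ) ^ 2) →
      (∀ j, (#((Ioc N (2 * N)).filter (fun n => BadV N (F j n))) : ℝ) ≤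
        2 * (N : ℝ) ^ ((19 : ℝ) / 20)) →
      (∀ j, ∀ p : ℕ, p.Prime → pw N δ ≤ p → ¬ p ∣ G j) →
      (∀ j, ∀ r c : ℕ, Squarefree r → (r : ℝ) ≤ (N : ℝ) ^ η →
        ∀ M Q : ℝ, M ≤ (N : ℝ) ^ (1 - (1 : ℝ) / 1200) → Q ≤ (N : ℝ) ^ ((1 : ℝ) / 12 - 1 / 1200) →
          ∀ b : ℕ → ℝ, (∀ q, |b q| ≤ 1) →
            ∑ m ∈ (Icc 1 ⌊M⌋₊).filter (fun m => m.Coprime (G j * r)),
              |∑ q ∈ (Icc 1 ⌊Q⌋₊).filter (fun q => Squarefree q ∧ q.Coprime (2 * m * (G j * r))),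
                b q * RemF W N (F j) (m * q) r c| ≤ (N : ℝ) ^ (1 - η)) →
      c * (N / (Real.log N) ^ κ) ≤ (#((Ioc N (2 * N)).filter (fun n => RoB Bd (pw N δ) n ∧
        m + 1 ≤ #(univ.filter (fun j => GoodV N (F j n))))) : ℝ) := by
  obtain ⟨Bk, hBk0, hRem⟩ := rem_totalA
  obtain ⟨c1, hc1, hW⟩ := main_W
  obtain ⟨C2, hC2, hAbs⟩ := abs_sum
  obtain ⟨Nw, hWt⟩ := wt_ineqV
  obtain ⟨cn, hcn, hNtge⟩ := Nt_ge
  obtain ⟨Cn', hCn', hNtle⟩ := Nt_le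
  obtain ⟨Cu, hCu, hUU⟩ := uu
  obtain ⟨Cg, hCg, hSg⟩ := sum_g1P
  obtain ⟨Co, hCo, hSo⟩ := sum_oneP
  obtain ⟨v, hvdef⟩ : ∃ v : ℝ, v = min (η / 32) (1 / 10) := ⟨_, rfl⟩
  have hv0 : 0 < v := by rw [hvdef]; exact lt_min (by positivity) (by norm_num)
  have hvη : v ≤ η / 32 := by rw [hvdef]; exact min_le_left _ _
  have hv10 : v ≤ 1 / 10 := by rw [hvdef]; exact min_le_right _ _
  obtain ⟨Cn, hCndef⟩ : ∃ Cn : ℝ, Cn = max Cn' cn := ⟨_, rfl⟩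
  have hCnn : cn ≤ Cn := by rw [hCndef]; exact le_max_right _ _
  have hCn'n : Cn' ≤ Cn := by rw [hCndef]; exact le_max_left _ _
  have hCn0 : 0 < Cn := lt_of_lt_of_le hcn hCnn
  obtain ⟨C', hC'⟩ := exists_nat_ge (16384 * Cn ^ 2 / (c1 * cn ^ 3 * v))
  refine ⟨max C' 1, le_max_right _ _, fun m K hKeq δ₁ c₀ κ w hδ₁ hc₀ => ?_⟩
  -- it suffices to treat `m + 1` in place of `m` (so that it is positive)
  obtain ⟨M, hMdef⟩ : ∃ M : ℕ, M = m + 1 := ⟨_, rfl⟩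
  have hM1 : 1 ≤ M := by omega
  obtain ⟨L, hLdef⟩ : ∃ L : ℕ, L = max C' 1 * M := ⟨_, rfl⟩
  have hL1 : 1 ≤ L := by
    rw [hLdef]
    exact Nat.mul_pos (lt_of_lt_of_le one_pos (le_max_right _ _)) hM1
  have hLL : 16384 * M * Cn ^ 2 ≤ L * (c1 * cn ^ 3 * v) := by
    rw [div_le_iff₀ (by positivity)] at hC'
    have h1 : (C' : ℝ) ≤ ((max C' 1 : ℕ) : ℝ) := by exact_mod_cast le_max_left _ _
    have h2 : (16384 * Cn ^ 2) ≤ ((max C' 1 : ℕ) : ℝ) * (c1 * cn ^ 3 * v) :=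
      hC'.trans (mul_le_mul_of_nonneg_right h1 (by positivity))
    have h3 := mul_le_mul_of_nonneg_left h2 (Nat.cast_nonneg (α := ℝ) M)
    rw [hLdef]
    push_cast at h3 ⊢
    linarith
  have hL0r : (1 : ℝ) ≤ L := by exact_mod_cast hL1
  have hKdef : K = 2 ^ L := by rw [hKeq, hLdef, hMdef]
  have hK1 : 1 ≤ K := by rw [hKdef]; exact Nat.one_le_two_pow
  have hKr : (K : ℝ) = 2 ^ L := by rw [hKdef]; push_cast; rfl
  have hK1r : (1 : ℝ) ≤ K := by exact_mod_cast hK1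
  obtain ⟨t₀, ht₀def⟩ : ∃ t₀ : ℝ, t₀ = cn * v / (32 * Cn * L * K) := ⟨_, rfl⟩
  have ht₀ : 0 < t₀ := by rw [ht₀def]; positivity
  have hLv : (2 : ℝ) ^ L * t₀ ≤ v / 2 := by
    rw [← hKr, ht₀def]
    have e1 : (K : ℝ) * (cn * v / (32 * Cn * L * K)) = (v / 2) * (cn / (16 * Cn * L)) := by
      field_simp; ring
    rw [e1]
    apply mul_le_of_le_one_right (by positivity)
    rw [div_le_one (by positivity)]
    nlinarith
  obtain ⟨L₀, hL₀, hblock⟩ := grB_block κ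
  obtain ⟨b₀, hBH⟩ := bh_small w L₀ hL₀
  obtain ⟨cV, hcV, hV⟩ := V_geW κ w
  have hmin : 0 < min δ₁ t₀ := lt_min hδ₁ ht₀
  obtain ⟨b₁, hb₁⟩ := exists_nat_ge (η / (16 * min δ₁ t₀))
  obtain ⟨b, δ, hb, hδ0, hδ1, hδb, hexp⟩ :=
    fin_param (η / 2) c1 C2 (max b₀ b₁) (by positivity) hc1 hC2
  have hb0 : b₀ ≤ b := (le_max_left _ _).trans hb
  have hb1 : (b₁ : ℝ) ≤ b := by exact_mod_cast (le_max_right _ _).trans hb
  have hδmin : δ ≤ min δ₁ t₀ := by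
    rw [div_le_iff₀ (by positivity)] at hb₁
    have h1 : η / 16 ≤ (4 * b + 10) * min δ₁ t₀ := by
      have h2 : (b₁ : ℝ) * (16 * min δ₁ t₀) ≤ b * (16 * min δ₁ t₀) :=
        mul_le_mul_of_nonneg_right hb1 (by positivity)
      have h3 : 0 ≤ (b : ℝ) * min δ₁ t₀ := by positivity
      nlinarith
    have h2 : δ * (4 * b + 10) ≤ min δ₁ t₀ * (4 * b + 10) := by linarith
    exact le_of_mul_le_mul_right h2 (by positivity)
  have hδδ₁ : δ ≤ δ₁ := hδmin.trans (min_le_left _ _)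
  have hδt₀ : δ ≤ t₀ := hδmin.trans (min_le_right _ _)
  obtain ⟨k₀, hk₀⟩ := hW δ hδ0 hδ1
  obtain ⟨k, hkdef⟩ : ∃ k : ℕ, k = max k₀ 1 := ⟨_, rfl⟩
  have hk1 : 1 ≤ k := by rw [hkdef]; exact le_max_right _ _
  have hkk₀ : k₀ ≤ k := by rw [hkdef]; exact le_max_left _ _
  obtain ⟨N4, hN4⟩ := hk₀ k hkk₀
  obtain ⟨N5, hN5⟩ := hAbs δ hδ0 hδ1
  obtain ⟨N6, hN6⟩ := hNtge δ hδ0 hδ1
  obtain ⟨N7, hN7⟩ := hNtle δ hδ0 hδ1
  obtain ⟨N8, hN8⟩ := hUU δ hδ0 hδ1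
  obtain ⟨N9, hN9⟩ := hSg δ hδ0 hδ1
  obtain ⟨N10, hN10⟩ := hSo δ hδ0 hδ1
  -- constants
  obtain ⟨S, hSdef⟩ : ∃ S : ℝ, S = Real.log (1 / δ) + Cg := ⟨_, rfl⟩
  obtain ⟨S', hS'def⟩ : ∃ S' : ℝ, S' = Real.log (1 / δ) + Co := ⟨_, rfl⟩
  obtain ⟨Mo, hModef⟩ : ∃ Mo : ℕ, Mo = ⌈(K : ℝ) * (3 / δ)⌉₊ := ⟨_, rfl⟩
  obtain ⟨Y₀, hY₀def⟩ : ∃ Y₀ : ℝ, Y₀ = 2 ^ K := ⟨_, rfl⟩
  obtain ⟨Yj, hYjdef⟩ : ∃ Yj : ℝ, Yj = 2 ^ K * Real.exp S := ⟨_, rfl⟩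
  have hY₀0 : 0 < Y₀ := by rw [hY₀def]; positivity
  have hYj0 : 0 < Yj := by rw [hYjdef]; positivity
  obtain ⟨Ca, hCa⟩ : ∃ Ca : ℝ, Ca = (Yj * Real.exp (K * S)) ^ 2 * Real.exp (6 * K * S) := ⟨_, rfl⟩
  obtain ⟨Cc, hCc⟩ : ∃ Cc : ℝ, Cc = (Yj * Real.exp (K * S) * Real.exp (K * S')) ^ 2 := ⟨_, rfl⟩
  obtain ⟨Cc0, hCc0⟩ : ∃ Cc0 : ℝ, Cc0 = (Y₀ * Real.exp (K * S) * Real.exp (K * S')) ^ 2 := ⟨_, rfl⟩
  obtain ⟨Bf, hBf⟩ : ∃ Bf : ℝ, Bf = Yj * 3 ^ Mo * Real.exp (K * S) := ⟨_, rfl⟩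
  obtain ⟨Bf0, hBf0⟩ : ∃ Bf0 : ℝ, Bf0 = Y₀ * 3 ^ Mo * Real.exp (K * S) := ⟨_, rfl⟩
  have hCa0 : 0 < Ca := by rw [hCa]; positivity
  have hCc_0 : 0 < Cc := by rw [hCc]; positivity
  have hCc0_0 : 0 < Cc0 := by rw [hCc0]; positivity
  have hBf_0 : 0 < Bf := by rw [hBf]; positivity
  have hBf0_0 : 0 < Bf0 := by rw [hBf0]; positivity
  obtain ⟨κ₀, hκ₀⟩ : ∃ κ₀ : ℝ, κ₀ = (cn * (t₀ / δ)) ^ (K - 1) * (16 * M * Cn * (t₀ / δ)) :=
    ⟨_, rfl⟩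
  have hM0r : (1 : ℝ) ≤ M := by exact_mod_cast hM1
  have hκ₀0 : 0 < κ₀ := by rw [hκ₀]; positivity
  obtain ⟨cs, hcs⟩ : ∃ cs : ℝ, cs = c₀ * cV * κ₀ := ⟨_, rfl⟩
  have hcs0 : 0 < cs := by rw [hcs]; positivity
  obtain ⟨e1, he1⟩ : ∃ e1 : ℝ, e1 = K * 3 * (Cu / δ) * Ca := ⟨_, rfl⟩
  obtain ⟨e2, he2⟩ : ∃ e2 : ℝ, e2 = K * 2 * Bk k * Cc + M * Cc0 := ⟨_, rfl⟩
  obtain ⟨e3, he3⟩ : ∃ e3 : ℝ, e3 = K * Bf ^ 2 * 2 := ⟨_, rfl⟩
  have he1_0 : 0 ≤ e1 := by rw [he1]; positivity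
  have he2_0 : 0 ≤ e2 := by
    rw [he2]
    have := hBk0 k
    positivity
  have he3_0 : 0 ≤ e3 := by rw [he3]; positivity
  have hev : ∀ᶠ N : ℕ in Filter.atTop,
      (max 3 (max (8 * K * v / δ) (64 * K ^ 2))) * (N : ℝ) ^ (0 : ℝ) ≤ (N : ℝ) ^ δ ∧
      (Real.log N) ^ 4 ≤ (N : ℝ) ^ (δ / 2) ∧ (Real.log N) ^ 2 ≤ (N : ℝ) ^ η ∧
      (Real.log N) ^ 2 ≤ (N : ℝ) ^ ((1 : ℝ) / 10) ∧
      ((w : ℝ) ^ w * 2 ^ (4 * b + 10)) * (N : ℝ) ^ (η / 16) ≤ (N : ℝ) ^ (η / 8) ∧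
      e1 * (N : ℝ) ^ (1 - δ) ≤ (cs / 6) * (N / (Real.log N) ^ κ) ∧
      e2 * (N : ℝ) ^ (1 - η / 2) ≤ (cs / 6) * (N / (Real.log N) ^ κ) ∧
      e3 * (N : ℝ) ^ ((19 : ℝ) / 20) ≤ (cs / 6) * (N / (Real.log N) ^ κ) := by
    filter_upwards [fin_ev2 0 δ (max 3 (max (8 * K * v / δ) (64 * K ^ 2))) hδ0,
      log_ev (δ / 2) 4 (by positivity), log_ev η 2 hη, log_ev (1 / 10) 2 (by norm_num),
      fin_ev2 (η / 16) (η / 8) ((w : ℝ) ^ w * 2 ^ (4 * b + 10)) (by linarith),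
      abs_ev (1 - δ) (cs / 6) e1 κ (by linarith) (by linarith) he1_0,
      abs_ev (1 - η / 2) (cs / 6) e2 κ (by linarith) (by linarith) he2_0,
      abs_ev (19 / 20) (cs / 6) e3 κ (by norm_num) (by linarith) he3_0]
      with N h1 h2 h3 h4 h5 h6 h7 h8
    exact ⟨h1, h2, h3, h4, h5, h6, h7, h8⟩
  obtain ⟨Ne, hNe⟩ := Filter.eventually_atTop.mp hev
  refine ⟨δ, cs / (2 * (Bf0 ^ 2 * K)), hδ0, hδδ₁, by positivity,
    max Nw (max N4 (max N5 (max N6 (max N7 (max N8 (max N9 (max N10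
      (max Ne 5)))))))), fun N hN F Bd W G hA hκb hsm hhalf hW01 hWsum hFs hFbad hG hbil => ?_⟩
  simp only [max_le_iff] at hN
  obtain ⟨hNNw, hNN4, hNN5, hNN6, hNN7, hNN8, hNN9, hNN10, hNNe, hNN⟩ := hN
  obtain ⟨hx1, hx2, hx3, hx4, hx5, hx6, hx7, hx8⟩ := hNe N hNNe
  rw [Real.rpow_zero, mul_one] at hx1
  have hN0 : (0 : ℝ) < N := by positivity
  have hN1 : (1 : ℝ) ≤ N := by exact_mod_cast (by omega : 1 ≤ N)
  have hN1' : (1 : ℝ) < N := by exact_mod_cast (by omega : 1 < N)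
  have hlogN : 0 < Real.log N := Real.log_pos hN1'
  have hNδ0 : (0 : ℝ) < (N : ℝ) ^ δ := Real.rpow_pos_of_pos hN0 δ
  obtain ⟨z₀, hz₀⟩ : ∃ z₀ : ℕ, z₀ = pw N δ := ⟨_, rfl⟩
  have hz₀ge : (N : ℝ) ^ δ ≤ z₀ := by rw [hz₀]; exact Nat.le_ceil _
  have hz₀3 : 3 ≤ z₀ := by
    have : (3 : ℝ) ≤ z₀ := ((le_max_left _ _).trans hx1).trans hz₀ge
    exact_mod_cast this
  have hNδ : (N : ℝ) ^ δ ≤ N := by
    calc (N : ℝ) ^ δ ≤ (N : ℝ) ^ (1 : ℝ) := Real.rpow_le_rpow_of_exponent_le hN1 (by linarith only [hδ1])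
      _ = N := Real.rpow_one _
  have hz₀N : z₀ ≤ N := by rw [hz₀]; exact Nat.ceil_le.mpr hNδ
  have hz₀r : (3 : ℝ) ≤ z₀ := by exact_mod_cast hz₀3
  have hz₀2 : (z₀ : ℝ) ≤ 2 * (N : ℝ) ^ δ := by
    have h1 : (z₀ : ℝ) < (N : ℝ) ^ δ + 1 := by
      rw [hz₀]; exact Nat.ceil_lt_add_one (by positivity)
    have h2 : (3 : ℝ) ≤ (N : ℝ) ^ δ := (le_max_left _ _).trans hx1
    linarith only [h1, h2]
  obtain ⟨R', hR'⟩ : ∃ R' : ℕ, R' = pw N v := ⟨_, rfl⟩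
  have hR'z : R' ≤ pw N zExp := by
    rw [hR']
    unfold pw
    apply Nat.ceil_mono
    apply Real.rpow_le_rpow_of_exponent_le hN1
    unfold zExp
    linarith only [hv10]
  have hR'N : R' ≤ N := by
    rw [hR']
    apply Nat.ceil_le.mpr
    calc (N : ℝ) ^ v ≤ (N : ℝ) ^ (1 : ℝ) := Real.rpow_le_rpow_of_exponent_le hN1 (by linarith only [hv10])
      _ = N := Real.rpow_one _
  -- the set of primes of the weight
  have hPsub : PQ z₀ R' ⊆ PQ (pw N δ) N := by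
    rw [← hz₀]
    intro p hp
    rw [PQ, mem_filter, mem_Ico] at hp ⊢
    exact ⟨⟨hp.1.1, hp.1.2.trans_le hR'N⟩, hp.2⟩
  have hPz : ∀ p ∈ PQ z₀ R', p.Prime ∧ z₀ ≤ p := by
    intro p hp
    rw [PQ, mem_filter, mem_Ico] at hp
    exact ⟨hp.2, hp.1.1⟩
  have hPδ : ∀ p ∈ PQ z₀ R', p.Prime ∧ (N : ℝ) ^ δ ≤ p := by
    intro p hp
    refine ⟨(hPz p hp).1, hz₀ge.trans ?_⟩
    exact_mod_cast (hPz p hp).2
  have hg1nn : ∀ p, 0 ≤ g1 p := fun p => by unfold g1; positivity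
  have hSP : ∑ p ∈ PQ z₀ R', g1 p ≤ S := by
    rw [hSdef]
    refine le_trans ?_ (hN9 N hNN9)
    exact sum_le_sum_of_subset_of_nonneg hPsub fun p _ _ => hg1nn p
  have hS'P : ∑ p ∈ PQ z₀ R', 1 / (p : ℝ) ≤ S' := by
    rw [hS'def]
    refine le_trans ?_ (hN10 N hNN10)
    exact sum_le_sum_of_subset_of_nonneg hPsub fun p _ _ => by positivity
  rw [← hz₀] at hA hG
  -- level
  have hww : (1 : ℝ) ≤ (w : ℝ) ^ w := by
    have : 1 ≤ w ^ w := by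
      rcases Nat.eq_zero_or_pos w with hw | hw
      · rw [hw]; norm_num
      · exact Nat.one_le_pow _ _ hw
    exact_mod_cast this
  obtain ⟨D, hD⟩ : ∃ D : ℝ, D = (w : ℝ) ^ w * (z₀ : ℝ) ^ (4 * b + 10) := ⟨_, rfl⟩
  have hzpow : (z₀ : ℝ) ≤ (z₀ : ℝ) ^ (4 * b + 10) :=
    le_self_pow₀ (by linarith only [hz₀r]) (by omega)
  have hz₀D : (z₀ : ℝ) ≤ D := by
    rw [hD]
    exact hzpow.trans (le_mul_of_one_le_left (by positivity) hww)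
  have hD1 : 1 ≤ D := by linarith only [hz₀D, hz₀r]
  have hDN : D ≤ (N : ℝ) ^ (η / 8) := by
    refine le_trans ?_ hx5
    calc D ≤ (w : ℝ) ^ w * (2 * (N : ℝ) ^ δ) ^ (4 * b + 10) := by
          rw [hD]
          apply mul_le_mul_of_nonneg_left _ (by positivity)
          exact pow_le_pow_left₀ (by positivity) hz₀2 _
      _ = (w : ℝ) ^ w * 2 ^ (4 * b + 10) * ((N : ℝ) ^ δ) ^ (4 * b + 10) := by
          rw [mul_pow]; ring
      _ = (w : ℝ) ^ w * 2 ^ (4 * b + 10) * (N : ℝ) ^ (δ * (4 * b + 10)) := by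
          congr 1
          rw [← Real.rpow_natCast ((N : ℝ) ^ δ), ← Real.rpow_mul hN0.le]
          push_cast
          ring_nf
      _ ≤ (w : ℝ) ^ w * 2 ^ (4 * b + 10) * (N : ℝ) ^ (η / 16) := by
          apply mul_le_mul_of_nonneg_left _ (by positivity)
          exact Real.rpow_le_rpow_of_exponent_le hN1 (by linarith only [hδb])
  obtain ⟨R, hR⟩ : ∃ R : ℝ, R = (N : ℝ) ^ v := ⟨_, rfl⟩
  have hR0 : 0 ≤ R := by rw [hR]; positivity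
  have hR4 : R ^ 4 ≤ (N : ℝ) ^ (η / 8) := by
    rw [hR, ← Real.rpow_natCast, ← Real.rpow_mul hN0.le]
    apply Real.rpow_le_rpow_of_exponent_le hN1
    push_cast
    linarith only [hvη]
  have hR2 : R ^ 2 ≤ (N : ℝ) ^ (η / 16) := by
    rw [hR, ← Real.rpow_natCast, ← Real.rpow_mul hN0.le]
    apply Real.rpow_le_rpow_of_exponent_le hN1
    push_cast
    linarith only [hvη]
  have hDR : D * R ^ 2 ≤ (N : ℝ) ^ η := by
    calc D * R ^ 2 ≤ (N : ℝ) ^ (η / 8) * (N : ℝ) ^ (η / 16) :=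
          mul_le_mul hDN hR2 (by positivity) (by positivity)
      _ = (N : ℝ) ^ (η / 8 + η / 16) := (Real.rpow_add hN0 _ _).symm
      _ ≤ (N : ℝ) ^ η := Real.rpow_le_rpow_of_exponent_le hN1 (by linarith only [hη])
  have hPPgr : ∀ p ∈ Pool.Agent.Work.MP_2dba45_nt.VV.PP z₀, 0 ≤ grB Bd p ∧ grB Bd p < 1 := by
    intro p hp
    have hpp := (Pool.Agent.Work.MP_2dba45_nt.VV.mem_PP.mp hp).2
    have hp0 : (0 : ℝ) < p := by exact_mod_cast hpp.pos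
    refine ⟨grB_nonneg Bd p, ?_⟩
    unfold grB
    rw [div_lt_one hp0]
    rcases Nat.lt_or_ge p w with h1 | h1
    · exact_mod_cast hsm p hpp h1
    · have h2 := hhalf p hpp h1
      have h3 := hpp.pos
      have h4 : rhB Bd p < p := by omega
      exact_mod_cast h4
  have hPPgr2 : ∀ p ∈ Pool.Agent.Work.MP_2dba45_nt.VV.PP z₀, w ≤ p → grB Bd p ≤ 1 / 2 := by
    intro p hp hwp
    have hpp := (Pool.Agent.Work.MP_2dba45_nt.VV.mem_PP.mp hp).2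
    have hp0 : (0 : ℝ) < p := by exact_mod_cast hpp.pos
    unfold grB
    have h1 : (2 : ℝ) * rhB Bd p ≤ p := by exact_mod_cast hhalf p hpp hwp
    rw [div_le_iff₀ hp0]
    linarith only [h1]
  obtain ⟨lp, dp, hlp1, hdp1, hsupp, hsub, hmain, herr⟩ := hBH b hb0 z₀
    (Pool.Agent.Work.MP_2dba45_nt.VV.PP z₀) (grB Bd)
    (by omega) (fun p hp => ⟨(Pool.Agent.Work.MP_2dba45_nt.VV.mem_PP.mp hp).2.two_le,
      (Pool.Agent.Work.MP_2dba45_nt.VV.mem_PP.mp hp).1⟩)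
    (fun p hp => ⟨(hPPgr p hp).1, (hPPgr p hp).2.le⟩) hPPgr2 (fun y hy => hblock Bd hκb z₀ y hy)
  have hbh := bh_upper (Pool.Agent.Work.MP_2dba45_nt.VV.PP z₀) (grB Bd)
    (fun p hp => ⟨(hPPgr p hp).1, (hPPgr p hp).2.le⟩) lp dp
    (fun B hB => (hsub B hB).2)
  obtain ⟨V, hVdef⟩ : ∃ V : ℝ, V = ∏ p ∈ Pool.Agent.Work.MP_2dba45_nt.VV.PP z₀, (1 - grB Bd p) :=
    ⟨_, rfl⟩
  rw [← hVdef] at hmain herr hbh
  have hV0 : 0 < V := by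
    rw [hVdef]
    exact prod_pos fun p hp => by linarith only [(hPPgr p hp).2]
  have hV1 : V ≤ 1 := by
    rw [hVdef]
    exact prod_le_one (fun p hp => by linarith only [(hPPgr p hp).2])
      (fun p hp => by linarith only [(hPPgr p hp).1])
  have hexpb : Real.exp (-(b : ℝ)) ≤ 1 := Real.exp_le_one_iff.2 (by simp)
  have herr' : ∑ d ∈ (Pool.Agent.Work.MP_2dba45_nt.VV.PP z₀).powerset,
      dp d * ∏ p ∈ d, grB Bd p ≤ V := by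
    refine herr.trans ?_
    exact mul_le_of_le_one_left hV0.le hexpb
  have hdp0 : 0 ≤ ∑ d ∈ (Pool.Agent.Work.MP_2dba45_nt.VV.PP z₀).powerset,
      dp d * ∏ p ∈ d, grB Bd p := by linarith only [hbh, hmain]
  have hlp2 : ∑ d ∈ (Pool.Agent.Work.MP_2dba45_nt.VV.PP z₀).powerset,
      lp d * ∏ p ∈ d, grB Bd p ≤ 2 * V := by linarith only [hbh, herr']
  -- Richert's weights
  obtain ⟨U1, hU1⟩ : ∃ U1 : ℝ, U1 = ∑ T ∈ (PQ z₀ N).powerset, ph k N T * GG T := ⟨_, rfl⟩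
  obtain ⟨U2, hU2⟩ : ∃ U2 : ℝ, U2 = ∑ T ∈ (PQ z₀ N).powerset, |ph k N T| * GG T := ⟨_, rfl⟩
  have hU1ge : c1 * δ ≤ U1 := by
    have h := hN4 N hNN4
    rw [← hz₀, WW_ph k N z₀ hk1 (by omega)] at h
    rw [hU1]
    exact h
  have hU2le : U2 ≤ C2 / δ := by
    rw [hU2, hz₀]
    exact hN5 N hNN5 k hk1
  have hU20 : 0 ≤ U2 := by
    rw [hU2]
    apply Finset.sum_nonneg
    intro T _
    apply mul_nonneg (abs_nonneg _)
    unfold GG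
    exact Finset.prod_nonneg fun p _ => hg1nn p
  obtain ⟨u₀, hu₀⟩ : ∃ u₀ : ℝ, u₀ = Cu / (δ * (N : ℝ) ^ δ) := ⟨_, rfl⟩
  have hu₀0 : 0 ≤ u₀ := by rw [hu₀]; positivity
  have hphb : ∀ T, |ph k N T| ≤ 2 := fun T => phi_bound k hk1 _
  have hU1Q : ∀ Q : Finset ℕ, |∑ T ∈ (PQ z₀ N \ Q).powerset, ph k N T * GG T - U1| ≤
      #Q * u₀ := by
    intro Q
    rw [abs_sub_comm, hU1, hu₀, hz₀]
    exact hN8 N hNN8 (ph k N) Q hphb
  have hU2Q : ∀ Q : Finset ℕ, |∑ T ∈ (PQ z₀ N \ Q).powerset, |ph k N T| * GG T - U2| ≤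
      #Q * u₀ := by
    intro Q
    rw [abs_sub_comm, hU2, hu₀, hz₀]
    exact hN8 N hNN8 (fun T => |ph k N T|) Q (fun T => by rw [abs_abs]; exact hphb T)
  have hmm : V * (c1 * δ / 2) ≤
      (∑ d ∈ (Pool.Agent.Work.MP_2dba45_nt.VV.PP z₀).powerset, lp d * ∏ p ∈ d, grB Bd p) * U1 -
      (∑ d ∈ (Pool.Agent.Work.MP_2dba45_nt.VV.PP z₀).powerset, dp d * ∏ p ∈ d, grB Bd p) * U2 := by
    have hm1 : V * (c1 * δ) ≤ (∑ d ∈ (Pool.Agent.Work.MP_2dba45_nt.VV.PP z₀).powerset,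
        lp d * ∏ p ∈ d, grB Bd p) * U1 :=
      mul_le_mul hmain hU1ge (by positivity) (hV0.le.trans hmain)
    have hm2 : (∑ d ∈ (Pool.Agent.Work.MP_2dba45_nt.VV.PP z₀).powerset,
        dp d * ∏ p ∈ d, grB Bd p) * U2 ≤ V * (c1 * δ / 2) := by
      calc _ ≤ (Real.exp (-b) * V) * U2 := mul_le_mul_of_nonneg_right herr hU20
        _ ≤ (Real.exp (-b) * V) * (C2 / δ) :=
            mul_le_mul_of_nonneg_left hU2le (by positivity)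
        _ = V * (Real.exp (-b) * (C2 / δ)) := by ring
        _ ≤ V * (c1 * δ / 2) := mul_le_mul_of_nonneg_left hexp hV0.le
    linarith only [hm1, hm2]
  -- the remainders
  obtain ⟨E₀, hE₀⟩ : ∃ E₀ : ℝ, E₀ = (N : ℝ) ^ (1 - η) := ⟨_, rfl⟩
  have hE₀0 : 0 ≤ E₀ := by rw [hE₀]; positivity
  have hE : ∀ (j : Fin K) (Q : Finset ℕ) (r c : ℕ), Squarefree r →
      (∀ p : ℕ, p.Prime → p ∣ r → p < z₀ ∨ p ∈ Q) → (r : ℝ) ≤ D * R ^ 2 →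
      |∑ T ∈ (PQ z₀ N \ Q).powerset, ph k N T * RemF W N (F j) (∏ p ∈ T, p) r c| ≤
        Bk k * E₀ ∧
      |∑ T ∈ (PQ z₀ N \ Q).powerset, |ph k N T| * RemF W N (F j) (∏ p ∈ T, p) r c| ≤
        Bk k * E₀ := by
    intro j Q r c hr hrp hrD
    rw [hE₀]
    exact hE_of Bk hRem k N z₀ (G j) (F j) W η hk1 (by omega) hz₀3 (hG j)
      (fun r c hr hrN M Q hM hQ b hb => hbil j r c hr hrN M Q hM hQ b hb)
      Q r c hr hrp (hrD.trans hDR)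
  obtain ⟨j₀⟩ : Nonempty (Fin K) := ⟨⟨0, by omega⟩⟩
  have hE' : ∀ r c : ℕ, Squarefree r → (r : ℝ) ≤ D * R ^ 2 →
      |RemF W N (F j₀) 1 r c| ≤ E₀ := by
    intro r c hr hrD
    rw [hE₀]
    exact rem_one W N (G j₀) (F j₀) r c _ 1 1 le_rfl le_rfl (fun b hb =>
      hbil j₀ r c hr (hrD.trans hDR) 1 1
        (Real.one_le_rpow hN1 (by norm_num)) (Real.one_le_rpow hN1 (by norm_num)) b hb)
  -- the weight
  obtain ⟨Y, hYdef⟩ : ∃ Y : Finset (ℕ × Fin K) → ℝ, Y = YY N L t₀ v := ⟨_, rfl⟩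
  have hYY := fun A : Finset (ℕ × Fin K) => YY_bound N L t₀ v A
  have hYZ := fun (j : Fin K) (A : Finset (ℕ × Fin K)) =>
    Zj_bound (PQ z₀ R') (fun p hp => (hPz p hp).1.one_le) S hSP j N L t₀ v A
  have hoo : ∀ n ∈ Ioc N (2 * N), Lab (oF (PQ z₀ R') F n) ∧ #(oF (PQ z₀ R') F n) ≤ Mo := by
    intro n hn
    refine ⟨oo_Lab (PQ z₀ R') z₀ F Bd n hA hPz, ?_⟩
    have h1 := card_oo N δ hδ0 hNN (PQ z₀ R') F n (fun i => hFs i n hn) hPδ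
    rw [hModef]
    exact_mod_cast h1.trans (Nat.le_ceil _)
  have hg1P : ∀ p ∈ PQ z₀ R', 0 ≤ g1 p ∧ K * g1 p ≤ 1 := by
    intro p hp
    refine ⟨hg1nn p, ?_⟩
    have h1 := mt_g1_le p (hPδ p hp).1
    have h2 : 64 * (K : ℝ) ^ 2 ≤ (N : ℝ) ^ δ :=
      ((le_max_right _ _).trans (le_max_right _ _)).trans hx1
    have h3 : (N : ℝ) ^ δ ≤ p := (hPδ p hp).2
    have hp0 : (0 : ℝ) < p := hNδ0.trans_le h3
    calc (K : ℝ) * g1 p ≤ K * (2 / p) := mul_le_mul_of_nonneg_left h1 (by linarith only [hK1r])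
      _ = 2 * K / p := by ring
      _ ≤ 1 := by
        rw [div_le_one hp0]
        nlinarith only [h2, h3, hK1r]
  have hg1P' : ∀ p ∈ PQ z₀ R', 0 ≤ g1 p ∧ g1 p ≤ 1 := by
    intro p hp
    refine ⟨hg1nn p, ?_⟩
    have h1 := (hg1P p hp).2
    have h2 := hg1nn p
    nlinarith only [h1, h2, hK1r]
  have hffb : ∀ (y : ℝ) (Z : Finset (ℕ × Fin K) → ℝ), 0 < y → (∀ A, |Z A| ≤ y) →
      ∀ n ∈ Ioc N (2 * N), |ff g1 (PQ z₀ R') Z (oF (PQ z₀ R') F n)| ≤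
        y * 3 ^ Mo * Real.exp (K * S) := by
    intro y Z hy hZ n hn
    refine (ff_le g1 (PQ z₀ R') hg1P' S hSP Z y hZ _ (hoo n hn).1).trans ?_
    apply mul_le_mul_of_nonneg_right _ (Real.exp_pos _).le
    apply mul_le_mul_of_nonneg_left _ hy.le
    exact pow_le_pow_right₀ (by norm_num) (hoo n hn).2
  -- the sums
  obtain ⟨s1, hs1⟩ : ∃ s1 : ℝ, s1 = S1 (PQ z₀ R') N L t₀ := ⟨_, rfl⟩
  obtain ⟨s2, hs2⟩ : ∃ s2 : ℝ, s2 = S2 (PQ z₀ R') N L t₀ := ⟨_, rfl⟩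
  obtain ⟨hs1ge, hs2ge, hs2le, hs2t⟩ := s12 (PQ z₀ R') N L t₀ δ v cn Cn
    (fun p hp => (hPz p hp).1.one_le) (by omega) hδ0 hδt₀ hL1 (by linarith only [hLv, hv0]) hcn
    (fun t ht1 ht2 => by
      rw [hz₀, hR']
      exact hN6 N hNN6 t v ht1 ht2 (by linarith only [hv10]))
    (fun t ht1 ht2 => by
      refine (hN7 N hNN7 (PQ z₀ R') hPsub t ht1 (by linarith only [ht2, hv10])).trans ?_
      apply mul_le_mul_of_nonneg_right hCn'n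
      have : 0 < t := hδ0.trans_le ht1
      positivity)
  rw [← hs1] at hs1ge
  rw [← hs2] at hs2ge hs2le
  have htδ : 0 < t₀ / δ := by positivity
  have hs1_0 : 0 ≤ s1 := le_trans (by positivity) hs1ge
  have hs2_0 : 0 ≤ s2 := le_trans (by positivity) hs2ge
  have hNδ1 : (1 : ℝ) ≤ (N : ℝ) ^ δ := Real.one_le_rpow hN1 hδ0.le
  have hEjge : ∀ j : Fin K, 1 / 8 * s1 ^ 2 * s2 ^ (K - 1) ≤
      Ex g1 (PQ z₀ R') (fun ω => (ff g1 (PQ z₀ R') (Zj g1 (PQ z₀ R') j Y) ω) ^ 2) := by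
    intro j
    rw [hYdef, hs1, hs2]
    apply Ej_ge N L (PQ z₀ R') t₀ v δ j (by omega) hL1 hPδ hδ0 ht₀ hv0 hLv
    · have h1 : 8 * K * v / δ ≤ (N : ℝ) ^ δ :=
        ((le_max_left _ _).trans (le_max_right _ _)).trans hx1
      have h2 : (K : ℝ) * ((v / δ) * (2 / (N : ℝ) ^ δ)) = (8 * K * v / δ) / (4 * (N : ℝ) ^ δ) := by
        field_simp; ring
      rw [h2, div_le_div_iff₀ (by positivity) (by norm_num)]
      linarith only [h1]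
    · have h1 : 64 * (K : ℝ) ^ 2 ≤ (N : ℝ) ^ δ :=
        ((le_max_right _ _).trans (le_max_right _ _)).trans hx1
      have h2 : (K : ℝ) ^ 2 * (8 / (N : ℝ) ^ δ) = (64 * K ^ 2) / (8 * (N : ℝ) ^ δ) := by
        field_simp; ring
      rw [h2, div_le_div_iff₀ (by positivity) (by norm_num)]
      linarith only [h1]
    · have h1 : 8 * K * S2t (PQ z₀ R') N L t₀ ≤ 8 * K * (4 * Cn * L * t₀ * (t₀ / δ)) :=
        mul_le_mul_of_nonneg_left hs2t (by positivity)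
      refine h1.trans ?_
      have h2 : 8 * K * (4 * Cn * L * t₀ * (t₀ / δ)) = v * (cn * (t₀ / δ)) := by
        have : (32 * Cn * L * K) * t₀ = cn * v := by rw [ht₀def]; field_simp
        calc 8 * K * (4 * Cn * L * t₀ * (t₀ / δ)) = ((32 * Cn * L * K) * t₀) * (t₀ / δ) := by ring
          _ = _ := by rw [this]; ring
      rw [h2]
      apply mul_le_mul_of_nonneg_left _ hv0.le
      rw [← hs2]
      exact hs2ge
    · rw [← hs1]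
      exact hs1_0
  have hEx0 : 0 ≤ Ex g1 (PQ z₀ R') (fun ω => (ff g1 (PQ z₀ R') Y ω) ^ 2) := by
    refine le_trans ?_ (Ex_lower g1 (PQ z₀ R') hg1P Y)
    apply sum_nonneg
    intro A hA
    apply mul_nonneg
    · apply mul_nonneg (sq_nonneg _)
      unfold ga
      exact prod_nonneg fun a _ => hg1nn _
    · exact prod_nonneg fun a ha => by
        have := (hg1P a.1 ((mem_LS.1 hA).1 a ha)).2
        linarith only [this]
  have hEE : Ex g1 (PQ z₀ R') (fun ω => (ff g1 (PQ z₀ R') Y ω) ^ 2) ≤ s2 ^ K := by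
    refine (Ex_upper g1 (PQ z₀ R') hg1P Y).trans ?_
    rw [hYdef, hs2]
    exact II_le (PQ z₀ R') N L t₀ v
  obtain ⟨Cb, hCb⟩ : ∃ Cb : ℝ, Cb = (Yj * Real.exp (K * S) * (R ^ 2 * Real.exp (K * S'))) ^ 2 :=
    ⟨_, rfl⟩
  obtain ⟨Cb₀, hCb₀⟩ : ∃ Cb₀ : ℝ,
    Cb₀ = (Y₀ * Real.exp (K * S) * (R ^ 2 * Real.exp (K * S'))) ^ 2 := ⟨_, rfl⟩
  have htotal := form_total N z₀ R' k M δ F Bd j₀ W lp dp Y D (Bk k * E₀) E₀ R Y₀ Yj S S' u₀ V U1 U2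
    (c1 * δ / 2) Ca Cb Cb₀ (1 / 8 * s1 ^ 2 * s2 ^ (K - 1)) (s2 ^ K) Bf (2 * (N : ℝ) ^ ((19 : ℝ) / 20))
    hz₀ hR'z hk1 (by omega) hW01 hA hlp1 hdp1 hz₀D hD1
    (fun d hd => by rw [hD]; exact (hsupp d hd).2) hsub (mul_nonneg (hBk0 k) hE₀0) hE₀0 hR0 hu₀0
    hE hE' hU1Q hU2Q
    (fun A => by rw [hYdef, hY₀def]; exact (hYY A).1)
    (fun A hA => by rw [hYdef] at hA; rw [hR]; exact (hYY A).2 hA)
    (fun j A => by rw [hYdef, hYjdef]; exact (hYZ j A).1)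
    (fun j A hA => by rw [hYdef] at hA; rw [hR]; exact (hYZ j A).2 hA)
    hSP hS'P hV0.le hmain hlp2 hdp0 herr' (by positivity) hmm (by positivity) hEjge hEx0 hEE
    (fun j n hn hr => by
      have := hWt N hNNw k δ (F j n) hk1 hδ0 hδ1 (hFs j n hn).1 (hFs j n hn).2 hr
      convert this)
    (fun j n hn => by
      rw [hBf]
      refine hffb Yj _ hYj0 (fun A => ?_) n hn
      rw [hYdef, hYjdef]
      exact (hYZ j A).1)
    (fun j => by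
      have := hFbad j
      convert this)
    hCa hCb hCb₀
  -- the upper bound of the sum
  have hFle : ∑ n ∈ Ioc N (2 * N), W n *
      (if RoB Bd z₀ n then (ff g1 (PQ z₀ R') Y (oF (PQ z₀ R') F n)) ^ 2 else 0) *
      ((∑ j, if GoodV N (F j n) then (1 : ℝ) else 0) - M) ≤
      (Bf0 ^ 2 * K) * (#((Ioc N (2 * N)).filter (fun n => RoB Bd z₀ n ∧
        M + 1 ≤ #(univ.filter (fun j => GoodV N (F j n))))) : ℝ) := by
    rw [← sum_boole, mul_sum]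
    refine sum_le_sum fun n hn => ?_
    refine F_le W (fun n => (ff g1 (PQ z₀ R') Y (oF (PQ z₀ R') F n)) ^ 2) z₀ F Bd N M n (Bf0 ^ 2)
      (hW01 n) (sq_nonneg _) ?_
    rw [← sq_abs]
    apply pow_le_pow_left₀ (abs_nonneg _)
    rw [hBf0]
    refine hffb Y₀ Y hY₀0 (fun A => ?_) n hn
    rw [hYdef, hY₀def]
    exact (hYY A).1
  have hfin := htotal.trans hFle
  -- the main term
  obtain ⟨X, hX⟩ : ∃ X : ℝ, X = ∑ n ∈ Ioc N (2 * N), W n := ⟨_, rfl⟩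
  rw [← hX] at hfin hWsum
  have hX0 : 0 ≤ X := le_trans (by positivity) hWsum
  have hXN : X ≤ N := by
    rw [hX]
    have h1 : ∑ n ∈ Ioc N (2 * N), W n ≤ ∑ _n ∈ Ioc N (2 * N), (1 : ℝ) :=
      sum_le_sum fun n _ => (hW01 n).2
    refine h1.trans (le_of_eq ?_)
    rw [sum_const, Nat.card_Ioc, nsmul_eq_mul, mul_one]
    congr 1
    omega
  have hpar := par_alg M L K cn Cn c1 v t₀ δ s1 s2 hL1 hK1 hcn hCn0 hc1 hv0 hδ0 hLL ht₀def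
    hs1ge hs2ge hs2le
  have hκle : κ₀ ≤ K * (1 / 8 * s1 ^ 2 * s2 ^ (K - 1)) * (c1 * δ / 2) - M * (2 * s2 ^ K) := by
    refine le_trans ?_ hpar
    rw [hκ₀]
    apply mul_le_mul_of_nonneg_right _ (by positivity)
    exact pow_le_pow_left₀ (by positivity) hs2ge _
  have hVge : cV / (Real.log N) ^ κ ≤ V := by
    have h1 := hV Bd z₀ hκb hsm hhalf (by omega)
    rw [← hVdef] at h1
    refine le_trans ?_ h1
    have hlz : 0 < Real.log z₀ := Real.log_pos (by linarith only [hz₀r])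
    have hlzN : Real.log z₀ ≤ Real.log N :=
      Real.log_le_log (by linarith only [hz₀r]) (by exact_mod_cast hz₀N)
    exact div_le_div_of_nonneg_left hcV.le (by positivity) (pow_le_pow_left₀ hlz.le hlzN κ)
  have hmainlow : cs * (N / (Real.log N) ^ κ) ≤
      X * V * (K * (1 / 8 * s1 ^ 2 * s2 ^ (K - 1)) * (c1 * δ / 2) - M * (2 * s2 ^ K)) := by
    calc cs * (N / (Real.log N) ^ κ)
        = (c₀ * N) * (cV / (Real.log N) ^ κ) * κ₀ := by rw [hcs]; ring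
      _ ≤ X * V * κ₀ := by
          apply mul_le_mul_of_nonneg_right _ hκ₀0.le
          exact mul_le_mul hWsum hVge (by positivity) hX0
      _ ≤ _ := mul_le_mul_of_nonneg_left hκle (by positivity)
  -- the error terms
  have hCbC : Cb = Cc * R ^ 4 := by rw [hCb, hCc]; ring
  have hCb₀C : Cb₀ = Cc0 * R ^ 4 := by rw [hCb₀, hCc0]; ring
  have hDRE : D ^ 3 * R ^ 4 * E₀ ≤ (N : ℝ) ^ (1 - η / 2) := by
    calc D ^ 3 * R ^ 4 * E₀ ≤ ((N : ℝ) ^ (η / 8)) ^ 3 * (N : ℝ) ^ (η / 8) * E₀ := by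
          apply mul_le_mul_of_nonneg_right _ hE₀0
          exact mul_le_mul (pow_le_pow_left₀ (by linarith only [hD1]) hDN 3) hR4 (by positivity)
            (by positivity)
      _ = (N : ℝ) ^ (1 - η / 2) := by
          rw [hE₀, ← Real.rpow_natCast, ← Real.rpow_mul hN0.le, ← Real.rpow_add hN0,
            ← Real.rpow_add hN0]
          congr 1
          push_cast
          ring
  have hVXu : V * X * u₀ ≤ (Cu / δ) * (N : ℝ) ^ (1 - δ) := by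
    have h1 : V * X ≤ 1 * N := mul_le_mul hV1 hXN hX0 zero_le_one
    have h2 : u₀ * N = (Cu / δ) * (N : ℝ) ^ (1 - δ) := by
      rw [hu₀, Real.rpow_sub hN0, Real.rpow_one]
      field_simp
    calc V * X * u₀ ≤ 1 * N * u₀ := mul_le_mul_of_nonneg_right h1 hu₀0
      _ = u₀ * N := by ring
      _ = _ := h2
  have herrs : K * (3 * V * X * u₀ * Ca + 2 * D ^ 3 * (Bk k * E₀) * Cb +
        Bf ^ 2 * (2 * (N : ℝ) ^ ((19 : ℝ) / 20))) + M * (D ^ 3 * E₀ * Cb₀) ≤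
      e1 * (N : ℝ) ^ (1 - δ) + e2 * (N : ℝ) ^ (1 - η / 2) + e3 * (N : ℝ) ^ ((19 : ℝ) / 20) := by
    have a1 : K * (3 * V * X * u₀ * Ca) ≤ e1 * (N : ℝ) ^ (1 - δ) := by
      calc K * (3 * V * X * u₀ * Ca) = (K * 3 * Ca) * (V * X * u₀) := by ring
        _ ≤ (K * 3 * Ca) * ((Cu / δ) * (N : ℝ) ^ (1 - δ)) :=
          mul_le_mul_of_nonneg_left hVXu (by positivity)
        _ = _ := by rw [he1]; ring
    have a2 : K * (2 * D ^ 3 * (Bk k * E₀) * Cb) + M * (D ^ 3 * E₀ * Cb₀) ≤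
        e2 * (N : ℝ) ^ (1 - η / 2) := by
      rw [hCbC, hCb₀C]
      calc K * (2 * D ^ 3 * (Bk k * E₀) * (Cc * R ^ 4)) + M * (D ^ 3 * E₀ * (Cc0 * R ^ 4))
          = e2 * (D ^ 3 * R ^ 4 * E₀) := by rw [he2]; ring
        _ ≤ _ := mul_le_mul_of_nonneg_left hDRE he2_0
    have a3 : K * (Bf ^ 2 * (2 * (N : ℝ) ^ ((19 : ℝ) / 20))) = e3 * (N : ℝ) ^ ((19 : ℝ) / 20) := by
      rw [he3]; ring
    linarith only [a1, a2, a3]
  have hend : cs / 2 * (N / (Real.log N) ^ κ) ≤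
      (Bf0 ^ 2 * K) * (#((Ioc N (2 * N)).filter (fun n => RoB Bd z₀ n ∧
        M + 1 ≤ #(univ.filter (fun j => GoodV N (F j n))))) : ℝ) := by
    linarith only [hfin, hmainlow, herrs, hx6, hx7, hx8]
  have hcardle : (#((Ioc N (2 * N)).filter (fun n => RoB Bd z₀ n ∧
        M + 1 ≤ #(univ.filter (fun j => GoodV N (F j n))))) : ℝ) ≤
      (#((Ioc N (2 * N)).filter (fun n => RoB Bd (pw N δ) n ∧
        m + 1 ≤ #(univ.filter (fun j => GoodV N (F j n))))) : ℝ) := by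
    rw [← hz₀]
    have : #((Ioc N (2 * N)).filter (fun n => RoB Bd z₀ n ∧
        M + 1 ≤ #(univ.filter (fun j => GoodV N (F j n))))) ≤
      #((Ioc N (2 * N)).filter (fun n => RoB Bd z₀ n ∧
        m + 1 ≤ #(univ.filter (fun j => GoodV N (F j n))))) := by
      apply card_le_card
      intro n hn
      rw [mem_filter] at hn ⊢
      exact ⟨hn.1, hn.2.1, by omega⟩
    exact_mod_cast this
  have hBK : 0 < Bf0 ^ 2 * K := by positivity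
  calc cs / (2 * (Bf0 ^ 2 * K)) * (N / (Real.log N) ^ κ)
      = (cs / 2 * (N / (Real.log N) ^ κ)) / (Bf0 ^ 2 * K) := by field_simp
    _ ≤ ((Bf0 ^ 2 * K) * (#((Ioc N (2 * N)).filter (fun n => RoB Bd z₀ n ∧
        M + 1 ≤ #(univ.filter (fun j => GoodV N (F j n))))) : ℝ)) / (Bf0 ^ 2 * K) :=
        div_le_div_of_nonneg_right hend hBK.le
    _ = (#((Ioc N (2 * N)).filter (fun n => RoB Bd z₀ n ∧
        M + 1 ≤ #(univ.filter (fun j => GoodV N (F j n))))) : ℝ) := by field_simp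
    _ ≤ _ := hcardle

end Pool.Agent.Work.MP_2dba45_nt.TG
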