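import Mathlib
import Pool.Agent.Work.MP_2dba45_nt.BilW

set_option autoImplicit false

/-!
The weight `W j K N` is slowly varying.
-/

namespace Pool.Agent.Work.MP_2dba45_nt.TG

open Finset Pool.Agent.Work.MP_2dba45_nt.Bil

/-- representations with a prescribed first coordinate -/
theorem card_fix (j K N n a : ℕ) :
    #{i : Fin (j + 2) → Fin K | N + 1 + ∑ t, (i t : ℕ) = n ∧ (i 0 : ℕ) = a} ≤ K ^ j := by
  have h1 : #{i : Fin (j + 2) → Fin K | N + 1 + ∑ t, (i t : ℕ) = n ∧ (i 0 : ℕ) = a} ≤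
      #(univ : Finset (Fin j → Fin K)) := by
    apply card_le_card_of_injOn (fun i => Fin.tail (Fin.tail i))
      (fun _ _ => mem_coe.2 (mem_univ _))
    intro i hi i' hi' h
    rw [mem_coe, mem_filter] at hi hi'
    have h2 := hi.2.1
    have h3 := hi'.2.1
    rw [Fin.sum_univ_succ, Fin.sum_univ_succ] at h2 h3
    have h4 : ∑ t : Fin j, (i t.succ.succ : ℕ) = ∑ t : Fin j, (i' t.succ.succ : ℕ) :=
      sum_congr rfl fun t _ => by
        have := congrFun h t
        simp only [Fin.tail] at this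
        rw [this]
    have h5 : i 0 = i' 0 := Fin.ext (by rw [hi.2.2, hi'.2.2])
    have h5' : (i 0 : ℕ) = (i' 0 : ℕ) := by rw [h5]
    have h6 : i (Fin.succ 0) = i' (Fin.succ 0) := Fin.ext (by omega)
    have h7 : Fin.tail i = Fin.tail i' := by
      rw [← Fin.cons_self_tail (Fin.tail i), ← Fin.cons_self_tail (Fin.tail i')]
      have h8 : Fin.tail i 0 = Fin.tail i' 0 := h6
      rw [h8]
      exact congrArg _ h
    rw [← Fin.cons_self_tail i, ← Fin.cons_self_tail i', h5, h7]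
  have h2 : #(univ : Finset (Fin j → Fin K)) = K ^ j := by
    rw [card_univ, Fintype.card_fun, Fintype.card_fin, Fintype.card_fin]
  rw [h2] at h1
  exact h1

theorem card_up (j K N n : ℕ) :
    #{i : Fin (j + 2) → Fin K | N + 1 + ∑ t, (i t : ℕ) = n} ≤
      #{i : Fin (j + 2) → Fin K | N + 1 + ∑ t, (i t : ℕ) = n + 1} + K ^ j := by
  classical
  have h1 : (univ.filter fun i : Fin (j + 2) → Fin K => N + 1 + ∑ t, (i t : ℕ) = n) ⊆
      (univ.filter fun i : Fin (j + 2) → Fin K =>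
        N + 1 + ∑ t, (i t : ℕ) = n ∧ (i 0 : ℕ) + 1 < K) ∪
      (univ.filter fun i : Fin (j + 2) → Fin K =>
        N + 1 + ∑ t, (i t : ℕ) = n ∧ (i 0 : ℕ) = K - 1) := by
    intro i hi
    rw [mem_filter] at hi
    rw [mem_union, mem_filter, mem_filter]
    have := (i 0).2
    by_cases h : (i 0 : ℕ) + 1 < K
    · exact Or.inl ⟨mem_univ _, hi.2, h⟩
    · exact Or.inr ⟨mem_univ _, hi.2, by omega⟩
  refine (card_le_card h1).trans ((card_union_le _ _).trans (add_le_add ?_ (card_fix j K N n _)))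
  apply card_le_card_of_injOn (fun i => if h : (i 0 : ℕ) + 1 < K then
    Fin.cons ⟨(i 0 : ℕ) + 1, h⟩ (Fin.tail i) else i)
  · intro i hi
    rw [mem_coe, mem_filter] at hi
    rw [mem_coe, mem_filter]
    refine ⟨mem_univ _, ?_⟩
    have h2 := hi.2.1
    simp only [dif_pos hi.2.2]
    rw [Fin.sum_univ_succ] at h2 ⊢
    simp only [Fin.cons_zero, Fin.cons_succ, Fin.tail]
    omega
  · intro i hi i' hi' h
    rw [mem_coe, mem_filter] at hi hi'
    simp only [dif_pos hi.2.2, dif_pos hi'.2.2] at h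
    have h2 := Fin.cons_inj.1 h
    have h3 : (i 0 : ℕ) + 1 = (i' 0 : ℕ) + 1 := by
      have := h2.1
      rw [Fin.mk.injEq] at this
      exact this
    have h4 : i 0 = i' 0 := Fin.ext (by omega)
    rw [← Fin.cons_self_tail i, ← Fin.cons_self_tail i', h4, h2.2]

theorem card_down (j K N n : ℕ) :
    #{i : Fin (j + 2) → Fin K | N + 1 + ∑ t, (i t : ℕ) = n + 1} ≤
      #{i : Fin (j + 2) → Fin K | N + 1 + ∑ t, (i t : ℕ) = n} + K ^ j := by
  classical
  have h1 : (univ.filter fun i : Fin (j + 2) → Fin K => N + 1 + ∑ t, (i t : ℕ) = n + 1) ⊆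
      (univ.filter fun i : Fin (j + 2) → Fin K =>
        N + 1 + ∑ t, (i t : ℕ) = n + 1 ∧ 0 < (i 0 : ℕ)) ∪
      (univ.filter fun i : Fin (j + 2) → Fin K =>
        N + 1 + ∑ t, (i t : ℕ) = n + 1 ∧ (i 0 : ℕ) = 0) := by
    intro i hi
    rw [mem_filter] at hi
    rw [mem_union, mem_filter, mem_filter]
    by_cases h : 0 < (i 0 : ℕ)
    · exact Or.inl ⟨mem_univ _, hi.2, h⟩
    · exact Or.inr ⟨mem_univ _, hi.2, by omega⟩
  refine (card_le_card h1).trans ((card_union_le _ _).trans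
    (add_le_add ?_ (card_fix j K N (n + 1) _)))
  have hlt : ∀ i : Fin (j + 2) → Fin K, (i 0 : ℕ) - 1 < K := fun i => by
    have := (i 0).2
    omega
  apply card_le_card_of_injOn (fun i => Fin.cons ⟨(i 0 : ℕ) - 1, hlt i⟩ (Fin.tail i))
  · intro i hi
    rw [mem_coe, mem_filter] at hi
    rw [mem_coe, mem_filter]
    refine ⟨mem_univ _, ?_⟩
    have h2 := hi.2.1
    have h3 := hi.2.2
    rw [Fin.sum_univ_succ] at h2 ⊢
    simp only [Fin.cons_zero, Fin.cons_succ, Fin.tail]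
    omega
  · intro i hi i' hi' h
    rw [mem_coe, mem_filter] at hi hi'
    have h2 := Fin.cons_inj.1 h
    have h3 : (i 0 : ℕ) - 1 = (i' 0 : ℕ) - 1 := by
      have := h2.1
      rw [Fin.mk.injEq] at this
      exact this
    have h5 := hi.2.2
    have h6 := hi'.2.2
    have h4 : i 0 = i' 0 := Fin.ext (by omega)
    rw [← Fin.cons_self_tail i, ← Fin.cons_self_tail i', h4, h2.2]

/-- one step changes the weight by at most `1 / K` -/
theorem W_step (j K N n : ℕ) (hj : 2 ≤ j) (hK : 1 ≤ K) :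
    |W j K N (n + 1) - W j K N n| ≤ 1 / K := by
  obtain ⟨j, rfl⟩ : ∃ k, j = k + 2 := ⟨j - 2, by omega⟩
  have hK' : (0 : ℝ) < K := by exact_mod_cast hK
  have h1 : (#{i : Fin (j + 2) → Fin K | N + 1 + ∑ t, (i t : ℕ) = n} : ℝ) ≤
      #{i : Fin (j + 2) → Fin K | N + 1 + ∑ t, (i t : ℕ) = n + 1} + (K : ℝ) ^ j := by
    exact_mod_cast card_up j K N n
  have h2 : (#{i : Fin (j + 2) → Fin K | N + 1 + ∑ t, (i t : ℕ) = n + 1} : ℝ) ≤
      #{i : Fin (j + 2) → Fin K | N + 1 + ∑ t, (i t : ℕ) = n} + (K : ℝ) ^ j := by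
    exact_mod_cast card_down j K N n
  unfold W
  have e1 : j + 2 - 1 = j + 1 := by omega
  rw [e1, ← sub_div, abs_div, abs_of_pos (by positivity : (0 : ℝ) < (K : ℝ) ^ (j + 1)),
    div_le_div_iff₀ (by positivity) hK', one_mul, pow_succ]
  apply mul_le_mul_of_nonneg_right _ hK'.le
  rw [abs_le]
  constructor <;> linarith

theorem W_shift (j K N n h : ℕ) (hj : 2 ≤ j) (hK : 1 ≤ K) :
    |W j K N (n + h) - W j K N n| ≤ h / K := by
  induction h with
  | zero => simp
  | succ h ih =>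
    have h1 := W_step j K N (n + h) hj hK
    have h2 : W j K N (n + (h + 1)) - W j K N n =
        (W j K N (n + h + 1) - W j K N (n + h)) + (W j K N (n + h) - W j K N n) := by
      rw [← add_assoc]; ring
    rw [h2]
    refine (abs_add_le _ _).trans ((add_le_add h1 ih).trans (le_of_eq ?_))
    push_cast
    ring

end Pool.Agent.Work.MP_2dba45_nt.TG
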