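import Mathlib
import Pool.Agent.Work.MP_2dba45_nt.TG.Def
import Pool.Agent.Work.MP_2dba45_nt.TG.GBil
import Pool.Agent.Work.MP_2dba45_nt.DivB
import Pool.Agent.Work.MP_2dba45_nt.Weil.Final

set_option autoImplicit false

/-!
The bilinear remainder bound for the shifted forms `(n + h) ^ 2 + g ^ 2`.
-/

namespace Pool.Agent.Work.MP_2dba45_nt.TG

open Finset Pool.Agent.Work.MP_2dba45_nt.BilDef Pool.Agent.Work.MP_2dba45_nt.Sv
  Pool.Agent.Work.MP_73869e_nt.SK Pool.Agent.Work.MP_73869e_nt.TH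

theorem remF_sub (W : ℕ → ℝ) (N h g D r c : ℕ) (C₁ : ℝ) (hC₁ : 0 ≤ C₁) (hhN : h ≤ N)
    (hsupp : ∀ n, n ≤ N ∨ 2 * N < n → W n = 0)
    (hlip : ∀ n h : ℕ, |W (n + h) - W n| ≤ C₁ * h / N) :
    |RemF W N (fun n => (n + h) ^ 2 + g ^ 2) D r c -
      Pool.Agent.Work.MP_73869e_nt.BG.RemG W N D g r (c + h)| ≤
      (C₁ * h / N) * #((Ioc N (3 * N)).filter (fun n => D ∣ n ^ 2 + g ^ 2)) := by
  classical
  set S := (Ioc N (3 * N)).filter (fun n => n ≡ c + h [MOD r] ∧ D ∣ n ^ 2 + g ^ 2) with hS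
  have e1 : ∑ n ∈ (Ioc N (2 * N)).filter (fun n => n ≡ c [MOD r] ∧ D ∣ (n + h) ^ 2 + g ^ 2), W n =
      ∑ n ∈ S, W (n - h) := by
    have h1 : ∑ n ∈ ((Ioc N (2 * N)).filter
        (fun n => n ≡ c [MOD r] ∧ D ∣ (n + h) ^ 2 + g ^ 2)).image (fun n => n + h), W (n - h) =
        ∑ n ∈ S, W (n - h) := by
      apply sum_subset
      · intro n hn
        rw [mem_image] at hn
        obtain ⟨x, hx, rfl⟩ := hn
        rw [mem_filter, mem_Ioc] at hx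
        rw [hS, mem_filter, mem_Ioc]
        exact ⟨⟨by omega, by omega⟩, hx.2.1.add_right h, hx.2.2⟩
      · intro n hn hn2
        rw [hS, mem_filter, mem_Ioc] at hn
        by_contra hne
        apply hn2
        rw [mem_image]
        have h2 : ¬ (n - h ≤ N ∨ 2 * N < n - h) := fun h3 => hne (hsupp _ h3)
        push Not at h2
        refine ⟨n - h, ?_, by omega⟩
        have h3 : n - h + h = n := by omega
        rw [mem_filter, mem_Ioc, h3]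
        refine ⟨⟨by omega, by omega⟩, ?_, hn.2.2⟩
        apply Nat.ModEq.add_right_cancel' h
        rw [h3]
        exact hn.2.1
    rw [← h1, sum_image (fun a _ b _ hab => by simpa using hab)]
    refine sum_congr rfl fun n _ => ?_
    rw [Nat.add_sub_cancel]
  have e2 : ∑ n ∈ (Ioc N (2 * N)).filter (fun n => n ≡ c + h [MOD r] ∧ D ∣ n ^ 2 + g ^ 2), W n =
      ∑ n ∈ S, W n := by
    apply sum_subset
    · intro n hn
      rw [mem_filter, mem_Ioc] at hn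
      rw [hS, mem_filter, mem_Ioc]
      exact ⟨⟨by omega, by omega⟩, hn.2⟩
    · intro n hn hn2
      rw [hS, mem_filter, mem_Ioc] at hn
      apply hsupp
      right
      by_contra hcon
      apply hn2
      rw [mem_filter, mem_Ioc]
      exact ⟨⟨by omega, by omega⟩, hn.2⟩
  unfold RemF Pool.Agent.Work.MP_73869e_nt.BG.RemG
  rw [e1, e2, sub_sub_sub_cancel_right, ← sum_sub_distrib]
  refine (abs_sum_le_sum_abs _ _).trans ?_
  have h1 : ∀ n ∈ S, |W (n - h) - W n| ≤ C₁ * h / N := by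
    intro n hn
    rw [hS, mem_filter, mem_Ioc] at hn
    have h2 := hlip (n - h) h
    have h3 : n - h + h = n := by omega
    rw [h3, abs_sub_comm] at h2
    exact h2
  refine (sum_le_card_nsmul _ _ _ h1).trans ?_
  rw [nsmul_eq_mul, mul_comm]
  apply mul_le_mul_of_nonneg_left _ (by positivity)
  have : #S ≤ #((Ioc N (3 * N)).filter (fun n => D ∣ n ^ 2 + g ^ 2)) := by
    apply card_le_card
    intro n hn
    rw [hS, mem_filter] at hn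
    exact mem_filter.2 ⟨hn.1, hn.2.2⟩
  exact_mod_cast this

/-- counting pairs `(m, q)` with `m q ∣ v` -/
theorem pairs_le (M Q v : ℕ) (hv : 0 < v) :
    ∑ m ∈ Icc 1 M, ∑ q ∈ Icc 1 Q, (if m * q ∣ v then (1 : ℝ) else 0) ≤ (#v.divisors : ℝ) ^ 2 := by
  have h1 : ∀ M : ℕ, ∑ m ∈ Icc 1 M, (if m ∣ v then (1 : ℝ) else 0) ≤ #v.divisors := by
    intro M
    rw [← sum_filter, sum_const, nsmul_eq_mul, mul_one]
    have : #((Icc 1 M).filter (fun m => m ∣ v)) ≤ #v.divisors := by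
      apply card_le_card
      intro m hm
      rw [mem_filter] at hm
      exact Nat.mem_divisors.2 ⟨hm.2, hv.ne'⟩
    exact_mod_cast this
  have h2 : ∑ m ∈ Icc 1 M, ∑ q ∈ Icc 1 Q, (if m * q ∣ v then (1 : ℝ) else 0) ≤
      (∑ m ∈ Icc 1 M, (if m ∣ v then (1 : ℝ) else 0)) *
        ∑ q ∈ Icc 1 Q, (if q ∣ v then (1 : ℝ) else 0) := by
    rw [sum_mul_sum]
    refine sum_le_sum fun m _ => sum_le_sum fun q _ => ?_
    by_cases h : m * q ∣ v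
    · rw [if_pos h, if_pos ((Dvd.intro _ rfl).trans h), if_pos ((Dvd.intro_left _ rfl).trans h)]
      norm_num
    · rw [if_neg h]
      split_ifs <;> norm_num
  refine h2.trans ?_
  rw [sq]
  apply mul_le_mul (h1 M) (h1 Q) _ (Nat.cast_nonneg _)
  exact sum_nonneg fun q _ => by split_ifs <;> norm_num

theorem bilH : ∃ η : ℝ, 0 < η ∧ ∃ c₀ : ℝ, 0 < c₀ ∧ ∃ N₀ : ℕ,
    ∀ N : ℕ, N₀ ≤ N → ∃ W : ℕ → ℝ, (∀ n, 0 ≤ W n ∧ W n ≤ 1) ∧
      c₀ * N ≤ ∑ n ∈ Ioc N (2 * N), W n ∧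
      ∀ h g r c : ℕ, 1 ≤ g → (g : ℝ) ≤ (Real.log N) ^ 2 → (h : ℝ) ≤ (Real.log N) ^ 2 →
        Squarefree r → (r : ℝ) ≤ (N : ℝ) ^ η →
        ∀ M Q : ℝ, M ≤ (N : ℝ) ^ (1 - (1 : ℝ) / 1200) → Q ≤ (N : ℝ) ^ ((1 : ℝ) / 12 - 1 / 1200) →
          ∀ b : ℕ → ℝ, (∀ q, |b q| ≤ 1) →
            ∑ m ∈ (Icc 1 ⌊M⌋₊).filter (fun m => m.Coprime (g * r)),
              |∑ q ∈ (Icc 1 ⌊Q⌋₊).filter (fun q => Squarefree q ∧ q.Coprime (2 * m * (g * r))),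
                b q * RemF W N (fun n => (n + h) ^ 2 + g ^ 2) (m * q) r c| ≤
              (N : ℝ) ^ (1 - η) := by
  have hWeil : Pool.Agent.Work.MP_2dba45_nt.Bil.WeilBound :=
    fun p hp a b hb => Pool.Agent.Work.MP_2dba45_nt.Weil.weil p a b hb
  obtain ⟨η, hη, c₀, hc₀, C₁, hC₁, N₁, hB⟩ := bilL hWeil (1 / 1200) (by norm_num) (by norm_num)
  obtain ⟨Cd, hCd1, hCd⟩ := DivB.card_divisors_le 16 (by norm_num)
  set η' : ℝ := min (η / 2) (1 / 4) with hη'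
  have hη'0 : 0 < η' := lt_min (by positivity) (by norm_num)
  have hη'1 : η' ≤ η / 2 := min_le_left _ _
  have hη'2 : η' ≤ 1 / 4 := min_le_right _ _
  have hev : ∀ᶠ N : ℕ in Filter.atTop,
      (2 : ℝ) * (N : ℝ) ^ (1 - η) ≤ (N : ℝ) ^ (1 - η') ∧
      (4 * C₁ * Cd ^ 2 * 10) * (N : ℝ) ^ ((1 : ℝ) / 2) ≤ (N : ℝ) ^ (1 - η') ∧
      (Real.log N) ^ 2 ≤ (N : ℝ) ^ η ∧ (Real.log N) ^ 2 ≤ (N : ℝ) ^ ((1 : ℝ) / 4) ∧
      (Real.log N) ^ 2 ≤ (N : ℝ) ^ (1 : ℝ) := by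
    filter_upwards [fin_ev2 (1 - η) (1 - η') 2 (by linarith),
      fin_ev2 ((1 : ℝ) / 2) (1 - η') (4 * C₁ * Cd ^ 2 * 10) (by linarith),
      log_ev η 2 hη, log_ev (1 / 4) 2 (by norm_num), log_ev 1 2 (by norm_num)]
      with N h1 h2 h3 h4 h5
    exact ⟨h1, h2, h3, h4, h5⟩
  obtain ⟨N₂, hN₂⟩ := Filter.eventually_atTop.mp hev
  refine ⟨η', hη'0, c₀, hc₀, max (max N₁ N₂) 2, fun N hN => ?_⟩
  have hNN1 : N₁ ≤ N := (le_max_left _ _).trans ((le_max_left _ _).trans hN)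
  have hNN2 : N₂ ≤ N := (le_max_right _ _).trans ((le_max_left _ _).trans hN)
  have hN2 : 2 ≤ N := (le_max_right _ _).trans hN
  obtain ⟨hx1, hx2, hx3, hx4, hx5⟩ := hN₂ N hNN2
  rw [Real.rpow_one] at hx5
  obtain ⟨W, hW01, hWsupp, hWsum, hlip, hbil⟩ := hB N hNN1
  have hN0 : (0 : ℝ) < N := by positivity
  have hN1 : (1 : ℝ) ≤ N := by exact_mod_cast (by omega : 1 ≤ N)
  refine ⟨W, hW01, hWsum, ?_⟩
  intro h g r c hg hgN hhN hr hrN M Q hM hQ b hb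
  have hhN' : h ≤ N := by
    have : (h : ℝ) ≤ N := hhN.trans hx5
    exact_mod_cast this
  have hgN' : g ≤ N := by
    have : (g : ℝ) ≤ N := hgN.trans hx5
    exact_mod_cast this
  have hrη : (r : ℝ) ≤ (N : ℝ) ^ η :=
    hrN.trans (Real.rpow_le_rpow_of_exponent_le hN1 (by linarith))
  have hmain := hbil g r (c + h) hg (hgN.trans hx3) hr hrη M Q hM hQ b hb
  set A := (Icc 1 ⌊M⌋₊).filter (fun m => m.Coprime (g * r)) with hA
  set f : ℕ → ℕ := fun n => (n + h) ^ 2 + g ^ 2 with hf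
  have hterm : ∀ m ∈ A, |∑ q ∈ (Icc 1 ⌊Q⌋₊).filter
        (fun q => Squarefree q ∧ q.Coprime (2 * m * (g * r))), b q * RemF W N f (m * q) r c| ≤
      |∑ q ∈ (Icc 1 ⌊Q⌋₊).filter (fun q => Squarefree q ∧ q.Coprime (2 * m * (g * r))),
        b q * Pool.Agent.Work.MP_73869e_nt.BG.RemG W N (m * q) g r (c + h)| +
      ∑ q ∈ Icc 1 ⌊Q⌋₊, (C₁ * h / N) *
        (#((Ioc N (3 * N)).filter (fun n => m * q ∣ n ^ 2 + g ^ 2)) : ℝ) := by
    intro m _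
    have h1 : ∑ q ∈ (Icc 1 ⌊Q⌋₊).filter
        (fun q => Squarefree q ∧ q.Coprime (2 * m * (g * r))), b q * RemF W N f (m * q) r c =
        ∑ q ∈ (Icc 1 ⌊Q⌋₊).filter (fun q => Squarefree q ∧ q.Coprime (2 * m * (g * r))),
        b q * Pool.Agent.Work.MP_73869e_nt.BG.RemG W N (m * q) g r (c + h) +
        ∑ q ∈ (Icc 1 ⌊Q⌋₊).filter (fun q => Squarefree q ∧ q.Coprime (2 * m * (g * r))),
        b q * (RemF W N f (m * q) r c -
          Pool.Agent.Work.MP_73869e_nt.BG.RemG W N (m * q) g r (c + h)) := by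
      rw [← sum_add_distrib]
      refine sum_congr rfl fun q _ => ?_
      ring
    rw [h1]
    refine (abs_add_le _ _).trans (add_le_add le_rfl ?_)
    refine (abs_sum_le_sum_abs _ _).trans ?_
    refine (sum_le_sum fun q _ => ?_).trans
      (sum_le_sum_of_subset_of_nonneg (filter_subset _ _) fun q _ _ => by positivity)
    rw [abs_mul]
    have h2 := remF_sub W N h g (m * q) r c C₁ hC₁.le hhN' hWsupp hlip
    calc |b q| * |RemF W N f (m * q) r c -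
          Pool.Agent.Work.MP_73869e_nt.BG.RemG W N (m * q) g r (c + h)|
        ≤ 1 * ((C₁ * h / N) * #((Ioc N (3 * N)).filter (fun n => m * q ∣ n ^ 2 + g ^ 2))) :=
          mul_le_mul (hb q) h2 (abs_nonneg _) zero_le_one
      _ = _ := one_mul _
  refine (sum_le_sum hterm).trans ?_
  rw [sum_add_distrib]
  have herr : ∑ m ∈ A, ∑ q ∈ Icc 1 ⌊Q⌋₊, (C₁ * h / N) *
        (#((Ioc N (3 * N)).filter (fun n => m * q ∣ n ^ 2 + g ^ 2)) : ℝ) ≤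
      (C₁ * h / N) * (2 * N * (Cd ^ 2 * 10 * (N : ℝ) ^ ((1 : ℝ) / 4))) := by
    have h1 : ∑ m ∈ A, ∑ q ∈ Icc 1 ⌊Q⌋₊, (C₁ * h / N) *
        (#((Ioc N (3 * N)).filter (fun n => m * q ∣ n ^ 2 + g ^ 2)) : ℝ) ≤
        ∑ m ∈ Icc 1 ⌊M⌋₊, ∑ q ∈ Icc 1 ⌊Q⌋₊, (C₁ * h / N) *
        (#((Ioc N (3 * N)).filter (fun n => m * q ∣ n ^ 2 + g ^ 2)) : ℝ) :=
      sum_le_sum_of_subset_of_nonneg (filter_subset _ _)
        fun m _ _ => sum_nonneg fun q _ => by positivity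
    refine h1.trans ?_
    simp only [← mul_sum]
    apply mul_le_mul_of_nonneg_left _ (by positivity)
    have h2 : ∑ m ∈ Icc 1 ⌊M⌋₊, ∑ q ∈ Icc 1 ⌊Q⌋₊,
        (#((Ioc N (3 * N)).filter (fun n => m * q ∣ n ^ 2 + g ^ 2)) : ℝ) =
        ∑ n ∈ Ioc N (3 * N), ∑ m ∈ Icc 1 ⌊M⌋₊, ∑ q ∈ Icc 1 ⌊Q⌋₊,
          (if m * q ∣ n ^ 2 + g ^ 2 then (1 : ℝ) else 0) := by
      have h3 : ∀ m q : ℕ, (#((Ioc N (3 * N)).filter (fun n => m * q ∣ n ^ 2 + g ^ 2)) : ℝ) =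
          ∑ n ∈ Ioc N (3 * N), (if m * q ∣ n ^ 2 + g ^ 2 then (1 : ℝ) else 0) := fun m q => by
        rw [sum_boole]
      simp only [h3]
      rw [sum_comm]
      rw [sum_congr rfl fun q _ => sum_comm]
      rw [sum_comm]
      refine sum_congr rfl fun n _ => ?_
      rw [sum_comm]
    rw [h2]
    have h4 : ∀ n ∈ Ioc N (3 * N), ∑ m ∈ Icc 1 ⌊M⌋₊, ∑ q ∈ Icc 1 ⌊Q⌋₊,
          (if m * q ∣ n ^ 2 + g ^ 2 then (1 : ℝ) else 0) ≤ Cd ^ 2 * 10 * (N : ℝ) ^ ((1 : ℝ) / 4) := by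
      intro n hn
      rw [mem_Ioc] at hn
      have hv : 0 < n ^ 2 + g ^ 2 := by positivity
      refine (pairs_le ⌊M⌋₊ ⌊Q⌋₊ (n ^ 2 + g ^ 2) hv).trans ?_
      have h5 := hCd (n ^ 2 + g ^ 2) hv
      have h6 : ((n ^ 2 + g ^ 2 : ℕ) : ℝ) ≤ 10 * (N : ℝ) ^ 2 := by
        have a1 : (n : ℝ) ≤ 3 * N := by exact_mod_cast hn.2
        have a2 : (g : ℝ) ≤ N := by exact_mod_cast hgN'
        push_cast
        nlinarith [Nat.cast_nonneg (α := ℝ) n, Nat.cast_nonneg (α := ℝ) g]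
      have h7 : (((n ^ 2 + g ^ 2 : ℕ) : ℝ) ^ ((1 : ℝ) / (16 : ℕ))) ^ 2 ≤
          10 * (N : ℝ) ^ ((1 : ℝ) / 4) := by
        rw [← Real.rpow_natCast, ← Real.rpow_mul (Nat.cast_nonneg _)]
        have e1 : (1 : ℝ) / (16 : ℕ) * (2 : ℕ) = 1 / 8 := by norm_num
        rw [e1]
        calc ((n ^ 2 + g ^ 2 : ℕ) : ℝ) ^ ((1 : ℝ) / 8) ≤ (10 * (N : ℝ) ^ 2) ^ ((1 : ℝ) / 8) :=
              Real.rpow_le_rpow (Nat.cast_nonneg _) h6 (by norm_num)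
          _ = (10 : ℝ) ^ ((1 : ℝ) / 8) * (N : ℝ) ^ ((1 : ℝ) / 4) := by
              rw [Real.mul_rpow (by norm_num) (by positivity), ← Real.rpow_natCast (N : ℝ) 2,
                ← Real.rpow_mul hN0.le]
              norm_num
          _ ≤ 10 * (N : ℝ) ^ ((1 : ℝ) / 4) := by
              apply mul_le_mul_of_nonneg_right _ (by positivity)
              calc (10 : ℝ) ^ ((1 : ℝ) / 8) ≤ (10 : ℝ) ^ (1 : ℝ) :=
                    Real.rpow_le_rpow_of_exponent_le (by norm_num) (by norm_num)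
                _ = 10 := Real.rpow_one _
      calc (#(n ^ 2 + g ^ 2).divisors : ℝ) ^ 2
          ≤ (Cd * ((n ^ 2 + g ^ 2 : ℕ) : ℝ) ^ ((1 : ℝ) / (16 : ℕ))) ^ 2 :=
            pow_le_pow_left₀ (Nat.cast_nonneg _) h5 2
        _ = Cd ^ 2 * (((n ^ 2 + g ^ 2 : ℕ) : ℝ) ^ ((1 : ℝ) / (16 : ℕ))) ^ 2 := by ring
        _ ≤ Cd ^ 2 * (10 * (N : ℝ) ^ ((1 : ℝ) / 4)) :=
            mul_le_mul_of_nonneg_left h7 (by positivity)
        _ = _ := by ring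
    refine (sum_le_card_nsmul _ _ _ h4).trans ?_
    rw [Nat.card_Ioc, nsmul_eq_mul]
    have h5 : ((3 * N - N : ℕ) : ℝ) = 2 * N := by
      have : 3 * N - N = 2 * N := by omega
      rw [this]
      push_cast
      ring
    rw [h5]
  have hfin : (C₁ * h / N) * (2 * N * (Cd ^ 2 * 10 * (N : ℝ) ^ ((1 : ℝ) / 4))) ≤
      (N : ℝ) ^ (1 - η') / 2 := by
    have h1 : (C₁ * h / N) * (2 * N * (Cd ^ 2 * 10 * (N : ℝ) ^ ((1 : ℝ) / 4))) =
        (2 * C₁ * Cd ^ 2 * 10) * (h * (N : ℝ) ^ ((1 : ℝ) / 4)) := by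
      field_simp
    rw [h1]
    have h2 : (h : ℝ) * (N : ℝ) ^ ((1 : ℝ) / 4) ≤ (N : ℝ) ^ ((1 : ℝ) / 2) := by
      calc (h : ℝ) * (N : ℝ) ^ ((1 : ℝ) / 4) ≤ (N : ℝ) ^ ((1 : ℝ) / 4) * (N : ℝ) ^ ((1 : ℝ) / 4) :=
            mul_le_mul_of_nonneg_right (hhN.trans hx4) (by positivity)
        _ = (N : ℝ) ^ ((1 : ℝ) / 2) := by
            rw [← Real.rpow_add hN0]
            norm_num
    have h3 : (2 * C₁ * Cd ^ 2 * 10) * (h * (N : ℝ) ^ ((1 : ℝ) / 4)) ≤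
        (2 * C₁ * Cd ^ 2 * 10) * (N : ℝ) ^ ((1 : ℝ) / 2) :=
      mul_le_mul_of_nonneg_left h2 (by positivity)
    linarith
  linarith

end Pool.Agent.Work.MP_2dba45_nt.TG
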