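import Mathlib
import Pool.Agent.Work.MP_2dba45_nt.TG.Shift
import Pool.Agent.Work.MP_2dba45_nt.TG.GA6

set_option autoImplicit false

/-!
The theorem on clusters for the forms `(n + h i) ^ 2 + (g i) ^ 2`.
-/

namespace Pool.Agent.Work.MP_2dba45_nt.TG

open Finset Pool.Agent.Work.MP_2dba45_nt.BilDef Pool.Agent.Work.MP_2dba45_nt.Sv
  Pool.Agent.Work.MP_73869e_nt.SK Pool.Agent.Work.MP_73869e_nt.TH

/-- the forms -/
def fo {K : ℕ} (h g : Fin K → ℕ) (i : Fin K) (n : ℕ) : ℕ := (n + h i) ^ 2 + (g i) ^ 2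

theorem fo_mod (h g p n r : ℕ) (hr : p ∣ r) :
    p ∣ (n % r + h) ^ 2 + g ^ 2 ↔ p ∣ (n + h) ^ 2 + g ^ 2 := by
  have h1 : n % r ≡ n [MOD p] := (Nat.mod_modEq n r).of_dvd hr
  exact (((h1.add_right h).pow 2).add_right _).dvd_iff dvd_rfl

theorem loc_shift (p h g : ℕ) (hp : p.Prime) (hg : ¬ p ∣ g) :
    #((range p).filter (fun x => p ∣ (x + h) ^ 2 + g ^ 2)) = Nu.nu 1 p := by
  classical
  have hper : Function.Periodic (fun x : ℕ => p ∣ x ^ 2 + g ^ 2) p := by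
    intro x
    have h1 : x + p ≡ x [MOD p] := by simp [Nat.ModEq]
    exact propext (((h1.pow 2).add_right _).dvd_iff dvd_rfl)
  have h1 := Nat.filter_Ico_card_eq_of_periodic h p (fun x : ℕ => p ∣ x ^ 2 + g ^ 2) hper
  have h2 := Nat.filter_Ico_card_eq_of_periodic 0 p (fun x : ℕ => p ∣ x ^ 2 + g ^ 2) hper
  rw [← nu_not_dvd hp hg]
  unfold Nu.nu
  rw [range_eq_Ico]
  rw [zero_add] at h2
  rw [h2, ← h1]
  apply card_bij (fun x _ => x + h)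
  · intro x hx
    rw [mem_filter, mem_Ico] at hx ⊢
    exact ⟨⟨by omega, by omega⟩, hx.2⟩
  · intro a _ b _ hab
    omega
  · intro y hy
    rw [mem_filter, mem_Ico] at hy
    refine ⟨y - h, ?_, by omega⟩
    have h3 : y - h + h = y := by omega
    rw [mem_filter, mem_Ico, h3]
    exact ⟨⟨by omega, by omega⟩, hy.2⟩

theorem exc_aux (p n h₁ g₁ h₂ g₂ L : ℕ) (hp : p.Prime) (hg₁ : 1 ≤ g₁) (hg₁L : g₁ ≤ L)
    (hg₂L : g₂ ≤ L) (hh₁ : h₁ ≤ L) (hh₂ : h₂ ≤ L) (hL : 5 * L ^ 2 < p)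
    (h1 : p ∣ (n + h₁) ^ 2 + g₁ ^ 2) (h2 : p ∣ (n + h₂) ^ 2 + g₂ ^ 2) : h₁ = h₂ ∧ g₁ = g₂ := by
  have hpI : Prime (p : ℤ) := Nat.prime_iff_prime_int.1 hp
  have h1' : (p : ℤ) ∣ ((n : ℤ) + h₁) ^ 2 + (g₁ : ℤ) ^ 2 := by exact_mod_cast h1
  have h2' : (p : ℤ) ∣ ((n : ℤ) + h₂) ^ 2 + (g₂ : ℤ) ^ 2 := by exact_mod_cast h2
  have key : (p : ℤ) ∣ (((g₁ : ℤ) - g₂) ^ 2 + ((h₁ : ℤ) - h₂) ^ 2) *
      (((g₁ : ℤ) + g₂) ^ 2 + ((h₁ : ℤ) - h₂) ^ 2) := by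
    obtain ⟨a, ha⟩ := h1'
    obtain ⟨b, hb⟩ := h2'
    set A : ℤ := (n : ℤ) + h₁ with hA
    set B : ℤ := (n : ℤ) + h₂ with hB
    have hd : (h₁ : ℤ) - h₂ = A - B := by rw [hA, hB]; ring
    rw [hd]
    have e1 : (((g₁ : ℤ) - g₂) ^ 2 + (A - B) ^ 2) * (((g₁ : ℤ) + g₂) ^ 2 + (A - B) ^ 2) =
        ((g₁ : ℤ) ^ 2 + (g₂ : ℤ) ^ 2 + (A - B) ^ 2) ^ 2 - 4 * (g₁ : ℤ) ^ 2 * (g₂ : ℤ) ^ 2 := by ring
    rw [e1]
    have e2 : (g₁ : ℤ) ^ 2 = p * a - A ^ 2 := by linarith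
    have e3 : (g₂ : ℤ) ^ 2 = p * b - B ^ 2 := by linarith
    rw [e2, e3]
    exact ⟨p * a ^ 2 - 2 * p * a * b + p * b ^ 2 - 4 * a * A * B - 4 * b * A * B +
      4 * a * B ^ 2 + 4 * b * A ^ 2, by ring⟩
  have hsmall : ∀ x : ℤ, 0 ≤ x → x ≤ 5 * (L : ℤ) ^ 2 → (p : ℤ) ∣ x → x = 0 := by
    intro x hx0 hx hd
    have h3 : (5 * (L : ℤ) ^ 2) < p := by exact_mod_cast hL
    exact Int.eq_zero_of_dvd_of_nonneg_of_lt hx0 (by linarith) hd |>.symm ▸ rfl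
  have b1 : (g₁ : ℤ) ≤ L := by exact_mod_cast hg₁L
  have b2 : (g₂ : ℤ) ≤ L := by exact_mod_cast hg₂L
  have b3 : (h₁ : ℤ) ≤ L := by exact_mod_cast hh₁
  have b4 : (h₂ : ℤ) ≤ L := by exact_mod_cast hh₂
  have c1 : (1 : ℤ) ≤ g₁ := by exact_mod_cast hg₁
  have c2 : (0 : ℤ) ≤ g₂ := Int.natCast_nonneg _
  have c3 : (0 : ℤ) ≤ h₁ := Int.natCast_nonneg _
  have c4 : (0 : ℤ) ≤ h₂ := Int.natCast_nonneg _
  have d1 : ((h₁ : ℤ) - h₂) ^ 2 ≤ (L : ℤ) ^ 2 := by nlinarith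
  have d2 : ((g₁ : ℤ) - g₂) ^ 2 ≤ (L : ℤ) ^ 2 := by nlinarith
  have d3 : ((g₁ : ℤ) + g₂) ^ 2 ≤ 4 * (L : ℤ) ^ 2 := by nlinarith
  rcases hpI.dvd_or_dvd key with h | h
  · have h3 := hsmall _ (by positivity) (by nlinarith [sq_nonneg (L : ℤ)]) h
    have h4 : ((g₁ : ℤ) - g₂) ^ 2 = 0 := by nlinarith [sq_nonneg ((g₁ : ℤ) - g₂), sq_nonneg ((h₁ : ℤ) - h₂)]
    have h5 : ((h₁ : ℤ) - h₂) ^ 2 = 0 := by nlinarith [sq_nonneg ((g₁ : ℤ) - g₂), sq_nonneg ((h₁ : ℤ) - h₂)]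
    have h6 : (g₁ : ℤ) - g₂ = 0 := by simpa using h4
    have h7 : (h₁ : ℤ) - h₂ = 0 := by simpa using h5
    exact ⟨by omega, by omega⟩
  · have h3 := hsmall _ (by positivity) (by nlinarith) h
    exfalso
    nlinarith [sq_nonneg ((h₁ : ℤ) - h₂)]

open Classical in
/-- the number of exceptional integers for a shifted form -/
theorem bad_shift (N h g : ℕ) :
    #((Ioc N (2 * N)).filter (fun n => BadV N ((n + h) ^ 2 + g ^ 2))) ≤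
      #((Ioc N (2 * N)).filter (fun n => BadK N g n)) + h := by
  have h1 : #((Ioc N (2 * N)).filter (fun n => BadV N ((n + h) ^ 2 + g ^ 2))) ≤
      #((Ioc N (2 * N)).filter (fun n => BadK N g n) ∪ Ioc (2 * N) (2 * N + h)) := by
    apply card_le_card_of_injOn (fun n => n + h)
    · intro n hn
      rw [mem_coe, mem_filter, mem_Ioc] at hn
      rw [mem_coe, mem_union, mem_filter, mem_Ioc, mem_Ioc]
      beta_reduce
      by_cases hc : n + h ≤ 2 * N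
      · exact Or.inl ⟨⟨by omega, hc⟩, hn.2⟩
      · exact Or.inr ⟨by omega, by omega⟩
    · intro a _ b _ hab
      simpa using hab
  refine h1.trans ((card_union_le _ _).trans ?_)
  rw [Nat.card_Ioc]
  omega

open Classical in
/-- The theorem on clusters for `(n + h i) ^ 2 + (g i) ^ 2`. -/
theorem tuple_gen : ∃ C : ℕ, 1 ≤ C ∧ ∀ m K : ℕ, K = 2 ^ (C * (m + 1)) →
    ∀ (δ₁ : ℝ) (κ w : ℕ), 0 < δ₁ →
    ∃ δ c : ℝ, 0 < δ ∧ δ ≤ δ₁ ∧ 0 < c ∧ ∃ N₀ : ℕ, ∀ N : ℕ, N₀ ≤ N →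
      ∀ (h g : Fin K → ℕ) (Bd : ℕ → ℕ → Prop),
      Function.Injective (fun i => (h i, g i)) →
      (∀ i, 1 ≤ g i ∧ (g i : ℝ) ≤ (Real.log N) ^ 2) → (∀ i, (h i : ℝ) ≤ (Real.log N) ^ 2) →
      (∀ p n, Bd p n ↔ Bd p (n % p)) →
      (∀ p n i, p.Prime → p ∣ (n + h i) ^ 2 + (g i) ^ 2 → Bd p n) →
      (∀ p : ℕ, p.Prime → rhB Bd p ≤ κ) → (∀ p : ℕ, p.Prime → p < w → rhB Bd p < p) →
      (∀ p : ℕ, p.Prime → w ≤ p → 2 * rhB Bd p ≤ p) →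
      c * (N / (Real.log N) ^ κ) ≤ (#((Ioc N (2 * N)).filter (fun n => RoB Bd (pw N δ) n ∧
        m + 1 ≤ #(univ.filter (fun j => GoodV N ((n + h j) ^ 2 + (g j) ^ 2))))) : ℝ) := by
  obtain ⟨η, hη, c₀, hc₀, N1, hBil⟩ := bilH
  obtain ⟨Nn, hNsq⟩ := nsqK
  obtain ⟨C, hC1, hmain⟩ := tuple_abs η hη
  refine ⟨C, hC1, fun m K hK δ₁ κ w hδ₁ => ?_⟩
  obtain ⟨δ, c, hδ0, hδδ₁, hc, N2, hN2⟩ := hmain m K hK δ₁ c₀ κ w hδ₁ hc₀
  have hev : ∀ᶠ N : ℕ in Filter.atTop,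
      (6 : ℝ) * (N : ℝ) ^ (δ / 2) ≤ (N : ℝ) ^ δ ∧ (Real.log N) ^ 4 ≤ (N : ℝ) ^ (δ / 2) ∧
      (5 : ℝ) * (N : ℝ) ^ ((1 : ℝ) / 2) ≤ (N : ℝ) ^ (1 : ℝ) ∧
      (Real.log N) ^ 2 ≤ (N : ℝ) ^ ((1 : ℝ) / 2) ∧
      (Real.log N) ^ 2 ≤ (N : ℝ) ^ ((1 : ℝ) / 10) := by
    filter_upwards [fin_ev2 (δ / 2) δ 6 (by linarith), log_ev (δ / 2) 4 (by linarith),
      fin_ev2 ((1 : ℝ) / 2) 1 5 (by norm_num), log_ev (1 / 2) 2 (by norm_num),
      log_ev (1 / 10) 2 (by norm_num)] with N h1 h2 h3 h4 h5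
    exact ⟨h1, h2, h3, h4, h5⟩
  obtain ⟨Ne, hNe⟩ := Filter.eventually_atTop.mp hev
  refine ⟨δ, c, hδ0, hδδ₁, hc, max N1 (max Nn (max N2 (max Ne 3))), ?_⟩
  intro N hN h g Bd hinj hg hh hper hF hκ hsm hhalf
  simp only [max_le_iff] at hN
  obtain ⟨hNN1, hNNn, hNN2, hNNe, hNN3⟩ := hN
  obtain ⟨hx1, hx2, hx3, hx4, hx5⟩ := hNe N hNNe
  rw [Real.rpow_one] at hx3
  obtain ⟨W, hW01, hWsum, hbil⟩ := hBil N hNN1
  have hN0 : (0 : ℝ) < N := by positivity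
  have hN1 : (1 : ℝ) ≤ N := by exact_mod_cast (by omega : 1 ≤ N)
  have hlog1 : 1 ≤ Real.log N := by
    have h1 : Real.log 3 ≤ Real.log N :=
      Real.log_le_log (by norm_num) (by exact_mod_cast hNN3)
    have h2 : (1 : ℝ) ≤ Real.log 3 := by
      rw [Real.le_log_iff_exp_le (by norm_num)]
      have := Real.exp_one_lt_d9
      linarith
    linarith
  set L := ⌊(Real.log N) ^ 2⌋₊ with hLdef
  have hgL : ∀ i, g i ≤ L := fun i => Nat.le_floor (hg i).2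
  have hhL : ∀ i, h i ≤ L := fun i => Nat.le_floor (hh i)
  have hLr : (L : ℝ) ≤ (Real.log N) ^ 2 := Nat.floor_le (by positivity)
  have hz : (N : ℝ) ^ δ ≤ pw N δ := Nat.le_ceil _
  have hLz : 5 * L ^ 2 < pw N δ := by
    have h1 : (L : ℝ) ^ 2 ≤ ((Real.log N) ^ 2) ^ 2 := pow_le_pow_left₀ (Nat.cast_nonneg _) hLr 2
    have h2 : ((Real.log N) ^ 2) ^ 2 = (Real.log N) ^ 4 := by ring
    have h3 : 0 < (N : ℝ) ^ (δ / 2) := by positivity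
    have h4 : (5 : ℝ) * (L : ℝ) ^ 2 < pw N δ := by
      rw [h2] at h1
      linarith
    exact_mod_cast h4
  have hLz1 : L < pw N δ := by
    rcases Nat.eq_zero_or_pos L with h0 | h0
    · rw [h0] at hLz ⊢
      omega
    · nlinarith
  have hAdm : Adm (pw N δ) (fo h g) Bd := by
    refine ⟨?_, ?_, ?_, hper, ?_⟩
    · intro i n r
      unfold fo
      exact (((Nat.mod_modEq n r).add_right _).pow 2).add_right _
    · intro i p hp hzp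
      unfold fo
      apply loc_shift p (h i) (g i) hp
      intro hd
      have h1 := Nat.le_of_dvd (by have := (hg i).1; omega) hd
      have h2 := hgL i
      omega
    · intro i j n p hp hzp h1 h2
      unfold fo at h1 h2
      have h3 := exc_aux p n (h i) (g i) (h j) (g j) L hp (hg i).1 (hgL i) (hgL j) (hhL i) (hhL j)
        (by omega) h1 h2
      apply hinj
      exact Prod.ext h3.1 h3.2
    · intro p n i hp hd
      exact hF p n i hp hd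
  have hL5 : (5 : ℝ) * L ≤ N := by
    have : (L : ℝ) ≤ (N : ℝ) ^ ((1 : ℝ) / 2) := hLr.trans hx4
    linarith
  have h1920 : (Real.log N) ^ 2 ≤ (N : ℝ) ^ ((19 : ℝ) / 20) := by
    refine hx5.trans ?_
    exact Real.rpow_le_rpow_of_exponent_le hN1 (by norm_num)
  refine hN2 N hNN2 (fo h g) Bd W g hAdm hκ hsm hhalf hW01 hWsum ?_ ?_ ?_ ?_
  · intro j n hn
    rw [mem_Ioc] at hn
    unfold fo
    have hg1 := (hg j).1
    refine ⟨by positivity, ?_⟩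
    have a1 : (n : ℝ) ≤ 2 * N := by exact_mod_cast hn.2
    have a2 : (h j : ℝ) ≤ L := by exact_mod_cast hhL j
    have a3 : (g j : ℝ) ≤ L := by exact_mod_cast hgL j
    have a4 : (0 : ℝ) ≤ n := Nat.cast_nonneg _
    have a5 : (0 : ℝ) ≤ h j := Nat.cast_nonneg _
    have a6 : (0 : ℝ) ≤ g j := Nat.cast_nonneg _
    have a7 : (0 : ℝ) ≤ L := Nat.cast_nonneg _
    push_cast
    have b1 : ((n : ℝ) + h j) ^ 2 ≤ (2 * N + N / 5) ^ 2 := by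
      apply pow_le_pow_left₀ (by positivity)
      linarith
    have b2 : (g j : ℝ) ^ 2 ≤ (N / 5) ^ 2 := by
      apply pow_le_pow_left₀ a6
      linarith
    nlinarith [sq_nonneg (N : ℝ)]
  · intro j
    have h1 := bad_shift N (h j) (g j)
    have h2 := hNsq N hNNn (g j) (hg j).1 ((hg j).2.trans hx5)
    have h3 : (#((Ioc N (2 * N)).filter (fun n => BadV N ((n + h j) ^ 2 + (g j) ^ 2))) : ℝ) ≤
        (#((Ioc N (2 * N)).filter (fun n => BadK N (g j) n)) : ℝ) + h j := by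
      have h4 : ((#((Ioc N (2 * N)).filter (fun n => BadV N ((n + h j) ^ 2 + (g j) ^ 2))) : ℕ) : ℝ) ≤
        ((#((Ioc N (2 * N)).filter (fun n => BadK N (g j) n)) + h j : ℕ) : ℝ) := by
        exact_mod_cast h1
      push_cast at h4
      exact h4
    have h5 : (#((Ioc N (2 * N)).filter (fun n => BadV N (fo h g j n))) : ℝ) =
        (#((Ioc N (2 * N)).filter (fun n => BadV N ((n + h j) ^ 2 + (g j) ^ 2))) : ℝ) := rfl
    rw [h5]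
    have h6 := hh j
    linarith
  · intro j p hp hzp hd
    have h1 := Nat.le_of_dvd (by have := (hg j).1; omega) hd
    have h2 := hgL j
    omega
  · intro j r c hr hrN M Q hM hQ b hb
    exact hbil (h j) (g j) r c (hg j).1 (hg j).2 (hh j) hr hrN M Q hM hQ b hb

end Pool.Agent.Work.MP_2dba45_nt.TG
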