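import Mathlib
import Pool.Agent.Work.MP_2dba45_nt.TG.BHS
import Pool.Agent.Work.MP_2dba45_nt.TG.Gen

set_option autoImplicit false

/-!
Choice of a residue class for the small primes, and the theorem on clusters for arbitrary large
sets of pairs.
-/

namespace Pool.Agent.Work.MP_2dba45_nt.TG

open Finset Pool.Agent.Work.MP_2dba45_nt.BilDef Pool.Agent.Work.MP_2dba45_nt.Sv
  Pool.Agent.Work.MP_73869e_nt.SK Pool.Agent.Work.MP_73869e_nt.TH
  Pool.Agent.Work.MP_2dba45_nt.VV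

theorem rhB_compl (Bd : ℕ → ℕ → Prop) (p : ℕ) :
    (Crt.rho (fun p t => ¬ Bd p t) p : ℝ) = p - rhB Bd p := by
  classical
  unfold Crt.rho rhB
  have h := card_filter_add_card_filter_not (s := range p) (fun x => Bd p x)
  rw [card_range] at h
  have h2 : (#((range p).filter (fun x => Bd p x)) : ℝ) +
      #((range p).filter (fun x => ¬ Bd p x)) = p := by exact_mod_cast h
  have h3 : (#((range p).filter (fun x => ¬ Bd p x)) : ℝ) =
      p - #((range p).filter (fun x => Bd p x)) := by linarith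
  convert h3

theorem card_good (Bd : ℕ → ℕ → Prop) (hper : ∀ p n, Bd p n ↔ Bd p (n % p)) (w : ℕ) :
    (open Classical in
      (#((range (∏ p ∈ PP w, p)).filter (fun a => ∀ p ∈ PP w, ¬ Bd p a)) : ℝ)) =
      (∏ p ∈ PP w, (p : ℝ)) * ∏ p ∈ PP w, (1 - grB Bd p) := by
  classical
  have h := Crt.card_crt (fun p t => ¬ Bd p t) (PP w) (fun p hp => (mem_PP.1 hp).2)
    (fun p _ t => not_congr (hper p t))
  have h2 : ((∏ p ∈ PP w, Crt.rho (fun p t => ¬ Bd p t) p : ℕ) : ℝ) =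
      (∏ p ∈ PP w, (p : ℝ)) * ∏ p ∈ PP w, (1 - grB Bd p) := by
    push_cast
    rw [← prod_mul_distrib]
    refine prod_congr rfl fun p hp => ?_
    rw [rhB_compl]
    have hp0 : (p : ℝ) ≠ 0 := by exact_mod_cast (mem_PP.1 hp).2.ne_zero
    unfold grB
    field_simp
  rw [← h2, ← h]
  norm_cast
  convert rfl

open Classical in
theorem sel (β w₀ : ℕ) : ∃ c : ℝ, 0 < c ∧ ∀ (S : Finset (ℕ × ℕ)) (B : ℕ × ℕ → ℕ → ℕ → Prop)
    (w : ℕ), 2 ≤ w → (∀ s ∈ S, ∀ p n, B s p n ↔ B s p (n % p)) →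
    (∀ s ∈ S, ∀ p : ℕ, p.Prime → rhB (B s) p ≤ β) →
    (∀ s ∈ S, ∀ p : ℕ, p.Prime → p < w₀ → rhB (B s) p < p) →
    (∀ s ∈ S, ∀ p : ℕ, p.Prime → w₀ ≤ p → 2 * rhB (B s) p ≤ p) →
    ∃ a : ℕ, c / (Real.log w) ^ β * #S ≤ #(S.filter (fun s => ∀ p ∈ PP w, ¬ B s p a)) := by
  obtain ⟨c, hc, hV⟩ := V_geW β w₀
  refine ⟨c, hc, fun S B w hw hper hβ hsm hh => ?_⟩
  set Wd := ∏ p ∈ PP w, p with hWd
  have hWd0 : 0 < Wd := prod_pos fun p hp => (mem_PP.1 hp).2.pos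
  have hWd0r : (0 : ℝ) < Wd := by exact_mod_cast hWd0
  have hcount : ∀ s ∈ S, c / (Real.log w) ^ β * Wd ≤
      (#((range Wd).filter (fun a => ∀ p ∈ PP w, ¬ B s p a)) : ℝ) := by
    intro s hs
    have h1 := card_good (B s) (hper s hs) w
    rw [h1]
    have h2 := hV (B s) w (hβ s hs) (hsm s hs) (hh s hs) hw
    have h3 : ((Wd : ℕ) : ℝ) = ∏ p ∈ PP w, (p : ℝ) := by
      rw [hWd]
      push_cast
      rfl
    rw [← h3, mul_comm]
    exact mul_le_mul_of_nonneg_left h2 hWd0r.le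
  have hsum : ∑ _a ∈ range Wd, c / (Real.log w) ^ β * (#S : ℝ) ≤
      ∑ a ∈ range Wd, (#(S.filter (fun s => ∀ p ∈ PP w, ¬ B s p a)) : ℝ) := by
    rw [sum_const, card_range, nsmul_eq_mul]
    calc (Wd : ℝ) * (c / (Real.log w) ^ β * (#S : ℝ)) = ∑ _s ∈ S, c / (Real.log w) ^ β * Wd := by
          rw [sum_const, nsmul_eq_mul]; ring
      _ ≤ ∑ s ∈ S, (#((range Wd).filter (fun a => ∀ p ∈ PP w, ¬ B s p a)) : ℝ) :=
          sum_le_sum hcount
      _ = ∑ s ∈ S, ∑ a ∈ range Wd, (if ∀ p ∈ PP w, ¬ B s p a then (1 : ℝ) else 0) := by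
          refine sum_congr rfl fun s _ => ?_
          rw [sum_boole]
      _ = ∑ a ∈ range Wd, (#(S.filter (fun s => ∀ p ∈ PP w, ¬ B s p a)) : ℝ) := by
          rw [sum_comm]
          refine sum_congr rfl fun a _ => ?_
          rw [sum_boole]
  obtain ⟨a, _, ha⟩ := exists_le_of_sum_le (nonempty_range_iff.2 hWd0.ne') hsum
  exact ⟨a, ha⟩

end Pool.Agent.Work.MP_2dba45_nt.TG
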