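import Mathlib
import Pool.Agent.Work.MP_2dba45_nt.TG.Sel

set_option autoImplicit false

/-!
The theorem on clusters for arbitrary large sets of pairs `(h, g)`.
-/

namespace Pool.Agent.Work.MP_2dba45_nt.TG

open Finset Pool.Agent.Work.MP_2dba45_nt.BilDef Pool.Agent.Work.MP_2dba45_nt.Sv
  Pool.Agent.Work.MP_73869e_nt.SK Pool.Agent.Work.MP_73869e_nt.TH
  Pool.Agent.Work.MP_2dba45_nt.VV

theorem log_pow_le (β w : ℕ) (hw : 1 ≤ w) : (Real.log w) ^ β ≤ β.factorial * w := by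
  have hw1 : (1 : ℝ) ≤ w := by exact_mod_cast hw
  have hw0 : (0 : ℝ) < w := by linarith
  have h := Real.pow_div_factorial_le_exp (Real.log w) (Real.log_nonneg hw1) β
  rw [Real.exp_log hw0, div_le_iff₀ (by positivity)] at h
  linarith

open Classical in
/-- Clusters for arbitrary sets of at least `C ^ (m + 1)` pairs `(h, g)`. -/
theorem tuple_any (β w₀ : ℕ) : ∃ C : ℕ, 1 ≤ C ∧ ∀ (m : ℕ) (S : Finset (ℕ × ℕ))
    (B : ℕ × ℕ → ℕ → ℕ → Prop), C ^ (m + 1) ≤ #S → (∀ s ∈ S, 1 ≤ s.2) →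
    (∀ s ∈ S, ∀ p n, B s p n ↔ B s p (n % p)) →
    (∀ s ∈ S, ∀ p n : ℕ, p.Prime → p ∣ (n + s.1) ^ 2 + s.2 ^ 2 → B s p n) →
    (∀ s ∈ S, ∀ p : ℕ, p.Prime → rhB (B s) p ≤ β) →
    (∀ s ∈ S, ∀ p : ℕ, p.Prime → p < w₀ → rhB (B s) p < p) →
    (∀ s ∈ S, ∀ p : ℕ, p.Prime → w₀ ≤ p → 2 * rhB (B s) p ≤ p) →
    ∀ δ₁ : ℝ, 0 < δ₁ → ∃ δ c : ℝ, 0 < δ ∧ δ ≤ δ₁ ∧ 0 < c ∧ ∃ κ N₀ : ℕ, ∀ N : ℕ, N₀ ≤ N →
      c * (N / (Real.log N) ^ κ) ≤ (#((Ioc N (2 * N)).filter (fun n =>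
        m + 1 ≤ #(S.filter (fun s => (∀ p : ℕ, p.Prime → p < pw N δ → ¬ B s p n) ∧
          GoodV N ((n + s.1) ^ 2 + s.2 ^ 2))))) : ℝ) := by
  obtain ⟨c, hc, hsel⟩ := sel β w₀
  obtain ⟨C₀, hC₀, hgen⟩ := tuple_gen
  obtain ⟨C₁, hC₁⟩ := exists_nat_ge (β.factorial * (w₀ + 2 * β + 2) / c)
  refine ⟨(C₁ + 1) * 2 ^ (2 * C₀), Nat.mul_pos (by omega) (by positivity), ?_⟩
  intro m S B hS hg hper hF hβ hsm hh δ₁ hδ₁
  obtain ⟨K, hK⟩ : ∃ K : ℕ, K = 2 ^ (C₀ * (m + 1)) := ⟨_, rfl⟩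
  have hK1 : 1 ≤ K := by rw [hK]; exact Nat.one_le_two_pow
  have hK1r : (1 : ℝ) ≤ K := by exact_mod_cast hK1
  -- the parameter `w`
  obtain ⟨w, hw⟩ : ∃ w : ℕ, w = w₀ + 2 * β * K + 2 := ⟨_, rfl⟩
  have hw2 : 2 ≤ w := by omega
  have hww₀ : w₀ ≤ w := by omega
  have hwβ : 2 * (β * K) ≤ w := by rw [hw]; nlinarith
  have hwK : (w : ℝ) ≤ (w₀ + 2 * β + 2) * K := by
    rw [hw]
    push_cast
    have h1 : (0 : ℝ) ≤ w₀ := Nat.cast_nonneg _
    nlinarith
  obtain ⟨a, ha⟩ := hsel S B w hw2 hper hβ hsm hh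
  -- enough pairs remain
  have hlogw : 0 < Real.log w := Real.log_pos (by exact_mod_cast (by omega : 1 < w))
  have hKle : (K : ℝ) ≤ c / (Real.log w) ^ β * #S := by
    have h1 : (Real.log w) ^ β ≤ β.factorial * ((w₀ + 2 * β + 2) * K) :=
      (log_pow_le β w (by omega)).trans (mul_le_mul_of_nonneg_left hwK (by positivity))
    have h2 : ((C₁ + 1 : ℕ) : ℝ) * (K : ℝ) ^ 2 ≤ #S := by
      have h3 : (C₁ + 1) * K ^ 2 ≤ #S := by
        refine le_trans ?_ hS
        rw [mul_pow, ← pow_mul, hK, ← pow_mul]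
        apply Nat.mul_le_mul
        · exact Nat.le_self_pow (by omega) _
        · apply Nat.pow_le_pow_right (by norm_num)
          nlinarith
      exact_mod_cast h3
    rw [div_mul_eq_mul_div, le_div_iff₀ (by positivity)]
    have h4 : β.factorial * (w₀ + 2 * β + 2) ≤ C₁ * c := by
      rw [div_le_iff₀ hc] at hC₁
      exact hC₁
    calc (K : ℝ) * (Real.log w) ^ β ≤ K * (β.factorial * ((w₀ + 2 * β + 2) * K)) :=
          mul_le_mul_of_nonneg_left h1 (by positivity)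
      _ = (β.factorial * (w₀ + 2 * β + 2)) * (K : ℝ) ^ 2 := by ring
      _ ≤ (C₁ * c) * (K : ℝ) ^ 2 := mul_le_mul_of_nonneg_right h4 (by positivity)
      _ ≤ c * (((C₁ + 1 : ℕ) : ℝ) * (K : ℝ) ^ 2) := by
          push_cast
          nlinarith [mul_nonneg hc.le (sq_nonneg (K : ℝ))]
      _ ≤ c * #S := mul_le_mul_of_nonneg_left h2 hc.le
  have hcard : K ≤ #(S.filter (fun s => ∀ p ∈ PP w, ¬ B s p a)) := by
    exact_mod_cast hKle.trans ha
  obtain ⟨S', hS'sub, hS'card⟩ := exists_subset_card_eq hcard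
  set e := (Finset.equivFinOfCardEq hS'card).symm with he
  set φ : Fin K → ℕ × ℕ := fun i => (e i : ℕ × ℕ) with hφ
  have hφinj : Function.Injective φ := fun i j hij => e.injective (Subtype.ext hij)
  have hφS' : ∀ i, φ i ∈ S' := fun i => (e i).2
  have hφS : ∀ i, φ i ∈ S := fun i => (mem_filter.1 (hS'sub (hφS' i))).1
  have hφa : ∀ i, ∀ p ∈ PP w, ¬ B (φ i) p a := fun i => (mem_filter.1 (hS'sub (hφS' i))).2
  -- the preliminary sieve
  obtain ⟨Bd, hBd⟩ : ∃ Bd : ℕ → ℕ → Prop,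
      Bd = fun p n => if p < w then ¬ n ≡ a [MOD p] else ∃ i, B (φ i) p n := ⟨_, rfl⟩
  have hBd1 : ∀ p n, p < w → (Bd p n ↔ ¬ n ≡ a [MOD p]) := by
    intro p n hp
    rw [hBd]
    beta_reduce
    rw [if_pos hp]
  have hBd2 : ∀ p n, ¬ p < w → (Bd p n ↔ ∃ i, B (φ i) p n) := by
    intro p n hp
    rw [hBd]
    beta_reduce
    rw [if_neg hp]
  have hcong : ∀ i p n, p.Prime → p < w → n ≡ a [MOD p] → ¬ B (φ i) p n := by
    intro i p n hp hpw hna hB
    have h1 := (hper (φ i) (hφS i) p n).1 hB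
    have h2 : n % p = a % p := hna
    rw [h2] at h1
    exact hφa i p (mem_PP.2 ⟨hpw, hp⟩) ((hper (φ i) (hφS i) p a).2 h1)
  obtain ⟨δ, cc, hδ0, hδδ₁, hcc, N₁, hN₁⟩ := hgen m K hK δ₁ (w + β * K) w hδ₁
  -- size of the pairs
  obtain ⟨Mx, hMx⟩ : ∃ Mx : ℕ, ∀ i, (φ i).1 ≤ Mx ∧ (φ i).2 ≤ Mx := by
    refine ⟨∑ i, ((φ i).1 + (φ i).2), fun i => ?_⟩
    have h1 := single_le_sum (f := fun i => (φ i).1 + (φ i).2) (fun j _ => Nat.zero_le _)
      (mem_univ i)
    beta_reduce at h1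
    omega
  have hev : ∀ᶠ N : ℕ in Filter.atTop, (Mx : ℝ) ≤ (Real.log N) ^ 2 := by
    have htend : Filter.Tendsto (fun N : ℕ => Real.log (N : ℝ)) Filter.atTop Filter.atTop :=
      Real.tendsto_log_atTop.comp tendsto_natCast_atTop_atTop
    filter_upwards [htend.eventually_ge_atTop (Mx : ℝ), htend.eventually_ge_atTop 1] with N h1 h2
    nlinarith
  obtain ⟨N₂, hN₂⟩ := Filter.eventually_atTop.mp hev
  refine ⟨δ, cc, hδ0, hδδ₁, hcc, w + β * K, max N₁ N₂, fun N hN => ?_⟩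
  have hNN1 : N₁ ≤ N := (le_max_left _ _).trans hN
  have hNN2 : N₂ ≤ N := (le_max_right _ _).trans hN
  have hlogN := hN₂ N hNN2
  have hrh2 : ∀ p : ℕ, p.Prime → ¬ p < w → rhB Bd p ≤ β * K := by
    intro p hp hpw
    have h1 : rhB Bd p ≤ ∑ i, rhB (B (φ i)) p := by
      unfold rhB
      refine le_trans (card_le_card ?_) (card_biUnion_le
        (s := (univ : Finset (Fin K))) (t := fun i => (range p).filter (fun x => B (φ i) p x)))
      intro x hx
      rw [mem_filter, hBd2 p x hpw] at hx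
      obtain ⟨hx1, i, hi⟩ := hx
      rw [mem_biUnion]
      exact ⟨i, mem_univ _, mem_filter.2 ⟨hx1, hi⟩⟩
    refine h1.trans ?_
    calc ∑ i, rhB (B (φ i)) p ≤ ∑ _i : Fin K, β := sum_le_sum fun i _ => hβ (φ i) (hφS i) p hp
      _ = β * K := by rw [sum_const, card_univ, Fintype.card_fin, smul_eq_mul, mul_comm]
  have hmain := hN₁ N hNN1 (fun i => (φ i).1) (fun i => (φ i).2) Bd (fun i j hij => hφinj hij)
    (fun i => ⟨hg _ (hφS i), by
      have : ((φ i).2 : ℝ) ≤ Mx := by exact_mod_cast (hMx i).2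
      linarith⟩)
    (fun i => by
      have : ((φ i).1 : ℝ) ≤ Mx := by exact_mod_cast (hMx i).1
      linarith)
    (fun p n => by
      by_cases hp : p < w
      · rw [hBd1 p n hp, hBd1 p (n % p) hp]
        have h1 : n % p ≡ n [MOD p] := Nat.mod_modEq n p
        exact not_congr ⟨fun h => h1.trans h, fun h => h1.symm.trans h⟩
      · rw [hBd2 p n hp, hBd2 p (n % p) hp]
        exact exists_congr fun i => hper (φ i) (hφS i) p n)
    (fun p n i hp hd => by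
      by_cases hpw : p < w
      · rw [hBd1 p n hpw]
        intro hna
        exact hcong i p n hp hpw hna (hF (φ i) (hφS i) p n hp hd)
      · rw [hBd2 p n hpw]
        exact ⟨i, hF (φ i) (hφS i) p n hp hd⟩)
    (fun p hp => by
      by_cases hpw : p < w
      · have h1 : rhB Bd p ≤ p := by
          unfold rhB
          refine (card_filter_le _ _).trans ?_
          rw [card_range]
        omega
      · have := hrh2 p hp hpw
        omega)
    (fun p hp hpw => by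
      have h1 : (range p).filter (fun x => Bd p x) ⊆ (range p).erase (a % p) := by
        intro x hx
        rw [mem_filter, hBd1 p x hpw] at hx
        rw [mem_erase]
        refine ⟨?_, hx.1⟩
        rintro rfl
        exact hx.2 (Nat.mod_modEq a p)
      have h2 := card_le_card h1
      rw [card_erase_of_mem (mem_range.2 (Nat.mod_lt _ hp.pos)), card_range] at h2
      have h3 := hp.pos
      unfold rhB
      omega)
    (fun p hp hpw => by
      have := hrh2 p hp (by omega)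
      omega)
  refine hmain.trans ?_
  have hfin : #((Ioc N (2 * N)).filter (fun n => RoB Bd (pw N δ) n ∧
      m + 1 ≤ #(univ.filter (fun j => GoodV N ((n + (φ j).1) ^ 2 + ((φ j).2) ^ 2))))) ≤
      #((Ioc N (2 * N)).filter (fun n =>
        m + 1 ≤ #(S.filter (fun s => (∀ p : ℕ, p.Prime → p < pw N δ → ¬ B s p n) ∧
          GoodV N ((n + s.1) ^ 2 + s.2 ^ 2))))) := by
    apply card_le_card
    intro n hn
    rw [mem_filter] at hn ⊢
    refine ⟨hn.1, hn.2.2.trans ?_⟩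
    apply card_le_card_of_injOn φ
    · intro j hj
      rw [mem_coe, mem_filter] at hj
      rw [mem_coe, mem_filter]
      refine ⟨hφS j, ?_, hj.2⟩
      intro p hp hpz
      have h1 := hn.2.1 p hp hpz
      by_cases hpw : p < w
      · rw [hBd1 p n hpw, not_not] at h1
        exact hcong j p n hp hpw h1
      · rw [hBd2 p n hpw] at h1
        exact fun h => h1 ⟨j, h⟩
    · exact fun i _ j _ hij => hφinj hij
  exact_mod_cast hfin

end Pool.Agent.Work.MP_2dba45_nt.TG
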