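import Mathlib
import Pool.Agent.Work.MP_2dba45_nt.TG.Any

set_option autoImplicit false

/-!
Local facts for the applications.
-/

namespace Pool.Agent.Work.MP_2dba45_nt.TG

open Finset Pool.Agent.Work.MP_2dba45_nt.BilDef Pool.Agent.Work.MP_2dba45_nt.Sv
  Pool.Agent.Work.MP_73869e_nt.SK Pool.Agent.Work.MP_73869e_nt.TH
  Pool.Agent.Work.MP_2dba45_nt.VV

theorem rhB_shift (P : ℕ → ℕ → Prop) (hper : ∀ p n, P p n ↔ P p (n % p)) (h p : ℕ) :
    rhB (fun p n => P p (n + h)) p = rhB P p := by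
  classical
  have hP : Function.Periodic (fun x : ℕ => P p x) p := by
    intro x
    beta_reduce
    rw [eq_iff_iff, hper p (x + p), hper p x, Nat.add_mod_right]
  have h1 := Nat.filter_Ico_card_eq_of_periodic h p (fun x : ℕ => P p x) hP
  have h2 := Nat.filter_Ico_card_eq_of_periodic 0 p (fun x : ℕ => P p x) hP
  unfold rhB
  rw [range_eq_Ico]
  rw [zero_add] at h2
  have h3 : #((Ico 0 p).filter (fun x => P p (x + h))) = #((Ico h (h + p)).filter (fun x => P p x)) := by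
    apply card_bij (fun x _ => x + h)
    · intro x hx
      rw [mem_filter, mem_Ico] at hx ⊢
      exact ⟨⟨by omega, by omega⟩, hx.2⟩
    · intro a _ b _ hab
      omega
    · intro y hy
      rw [mem_filter, mem_Ico] at hy
      refine ⟨y - h, ?_, by omega⟩
      have h3 : y - h + h = y := by omega
      rw [mem_filter, mem_Ico, h3]
      exact ⟨⟨by omega, by omega⟩, hy.2⟩
  have h4 : #((Ico 0 p).filter (fun x => P p (x + h))) = #((Ico 0 p).filter (fun x => P p x)) := by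
    rw [h3, h1, h2]
  convert h4

theorem sq_add_mod (p n a : ℕ) : p ∣ n ^ 2 + a ↔ p ∣ (n % p) ^ 2 + a := by
  have h : n ^ 2 + a ≡ (n % p) ^ 2 + a [MOD p] := ((Nat.mod_modEq n p).symm.pow 2).add_right a
  exact h.dvd_iff dvd_rfl

theorem rhB_eq (Bd : ℕ → ℕ → Prop) [∀ p, DecidablePred (Bd p)] (p : ℕ) :
    rhB Bd p = #((range p).filter (fun x => Bd p x)) := by
  unfold rhB
  congr

theorem rhB_sq (g p : ℕ) : rhB (fun p n => p ∣ n ^ 2 + g ^ 2) p = Nu.nu (g ^ 2) p := by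
  rw [rhB_eq]
  rfl

theorem rhB_pair (h g p : ℕ) (hp : p.Prime) :
    rhB (fun p n => p ∣ (n + h) ^ 2 + g ^ 2) p ≤ 2 ∧
      2 * rhB (fun p n => p ∣ (n + h) ^ 2 + g ^ 2) p ≤ p := by
  have h1 := rhB_shift (fun p n => p ∣ n ^ 2 + g ^ 2) (fun p n => sq_add_mod p n _) h p
  rw [h1, rhB_sq]
  refine ⟨Nu.nu_le _ p hp, ?_⟩
  have h2 := gK_le_half g p hp
  unfold gK at h2
  have hp0 : (0 : ℝ) < p := by exact_mod_cast hp.pos
  rw [div_le_iff₀ hp0] at h2
  have h3 : (2 : ℝ) * (Nu.nu (g ^ 2) p : ℝ) ≤ p := by linarith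
  exact_mod_cast h3

theorem rhB_om (h p : ℕ) (hp : p.Prime) :
    rhB (fun p n => p ∣ ((n + h) ^ 2 + 1) * ((n + h) ^ 2 + 3)) p ≤ 4 ∧
      2 * rhB (fun p n => p ∣ ((n + h) ^ 2 + 1) * ((n + h) ^ 2 + 3)) p ≤ p := by
  have h1 := rhB_shift (fun p n => p ∣ (n ^ 2 + 1) * (n ^ 2 + 3)) (fun p n => by
    have h : (n ^ 2 + 1) * (n ^ 2 + 3) ≡ ((n % p) ^ 2 + 1) * ((n % p) ^ 2 + 3) [MOD p] :=
      (((Nat.mod_modEq n p).symm.pow 2).add_right 1).mul
        (((Nat.mod_modEq n p).symm.pow 2).add_right 3)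
    exact h.dvd_iff dvd_rfl) h p
  have h2 : rhB (fun p n => p ∣ (n ^ 2 + 1) * (n ^ 2 + 3)) p = om p := by
    rw [rhB_eq]
    rfl
  rw [h1, h2]
  refine ⟨om_le_four p hp, ?_⟩
  have h3 := gom_le_half p hp
  unfold gom at h3
  have hp0 : (0 : ℝ) < p := by exact_mod_cast hp.pos
  rw [div_le_iff₀ hp0] at h3
  have h4 : (2 : ℝ) * (om p : ℝ) ≤ p := by linarith
  exact_mod_cast h4

theorem rhB_three (s p : ℕ) (hp : p.Prime) :
    rhB (fun p n => p ∣ (n ^ 2 + s ^ 2) * ((n ^ 2 + 1) * (n ^ 2 + 3))) p ≤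
      Nu.nu (s ^ 2) p + (Nu.nu 1 p + Nu.nu 3 p) := by
  rw [rhB_eq]
  unfold Nu.nu
  have h1 : (range p).filter (fun x => p ∣ (x ^ 2 + s ^ 2) * ((x ^ 2 + 1) * (x ^ 2 + 3))) ⊆
      (range p).filter (fun x => p ∣ x ^ 2 + s ^ 2) ∪
        ((range p).filter (fun x => p ∣ x ^ 2 + 1) ∪ (range p).filter (fun x => p ∣ x ^ 2 + 3)) := by
    intro x hx
    rw [mem_filter] at hx
    rw [mem_union, mem_union, mem_filter, mem_filter, mem_filter]
    rcases (Nat.Prime.dvd_mul hp).1 hx.2 with h | h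
    · exact Or.inl ⟨hx.1, h⟩
    · rcases (Nat.Prime.dvd_mul hp).1 h with h | h
      · exact Or.inr (Or.inl ⟨hx.1, h⟩)
      · exact Or.inr (Or.inr ⟨hx.1, h⟩)
  have h2 := (card_le_card h1).trans ((card_union_le _ _).trans
    (add_le_add le_rfl (card_union_le _ _)))
  exact h2

theorem rhB_three_small (s p : ℕ) (hs : Odd s) (hp : p.Prime) (hp12 : p < 12) :
    rhB (fun p n => p ∣ (n ^ 2 + s ^ 2) * ((n ^ 2 + 1) * (n ^ 2 + 3))) p < p := by
  have h0 := rhB_three s p hp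
  have h1 := Nu.nu_le (s ^ 2) p hp
  have h2 := Nu.nu_le 1 p hp
  have h3 := Nu.nu_le 3 p hp
  have hp2 := hp.two_le
  rcases Nat.lt_or_ge 6 p with h6 | h6
  · omega
  interval_cases p
  · -- p = 2
    have h4 : (range 2).filter (fun x => 2 ∣ (x ^ 2 + s ^ 2) * ((x ^ 2 + 1) * (x ^ 2 + 3))) ⊆
        (range 2).erase 0 := by
      intro x hx
      rw [mem_filter] at hx
      rw [mem_erase]
      refine ⟨?_, hx.1⟩
      rintro rfl
      have h5 := hx.2
      have h7 : s ^ 2 % 2 = 1 := Nat.odd_iff.1 hs.pow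
      omega
    have h5 := card_le_card h4
    rw [card_erase_of_mem (by decide), card_range] at h5
    have h6 : rhB (fun p n => p ∣ (n ^ 2 + s ^ 2) * ((n ^ 2 + 1) * (n ^ 2 + 3))) 2 ≤ 2 - 1 := by
      rw [rhB_eq]
      exact h5
    omega
  · -- p = 3
    have h4 : Nu.nu 1 3 = 0 := nu_one_three
    have h5 : Nu.nu 3 3 = 1 := by decide
    have h7 : Nu.nu (s ^ 2) 3 ≤ 1 := by
      by_cases h3s : 3 ∣ s
      · rw [nu_dvd hp h3s]
      · rw [nu_not_dvd hp h3s, h4]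
        norm_num
    omega
  · exact absurd hp (by decide)
  · -- p = 5
    have h5 : Nu.nu 3 5 = 0 := by decide
    omega
  · exact absurd hp (by decide)

/-- number of prime factors of an integer without small prime factors -/
theorem omega_le (δ : ℝ) (hδ : 0 < δ) (N k : ℕ) (hN : 2 ≤ N) (hk : 1 ≤ k)
    (hk8 : (k : ℝ) ≤ 8 * (N : ℝ) ^ 2)
    (h : ∀ p : ℕ, p.Prime → p ∣ k → (N : ℝ) ^ δ ≤ p) :
    ArithmeticFunction.cardFactors k ≤ ⌊5 / δ⌋₊ := by
  have hN0 : (0 : ℝ) < N := by positivity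
  have hN2 : (2 : ℝ) ≤ N := by exact_mod_cast hN
  have hlog : 0 < Real.log N := Real.log_pos (by linarith)
  apply Nat.le_floor
  rw [le_div_iff₀ hδ]
  have h1 : ((N : ℝ) ^ δ) ^ (ArithmeticFunction.cardFactors k) ≤ k := by
    have hprod : ((k.primeFactorsList.prod : ℕ) : ℝ) = k := by
      rw [Nat.prod_primeFactorsList (by omega)]
    rw [ArithmeticFunction.cardFactors_apply, ← hprod]
    have : ∀ l : List ℕ, (∀ p ∈ l, (N : ℝ) ^ δ ≤ p) →
        ((N : ℝ) ^ δ) ^ l.length ≤ ((l.prod : ℕ) : ℝ) := by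
      intro l
      induction l with
      | nil => intro _; simp
      | cons p l ih =>
        intro hl
        rw [List.length_cons, pow_succ, List.prod_cons, Nat.cast_mul, mul_comm]
        exact mul_le_mul (hl p (List.mem_cons_self)) (ih fun q hq => hl q (List.mem_cons_of_mem _ hq))
          (by positivity) (by positivity)
    refine this _ fun p hp => ?_
    exact h p (Nat.prime_of_mem_primeFactorsList hp) (Nat.dvd_of_mem_primeFactorsList hp)
  have h2 : (k : ℝ) ≤ (N : ℝ) ^ (5 : ℕ) := by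
    have h4 : (8 : ℝ) ≤ (N : ℝ) ^ 3 := by
      calc (8 : ℝ) = 2 ^ 3 := by norm_num
        _ ≤ (N : ℝ) ^ 3 := by gcongr
    calc (k : ℝ) ≤ 8 * (N : ℝ) ^ 2 := hk8
      _ ≤ (N : ℝ) ^ 3 * (N : ℝ) ^ 2 := by gcongr
      _ = (N : ℝ) ^ 5 := by ring
  have h3 := h1.trans h2
  rw [← Real.rpow_natCast, ← Real.rpow_mul hN0.le, ← Real.rpow_natCast] at h3
  have h4 := (Real.rpow_le_rpow_left_iff (by linarith : (1 : ℝ) < N)).1 h3
  push_cast at h4
  linarith

/-- the condition on small primes gives the lower bound for the prime factors -/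
theorem rough_of (N : ℕ) (δ : ℝ) (P : ℕ → Prop) (h : ∀ p : ℕ, p.Prime → p < pw N δ → ¬ P p)
    (p : ℕ) (hp : p.Prime) (hP : P p) : (N : ℝ) ^ δ ≤ p := by
  have h1 : pw N δ ≤ p := by
    by_contra hcon
    push Not at hcon
    exact h p hp hcon hP
  have h2 : (N : ℝ) ^ δ ≤ pw N δ := Nat.le_ceil _
  refine h2.trans ?_
  exact_mod_cast h1

end Pool.Agent.Work.MP_2dba45_nt.TG
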